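import Pool.Agent.X246.MRK.Girth
import Pool.Agent.X246.ZRK.Graph

/-!
# The Zarankiewicz problem for `K_{2,t}` and the rank
-/

set_option autoImplicit false

namespace Pool.Agent.X246.MRK

open Finset SimpleGraph Pool.Agent.X82.CW

theorem common_of_free {V : Type} [Fintype V] [DecidableEq V] (G : SimpleGraph V) (t : ℕ)
    (h : (completeBipartiteGraph (Fin 2) (Fin t)).Free G) (x y : V) (hxy : x ≠ y)
    (S : Finset V) (hS : ∀ z ∈ S, G.Adj x z ∧ G.Adj y z) : S.card ≤ t := by
  classical
  have h1 := Pool.Agent.X246.ZRK.noCommon_of_free G 2 t h {x, y} (card_pair hxy)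
  refine (card_le_card fun z hz => ?_).trans h1
  simp only [mem_filter, mem_univ, true_and, mem_neighborFinset, mem_insert, mem_singleton,
    forall_eq_or_imp, forall_eq]
  exact hS z hz

/-- the number of edges in terms of a vertex cover -/
theorem edges_common {V : Type} [Fintype V] [DecidableEq V] (G : SimpleGraph V) (t : ℕ)
    (hc : ∀ x y, x ≠ y → ∀ S : Finset V, (∀ z ∈ S, G.Adj x z ∧ G.Adj y z) → S.card ≤ t)
    (X : Finset V) (hX : ∀ x y, G.Adj x y → x ∈ X ∨ y ∈ X) :
    (Nat.card G.edgeSet : ℝ) ≤ Fintype.card V + X.card * √(t * Fintype.card V) := by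
  classical
  set d : V → ℕ := fun v => (X.filter fun x => G.Adj v x).card with hd
  set E : ℕ := ∑ v, d v with hE
  -- the number of edges
  have h1 : Nat.card G.edgeSet ≤ E := by
    have e1 := prs_univ G
    have e2 : prs G univ ≤ E + E := by
      set Q : Finset (V × V) := ((univ : Finset V).sigma
        (fun v => X.filter fun x => G.Adj v x)).image (fun p => (p.1, p.2)) with hQ
      set Q' : Finset (V × V) := ((univ : Finset V).sigma
        (fun v => X.filter fun x => G.Adj v x)).image (fun p => (p.2, p.1)) with hQ'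
      have c1 : Q.card ≤ E := by
        rw [hE, hd, ← card_sigma]
        exact card_image_le
      have c2 : Q'.card ≤ E := by
        rw [hE, hd, ← card_sigma]
        exact card_image_le
      have hsub : ((univ : Finset V) ×ˢ (univ : Finset V)).filter
          (fun p => G.Adj p.1 p.2) ⊆ Q ∪ Q' := by
        rintro ⟨x, y⟩ hp
        rw [mem_filter] at hp
        have hadj : G.Adj x y := hp.2
        rw [mem_union, hQ, hQ', mem_image, mem_image]
        rcases hX x y hadj with hx | hy
        · exact Or.inr ⟨⟨y, x⟩, by simp [hx, hadj.symm], rfl⟩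
        · exact Or.inl ⟨⟨x, y⟩, by simp [hy, hadj], rfl⟩
      have e0 : prs G univ = (((univ : Finset V) ×ˢ (univ : Finset V)).filter
        (fun p => G.Adj p.1 p.2)).card := by simp [prs]
      rw [e0]
      have := (card_le_card hsub).trans (card_union_le Q Q')
      omega
    omega
  -- the sum of the squares
  have h2 : ∑ v, d v ^ 2 ≤ E + t * X.card ^ 2 := by
    have e1 : ∑ v, d v ^ 2 = ∑ x ∈ X, ∑ x' ∈ X, (univ.filter fun v => G.Adj v x ∧ G.Adj v x').card := by
      have e2 : ∀ v, d v ^ 2 = ∑ x ∈ X, ∑ x' ∈ X, if G.Adj v x ∧ G.Adj v x' then 1 else 0 := by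
        intro v
        change (X.filter fun x => G.Adj v x).card ^ 2 = _
        rw [sq, card_filter, sum_mul_sum]
        refine sum_congr rfl fun x _ => sum_congr rfl fun x' _ => ?_
        by_cases a1 : G.Adj v x <;> by_cases a2 : G.Adj v x' <;> simp [a1, a2]
      simp_rw [e2]
      rw [sum_comm]
      refine sum_congr rfl fun x _ => ?_
      rw [sum_comm]
      refine sum_congr rfl fun x' _ => ?_
      rw [card_filter]
    have e3 : E = ∑ x ∈ X, (univ.filter fun v => G.Adj v x).card := by
      rw [hE, hd]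
      simp_rw [card_filter]
      rw [sum_comm]
    rw [e1, e3]
    have e4 : ∀ x ∈ X, ∑ x' ∈ X, (univ.filter fun v => G.Adj v x ∧ G.Adj v x').card ≤
        (univ.filter fun v => G.Adj v x).card + t * X.card := by
      intro x hx
      rw [← Finset.add_sum_erase _ _ hx]
      refine add_le_add ?_ ?_
      · refine card_le_card fun v hv => ?_
        rw [mem_filter] at hv ⊢
        exact ⟨hv.1, hv.2.1⟩
      · calc ∑ x' ∈ X.erase x, (univ.filter fun v => G.Adj v x ∧ G.Adj v x').card
            ≤ ∑ x' ∈ X.erase x, t := by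
              refine sum_le_sum fun x' hx' => ?_
              refine hc x x' (ne_of_mem_erase hx').symm _ fun z hz => ?_
              rw [mem_filter] at hz
              exact ⟨hz.2.1.symm, hz.2.2.symm⟩
          _ = (X.erase x).card * t := by rw [sum_const, smul_eq_mul]
          _ ≤ t * X.card := by
              rw [mul_comm]
              exact Nat.mul_le_mul_left _ (card_le_card (erase_subset _ _))
    refine (sum_le_sum e4).trans ?_
    rw [sum_add_distrib, sum_const, smul_eq_mul]
    refine Nat.add_le_add_left ?_ _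
    rw [sq]
    exact le_of_eq (by ring)
  have h3 : (E : ℝ) ^ 2 ≤ Fintype.card V * (E + t * (X.card : ℝ) ^ 2) := by
    have e1 : (∑ v, (d v : ℝ)) ^ 2 ≤ (univ : Finset V).card * ∑ v, (d v : ℝ) ^ 2 :=
      sq_sum_le_card_mul_sum_sq
    have e2 : (E : ℝ) = ∑ v, (d v : ℝ) := by
      rw [hE]
      push_cast
      rfl
    have e3 : ∑ v, (d v : ℝ) ^ 2 ≤ E + t * (X.card : ℝ) ^ 2 := by exact_mod_cast h2
    rw [e2] at e3 ⊢
    refine e1.trans ?_
    rw [card_univ]
    exact mul_le_mul_of_nonneg_left e3 (Nat.cast_nonneg _)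
  have h4 : (Nat.card G.edgeSet : ℝ) ≤ E := by exact_mod_cast h1
  refine h4.trans ?_
  by_contra hcon
  push Not at hcon
  set n : ℝ := (Fintype.card V : ℝ) with hn
  set a : ℝ := (X.card : ℝ) with ha
  have hn0 : 0 ≤ n := Nat.cast_nonneg _
  have ha0 : 0 ≤ a := Nat.cast_nonneg _
  have hE0 : (0 : ℝ) ≤ E := Nat.cast_nonneg _
  set q : ℝ := √(t * n) with hq
  have hq0 : 0 ≤ q := Real.sqrt_nonneg _
  have hqq : q ^ 2 = t * n := Real.sq_sqrt (by positivity)
  have k1 : a * q < E - n := by linarith
  have h0 : 0 ≤ a * q := mul_nonneg ha0 hq0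
  have k2 : a * q < E := by linarith
  have k3 : (a * q) * (a * q) < E * (E - n) := mul_lt_mul'' k2 k1 h0 h0
  have k4 : (a * q) * (a * q) = n * (t * a ^ 2) := by
    calc (a * q) * (a * q) = a ^ 2 * q ^ 2 := by ring
      _ = a ^ 2 * (t * n) := by rw [hqq]
      _ = n * (t * a ^ 2) := by ring
  have k5 : (E : ℝ) * (E - n) ≤ n * (t * a ^ 2) := by
    have e1 : (E : ℝ) * (E - n) = (E : ℝ) ^ 2 - n * E := by ring
    have e2 : n * ((E : ℝ) + t * a ^ 2) = n * E + n * (t * a ^ 2) := by ring
    rw [e2] at h3
    linarith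
  linarith

end Pool.Agent.X246.MRK
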