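import Pool.Agent.X246.MRK.Pattern

/-!
# The number of nonzero entries
-/

set_option autoImplicit false

namespace Pool.Agent.X246.MRK

open Finset

variable {X Y : Type} [Fintype X] [Fintype Y]

/-- the nonzero entries in the columns of `Z` -/
noncomputable def nzs (M : Matrix X Y ℝ) (Z : Finset Y) : Finset (X × Y) := by
  classical
  exact univ.filter fun p => M p.1 p.2 ≠ 0 ∧ p.2 ∈ Z

theorem mem_nzs {M : Matrix X Y ℝ} {Z : Finset Y} {p : X × Y} :
    p ∈ nzs M Z ↔ M p.1 p.2 ≠ 0 ∧ p.2 ∈ Z := by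
  classical
  unfold nzs
  rw [mem_filter]
  exact ⟨fun h => h.2, fun h => ⟨mem_univ _, h⟩⟩

theorem nzs_card (M : Matrix X Y ℝ) (Z : Finset Y) : (nzs M Z).card = ∑ z ∈ Z, cdeg M z := by
  classical
  have h1 : (nzs M Z).card = ((Z.sigma fun z => univ.filter fun x => M x z ≠ 0).image
      fun q => (q.2, q.1)).card := by
    congr 1
    ext p
    rw [mem_nzs, mem_image]
    constructor
    · rintro ⟨h1, h2⟩
      exact ⟨⟨p.2, p.1⟩, by simp [h1, h2], rfl⟩
    · rintro ⟨q, hq, rfl⟩
      rw [mem_sigma, mem_filter] at hq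
      exact ⟨hq.2.2, hq.1⟩
  rw [h1, card_image_of_injective, card_sigma]
  · refine sum_congr rfl fun z _ => ?_
    unfold cdeg
    congr
  · rintro ⟨a, b⟩ ⟨c, d⟩ h
    simp only [Prod.mk.injEq] at h
    obtain ⟨h1, h2⟩ := h
    subst h1
    subst h2
    rfl

theorem nzs_split (M : Matrix X Y ℝ) (Z : Finset Y) (D : ℕ) (hD : ∀ z, z ∉ Z → cdeg M z ≤ D) :
    (nzs M univ).card ≤ Fintype.card Y * D + (nzs M Z).card := by
  classical
  rw [nzs_card, nzs_card, ← sum_add_sum_compl Z, add_comm]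
  refine Nat.add_le_add_right ?_ _
  calc ∑ z ∈ Zᶜ, cdeg M z ≤ ∑ z ∈ Zᶜ, D := sum_le_sum fun z hz => hD z (by simpa using hz)
    _ = Zᶜ.card * D := by rw [sum_const, smul_eq_mul]
    _ ≤ _ := Nat.mul_le_mul_right _ (card_le_univ _)

/-- an odd number of rows -/
theorem odd_bound (M : Matrix X Y ℝ) (t r j : ℕ) (hr : M.rank ≤ r) (hr1 : 1 ≤ r)
    (h : Share M (1 + 2 * j) t univ) :
    (nzs M univ).card ≤ Fintype.card Y * (Tn t r j + (1 + 2 * j)) +
      Fintype.card X * Tn t r j := by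
  classical
  obtain ⟨Z, h1, h2⟩ := share_iter M t r hr hr1 j 1 h
  refine (nzs_split M Z _ h1).trans (Nat.add_le_add_left ?_ _)
  have h3 : (nzs M Z).card ≤ ((univ : Finset X).sigma fun x =>
      Z.filter fun z => M x z ≠ 0).card := by
    refine card_le_card_of_injOn (fun p => ⟨p.1, p.2⟩) ?_ ?_
    · intro p hp
      rw [mem_coe, mem_nzs] at hp
      simp [hp.1, hp.2]
    · rintro ⟨a, b⟩ _ ⟨c, d⟩ _ h
      simp only [Sigma.mk.injEq, heq_eq_eq] at h
      rw [h.1, h.2]
  refine h3.trans ?_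
  rw [card_sigma]
  calc ∑ x : X, (Z.filter fun z => M x z ≠ 0).card ≤ ∑ x : X, Tn t r j := by
        refine sum_le_sum fun x _ => ?_
        refine h2 {x} (card_singleton x) _ (filter_subset _ _) fun z hz w hw => ?_
        rw [mem_singleton] at hw
        subst hw
        exact (mem_filter.1 hz).2
    _ = Fintype.card X * Tn t r j := by
        rw [sum_const, card_univ, smul_eq_mul]

/-- a maximal matching -/
theorem exists_cover (M : Matrix X Y ℝ) (T r : ℕ) (hr : M.rank ≤ r) (Z : Finset Y)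
    (h : Share M 2 T Z) : ∃ (A : Finset X) (B : Finset Y), A.card ≤ (T + 1) * r ∧
      B.card ≤ (T + 1) * r ∧ B ⊆ Z ∧ ∀ x, ∀ z ∈ Z, M x z ≠ 0 → x ∈ A ∨ z ∈ B := by
  classical
  obtain ⟨P, hP, hmax⟩ := exists_max_image
    (univ.filter fun P : Finset (X × Y) => (∀ p ∈ P, M p.1 p.2 ≠ 0 ∧ p.2 ∈ Z) ∧
      (∀ p ∈ P, ∀ q ∈ P, p.1 = q.1 → p = q) ∧ ∀ p ∈ P, ∀ q ∈ P, p.2 = q.2 → p = q)
    card ⟨∅, by
      rw [mem_filter]
      exact ⟨mem_univ _, by simp, by simp, by simp⟩⟩
  rw [mem_filter] at hP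
  obtain ⟨-, hP1, hP2, hP3⟩ := hP
  have hcard : P.card ≤ (T + 1) * r := by
    let M' : Matrix X {z // z ∈ Z} ℝ := M.submatrix id Subtype.val
    have hM' : M'.rank ≤ r := (Matrix.rank_submatrix_le _ _ _).trans hr
    have hsh : ∀ x x', x ≠ x' → (univ.filter fun y => M' x y ≠ 0 ∧ M' x' y ≠ 0).card ≤ T := by
      intro x x' hx
      have h1 := h {x, x'} (card_pair hx)
        ((univ.filter fun y => M' x y ≠ 0 ∧ M' x' y ≠ 0).image Subtype.val) (by
          intro z hz
          rw [mem_image] at hz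
          obtain ⟨y, -, rfl⟩ := hz
          exact y.2) (by
          intro z hz w hw
          rw [mem_image] at hz
          obtain ⟨y, hy, rfl⟩ := hz
          rw [mem_filter] at hy
          rw [mem_insert, mem_singleton] at hw
          rcases hw with rfl | rfl
          · exact hy.2.1
          · exact hy.2.2)
      rwa [card_image_of_injective _ Subtype.val_injective] at h1
    have h2 := term_bound (I := {p // p ∈ P}) M' T hsh (fun p => p.1.1)
      (fun p => ⟨p.1.2, (hP1 p.1 p.2).2⟩)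
      (fun p q hpq => Subtype.ext (hP2 _ p.2 _ q.2 hpq))
      (fun p q hpq => Subtype.ext (hP3 _ p.2 _ q.2 (congrArg Subtype.val hpq)))
      (fun p => (hP1 p.1 p.2).1)
    rw [Fintype.card_coe] at h2
    exact h2.trans (Nat.mul_le_mul_left _ hM')
  refine ⟨P.image Prod.fst, P.image Prod.snd, card_image_le.trans hcard,
    card_image_le.trans hcard, ?_, ?_⟩
  · intro z hz
    rw [mem_image] at hz
    obtain ⟨p, hp, rfl⟩ := hz
    exact (hP1 p hp).2
  · intro x z hz hxz
    by_contra hcon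
    rw [not_or, mem_image, mem_image] at hcon
    obtain ⟨c1, c2⟩ := hcon
    push Not at c1 c2
    have hn : (x, z) ∉ P := fun hp => c1 _ hp rfl
    have h1 := hmax (insert (x, z) P) (by
      rw [mem_filter]
      refine ⟨mem_univ _, ?_, ?_, ?_⟩
      · intro p hp
        rcases mem_insert.1 hp with rfl | hp
        · exact ⟨hxz, hz⟩
        · exact hP1 p hp
      · intro p hp q hq hpq
        rcases mem_insert.1 hp with rfl | hp
        · rcases mem_insert.1 hq with rfl | hq
          · rfl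
          · exact absurd hpq.symm (c1 q hq)
        · rcases mem_insert.1 hq with rfl | hq
          · exact absurd hpq (c1 p hp)
          · exact hP2 p hp q hq hpq
      · intro p hp q hq hpq
        rcases mem_insert.1 hp with rfl | hp
        · rcases mem_insert.1 hq with rfl | hq
          · rfl
          · exact absurd hpq.symm (c2 q hq)
        · rcases mem_insert.1 hq with rfl | hq
          · exact absurd hpq (c2 p hp)
          · exact hP3 p hp q hq hpq)
    rw [card_insert_of_notMem hn] at h1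
    omega

/-- an even number of rows -/
theorem even_bound (M : Matrix X Y ℝ) (t r j : ℕ) (hr : M.rank ≤ r) (hr1 : 1 ≤ r)
    (h : Share M (2 + 2 * j) t univ) :
    ((nzs M univ).card : ℝ) ≤ Fintype.card Y * (Tn t r j + (2 + 2 * j)) +
      (Fintype.card Y + Tn t r (j + 1) * √(Tn t r j * Fintype.card Y)) +
      (Tn t r (j + 1) + Fintype.card X * √(Tn t r j * Tn t r (j + 1))) := by
  classical
  obtain ⟨Z, h1, h2⟩ := share_iter M t r hr hr1 j 2 h
  obtain ⟨A, B, hA, hB, hBZ, hcov⟩ := exists_cover M (Tn t r j) r hr Z h2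
  have hm : (Tn t r j + 1) * r = Tn t r (j + 1) := rfl
  rw [hm] at hA hB
  have hsub : nzs M Z ⊆ ((nzs M Z).filter fun p => p.1 ∈ A) ∪
      ((nzs M Z).filter fun p => p.2 ∈ B) := by
    intro p hp
    have hp' := mem_nzs.1 hp
    rw [mem_union, mem_filter, mem_filter]
    rcases hcov p.1 p.2 hp'.2 hp'.1 with h | h
    · exact Or.inl ⟨hp, h⟩
    · exact Or.inr ⟨hp, h⟩
  have hpair : ∀ x x' : X, x ≠ x' → ∀ S : Finset Y, S ⊆ Z → (∀ z ∈ S, M x z ≠ 0 ∧ M x' z ≠ 0) →
      S.card ≤ Tn t r j := by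
    intro x x' hx S hS hSz
    refine h2 {x, x'} (card_pair hx) S hS fun z hz w hw => ?_
    rw [mem_insert, mem_singleton] at hw
    rcases hw with rfl | rfl
    · exact (hSz z hz).1
    · exact (hSz z hz).2
  have c1 : ((((nzs M Z).filter fun p => p.1 ∈ A).card : ℕ) : ℝ) ≤
      Fintype.card Y + Tn t r (j + 1) * √(Tn t r j * Fintype.card Y) := by
    have e1 := cols_bound (fun x z => M x z ≠ 0) A Z (Tn t r j)
      (fun x _ x' _ hx S hS hSz => hpair x x' hx S hS hSz) ((nzs M Z).filter fun p => p.1 ∈ A)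
      (fun p hp => by
        rw [mem_filter, mem_nzs] at hp
        exact ⟨hp.2, hp.1.2, hp.1.1⟩)
    refine e1.trans ?_
    have e2 : (Z.card : ℝ) ≤ Fintype.card Y := by exact_mod_cast card_le_univ Z
    have e3 : (A.card : ℝ) ≤ Tn t r (j + 1) := by exact_mod_cast hA
    have e4 : √((Tn t r j : ℝ) * Z.card) ≤ √(Tn t r j * Fintype.card Y) :=
      Real.sqrt_le_sqrt (mul_le_mul_of_nonneg_left e2 (Nat.cast_nonneg _))
    have e5 := mul_le_mul e3 e4 (Real.sqrt_nonneg _) (Nat.cast_nonneg _)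
    linarith
  have c2 : ((((nzs M Z).filter fun p => p.2 ∈ B).card : ℕ) : ℝ) ≤
      Tn t r (j + 1) + Fintype.card X * √(Tn t r j * Tn t r (j + 1)) := by
    have e1 := cols_bound (fun x z => M x z ≠ 0) (univ : Finset X) B (Tn t r j)
      (fun x _ x' _ hx S hS hSz => hpair x x' hx S (hS.trans hBZ) hSz)
      ((nzs M Z).filter fun p => p.2 ∈ B)
      (fun p hp => by
        rw [mem_filter, mem_nzs] at hp
        exact ⟨mem_univ _, hp.2, hp.1.1⟩)
    refine e1.trans ?_
    rw [card_univ]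
    have e2 : (B.card : ℝ) ≤ Tn t r (j + 1) := by exact_mod_cast hB
    have e4 : √((Tn t r j : ℝ) * B.card) ≤ √(Tn t r j * Tn t r (j + 1)) :=
      Real.sqrt_le_sqrt (mul_le_mul_of_nonneg_left e2 (Nat.cast_nonneg _))
    have e5 := mul_le_mul_of_nonneg_left e4 (Nat.cast_nonneg (α := ℝ) (Fintype.card X))
    linarith
  have h3 : ((nzs M univ).card : ℝ) ≤ Fintype.card Y * (Tn t r j + (2 + 2 * j)) +
      (nzs M Z).card := by
    exact_mod_cast nzs_split M Z _ h1
  have h4 : ((nzs M Z).card : ℝ) ≤ (((nzs M Z).filter fun p => p.1 ∈ A).card : ℕ) +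
      (((nzs M Z).filter fun p => p.2 ∈ B).card : ℕ) := by
    exact_mod_cast (card_le_card hsub).trans (card_union_le _ _)
  linarith

end Pool.Agent.X246.MRK
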