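import Pool.Agent.X246.MRK.Scale
import Pool.Agent.X246.RSH.Core
import Pool.Agent.X82.CWGirth

/-!
# Matchings, vertex covers and the rank of the matrices with the pattern of a graph
-/

set_option autoImplicit false

namespace Pool.Agent.X246.MRK

open Finset SimpleGraph Pool.Agent.X82.CW

variable {V : Type} [Fintype V] [DecidableEq V]

/-- a maximal matching, given by the set of its vertices and the partner function -/
theorem exists_matched (G : SimpleGraph V) : ∃ (X : Finset V) (f : V → V),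
    (∀ x ∈ X, f x ∈ X ∧ f (f x) = x ∧ G.Adj x (f x)) ∧ ∀ x y, G.Adj x y → x ∈ X ∨ y ∈ X := by
  classical
  obtain ⟨X, hX, hmax⟩ := exists_max_image
    (univ.filter fun X : Finset V => ∃ f : V → V, ∀ x ∈ X, f x ∈ X ∧ f (f x) = x ∧ G.Adj x (f x))
    card ⟨∅, by
      rw [mem_filter]
      exact ⟨mem_univ _, id, by simp⟩⟩
  rw [mem_filter] at hX
  obtain ⟨-, f, hf⟩ := hX
  refine ⟨X, f, hf, fun x y hxy => ?_⟩
  by_contra hcon
  push Not at hcon
  obtain ⟨hx, hy⟩ := hcon
  have hne := G.ne_of_adj hxy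
  have h1 := hmax (insert x (insert y X)) (by
    rw [mem_filter]
    refine ⟨mem_univ _, fun z => if z = x then y else if z = y then x else f z, ?_⟩
    intro z hz
    rw [mem_insert, mem_insert] at hz
    rcases hz with rfl | rfl | hz
    · simp [hne.symm, hxy]
    · simp [hne.symm, hxy.symm]
    · have a1 : z ≠ x := fun h => hx (h ▸ hz)
      have a2 : z ≠ y := fun h => hy (h ▸ hz)
      have a3 : f z ≠ x := fun h => hx (h ▸ (hf z hz).1)
      have a4 : f z ≠ y := fun h => hy (h ▸ (hf z hz).1)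
      simp [a1, a2, a3, a4, (hf z hz).1, (hf z hz).2.1, (hf z hz).2.2])
  rw [card_insert_of_notMem (by simp [hne, hx]), card_insert_of_notMem hy] at h1
  omega

/-- the rows of a matrix with the pattern of `G` -/
theorem share_two (G : SimpleGraph V) (W : Matrix V V ℝ)
    (hW : ∀ i j, i ≠ j → (W i j ≠ 0 ↔ G.Adj i j)) (s : ℕ)
    (hs : ∀ x y, x ≠ y → ∀ S : Finset V, (∀ z ∈ S, G.Adj x z ∧ G.Adj y z) → S.card ≤ s)
    (x x' : V) (hx : x ≠ x') : (univ.filter fun y => W x y ≠ 0 ∧ W x' y ≠ 0).card ≤ s + 2 := by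
  classical
  have h1 : (univ.filter fun y => W x y ≠ 0 ∧ W x' y ≠ 0) ⊆
      (univ.filter fun z => G.Adj x z ∧ G.Adj x' z) ∪ {x, x'} := by
    intro y hy
    rw [mem_filter] at hy
    rw [mem_union, mem_filter, mem_insert, mem_singleton]
    by_cases h2 : y = x
    · exact Or.inr (Or.inl h2)
    by_cases h3 : y = x'
    · exact Or.inr (Or.inr h3)
    exact Or.inl ⟨mem_univ _, (hW x y (Ne.symm h2)).1 hy.2.1, (hW x' y (Ne.symm h3)).1 hy.2.2⟩
  have h2 := (card_le_card h1).trans (card_union_le _ _)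
  have h3 := hs x x' hx (univ.filter fun z => G.Adj x z ∧ G.Adj x' z) (by
    intro z hz
    rw [mem_filter] at hz
    exact hz.2)
  have h4 : ({x, x'} : Finset V).card = 2 := card_pair hx
  omega

theorem share_zero (G : SimpleGraph V) (W : Matrix V V ℝ)
    (hW : ∀ i j, i ≠ j → (W i j ≠ 0 ↔ G.Adj i j)) (h0 : ∀ i, W i i = 0) (s : ℕ)
    (hs : ∀ x y, x ≠ y → ∀ S : Finset V, (∀ z ∈ S, G.Adj x z ∧ G.Adj y z) → S.card ≤ s)
    (x x' : V) (hx : x ≠ x') : (univ.filter fun y => W x y ≠ 0 ∧ W x' y ≠ 0).card ≤ s := by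
  refine hs x x' hx _ fun y hy => ?_
  rw [mem_filter] at hy
  refine ⟨(hW x y ?_).1 hy.2.1, (hW x' y ?_).1 hy.2.2⟩
  · rintro rfl
    exact hy.2.1 (h0 _)
  · rintro rfl
    exact hy.2.2 (h0 _)

/-- the bound for a partner function -/
theorem partner_bound (G : SimpleGraph V) (W : Matrix V V ℝ)
    (hW : ∀ i j, i ≠ j → (W i j ≠ 0 ↔ G.Adj i j)) (t : ℕ)
    (ht : ∀ x x', x ≠ x' → (univ.filter fun y => W x y ≠ 0 ∧ W x' y ≠ 0).card ≤ t)
    (X : Finset V) (f : V → V) (hf : ∀ x ∈ X, f x ∈ X ∧ f (f x) = x ∧ G.Adj x (f x)) :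
    X.card ≤ (t + 1) * W.rank := by
  have h1 := term_bound (I := {x // x ∈ X}) W t ht (fun x => x.1) (fun x => f x.1)
    Subtype.val_injective (fun x y hxy => Subtype.ext (by
      have := congrArg f hxy
      simp only at this
      rw [(hf x.1 x.2).2.1, (hf y.1 y.2).2.1] at this
      exact this))
    (fun x => (hW _ _ (G.ne_of_adj (hf x.1 x.2).2.2)).2 (hf x.1 x.2).2.2)
  rwa [Fintype.card_coe] at h1

/-- the bound for a matching -/
theorem matching_bound (G : SimpleGraph V) (W : Matrix V V ℝ)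
    (hW : ∀ i j, i ≠ j → (W i j ≠ 0 ↔ G.Adj i j)) (t : ℕ)
    (ht : ∀ x x', x ≠ x' → (univ.filter fun y => W x y ≠ 0 ∧ W x' y ≠ 0).card ≤ t)
    (M : G.Subgraph) (hM : M.IsMatching) : M.verts.ncard ≤ (t + 1) * W.rank := by
  classical
  choose g hg hg' using fun v : M.verts => hM v.2
  have h1 := term_bound (I := M.verts) W t ht (fun x => x.1) g
    Subtype.val_injective (fun x y hxy => Subtype.ext (by
      have a1 : M.Adj (g x) x.1 := (hg x).symm
      have a2 : M.Adj (g x) y.1 := by
        rw [hxy]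
        exact (hg y).symm
      exact (hM (M.edge_vert a1)).unique a1 a2))
    (fun x => (hW _ _ (G.ne_of_adj (hg x).adj_sub)).2 (hg x).adj_sub)
  rw [← Nat.card_eq_fintype_card, Nat.card_coe_set_eq] at h1
  exact h1

/-- a vertex cover with few vertices -/
theorem cover_bound (G : SimpleGraph V) (W : Matrix V V ℝ)
    (hW : ∀ i j, i ≠ j → (W i j ≠ 0 ↔ G.Adj i j)) (t : ℕ)
    (ht : ∀ x x', x ≠ x' → (univ.filter fun y => W x y ≠ 0 ∧ W x' y ≠ 0).card ≤ t) :
    ∃ X : Finset V, X.card ≤ (t + 1) * W.rank ∧ ∀ x y, G.Adj x y → x ∈ X ∨ y ∈ X := by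
  obtain ⟨X, f, hf, hX⟩ := exists_matched G
  exact ⟨X, partner_bound G W hW t ht X f hf, hX⟩

/-- the rank of the adjacency matrix of a graph with a small vertex cover -/
theorem rank_le_cover (G : SimpleGraph V) [DecidableRel G.Adj] (X : Finset V)
    (hX : ∀ x y, G.Adj x y → x ∈ X ∨ y ∈ X) : (G.adjMatrix ℝ).rank ≤ 2 * X.card := by
  classical
  let A : Matrix V X ℝ := fun v x => if v = x.1 then 1 else 0
  let B : Matrix X V ℝ := fun x v => if G.Adj x.1 v then 1 else 0
  let C : Matrix V X ℝ := fun v x => if v ∉ X ∧ G.Adj v x.1 then 1 else 0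
  have h1 : G.adjMatrix ℝ = A * B + C * A.transpose := by
    ext u v
    rw [Matrix.add_apply, Matrix.mul_apply, Matrix.mul_apply, adjMatrix_apply]
    have e1 : (∑ x : X, A u x * B x v) = if u ∈ X ∧ G.Adj u v then 1 else 0 := by
      by_cases hu : u ∈ X
      · rw [Finset.sum_eq_single ⟨u, hu⟩]
        · simp [A, B, hu]
        · intro x _ hx
          have : u ≠ x.1 := fun h => hx (Subtype.ext h.symm)
          simp [A, this]
        · simp
      · rw [Finset.sum_eq_zero]
        · simp [hu]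
        · intro x _
          have : u ≠ x.1 := fun h => hu (h ▸ x.2)
          simp [A, this]
    have e2 : (∑ x : X, C u x * A.transpose x v) = if u ∉ X ∧ v ∈ X ∧ G.Adj u v then 1 else 0 := by
      by_cases hv : v ∈ X
      · rw [Finset.sum_eq_single ⟨v, hv⟩]
        · simp [A, C, hv, Matrix.transpose_apply]
        · intro x _ hx
          have : v ≠ x.1 := fun h => hx (Subtype.ext h.symm)
          simp [A, this, Matrix.transpose_apply]
        · simp
      · rw [Finset.sum_eq_zero]
        · simp [hv]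
        · intro x _
          have : v ≠ x.1 := fun h => hv (h ▸ x.2)
          simp [A, this, Matrix.transpose_apply]
    rw [e1, e2]
    by_cases huv : G.Adj u v
    · rcases hX u v huv with hu | hv
      · simp [huv, hu]
      · by_cases hu : u ∈ X
        · simp [huv, hu]
        · simp [huv, hu, hv]
    · simp [huv]
  rw [h1]
  have h2 : (A * B).rank ≤ X.card := by
    refine (Matrix.rank_mul_le_left _ _).trans ((Matrix.rank_le_card_width _).trans ?_)
    rw [Fintype.card_coe]
  have h3 : (C * A.transpose).rank ≤ X.card := by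
    refine (Matrix.rank_mul_le_left _ _).trans ((Matrix.rank_le_card_width _).trans ?_)
    rw [Fintype.card_coe]
  have h4 := Pool.Agent.X246.RSH.rank_add_le (A * B) (C * A.transpose)
  omega

end Pool.Agent.X246.MRK
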