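import Pool.Agent.X246.MRK.ForestPlus

/-!
# Even cycles
-/

set_option autoImplicit false

namespace Pool.Agent.X246.MRK

open Finset SimpleGraph

/-- The path graph has no cycle. -/
theorem path_acyclic (n : ℕ) : (pathGraph n).IsAcyclic := by
  rw [isAcyclic_iff_forall_adj_isBridge]
  have main : ∀ ⦃v w : Fin n⦄, v.val + 1 = w.val → (pathGraph n).IsBridge s(v, w) := by
    intro v w hvw
    rw [isBridge_iff]
    rintro ⟨p⟩
    have inv : ∀ {x y : Fin n} (q : ((pathGraph n).deleteEdges {s(v, w)}).Walk x y),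
        x.val ≤ v.val → y.val ≤ v.val := by
      intro x y q
      induction q with
      | nil => exact id
      | @cons a b c h q ih =>
        intro ha
        apply ih
        rw [deleteEdges_adj, pathGraph_adj] at h
        obtain ⟨h1, h2⟩ := h
        rcases h1 with h1 | h1
        · by_contra hlt
          apply h2
          have e1 : a = v := Fin.ext (by omega)
          have e2 : b = w := Fin.ext (by omega)
          rw [e1, e2]
          exact Set.mem_singleton _
        · omega
    have := inv p le_rfl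
    omega
  intro v w hvw
  rw [pathGraph_adj] at hvw
  rcases hvw with h | h
  · exact main h
  · rw [Sym2.eq_swap]
    exact main h

theorem cyc_val {n : ℕ} {u v : Fin n} (h : (cycleGraph n).Adj u v) :
    u.val = v.val + 1 ∨ v.val = u.val + 1 ∨ (u.val = 0 ∧ v.val + 1 = n) ∨
      (v.val = 0 ∧ u.val + 1 = n) := by
  rw [cycleGraph_adj', Fin.sub_def, Fin.sub_def] at h
  have hu := u.isLt
  have hv := v.isLt
  simp only at h
  rcases h with h | h
  · rcases Nat.lt_or_ge u.val v.val with h1 | h1
    · rw [Nat.mod_eq_of_lt (by omega)] at h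
      omega
    · rw [show n - v.val + u.val = (u.val - v.val) + n by omega, Nat.add_mod_right,
        Nat.mod_eq_of_lt (by omega)] at h
      omega
  · rcases Nat.lt_or_ge v.val u.val with h1 | h1
    · rw [Nat.mod_eq_of_lt (by omega)] at h
      omega
    · rw [show n - u.val + v.val = (v.val - u.val) + n by omega, Nat.add_mod_right,
        Nat.mod_eq_of_lt (by omega)] at h
      omega

theorem cyc_acyclic {n : ℕ} (o : Fin n) (ho : o.val = 0) :
    ((cycleGraph n).induce ({o}ᶜ : Set (Fin n))).IsAcyclic := by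
  refine (path_acyclic n).comap ⟨fun u => u.1, ?_⟩ Subtype.val_injective
  intro u v huv
  have h1 : (cycleGraph n).Adj u.1 v.1 := huv
  have hu : u.1.val ≠ 0 := fun h => u.2 (by
    rw [Set.mem_singleton_iff]
    exact Fin.ext (h.trans ho.symm))
  have hv : v.1.val ≠ 0 := fun h => v.2 (by
    rw [Set.mem_singleton_iff]
    exact Fin.ext (h.trans ho.symm))
  rw [pathGraph_adj]
  rcases cyc_val h1 with h | h | h | h
  · exact Or.inr h.symm
  · exact Or.inl h.symm
  · exact absurd h.1 hu
  · exact absurd h.1 hv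

theorem cyc_bipartite (k : ℕ) : (cycleGraph (2 * k)).IsBipartite := by
  refine ⟨Coloring.mk (fun u => (⟨u.val % 2, Nat.mod_lt _ (by norm_num)⟩ : Fin 2)) ?_⟩
  intro u v huv h
  have h1 : u.val % 2 = v.val % 2 := congrArg Fin.val h
  rcases cyc_val huv with h | h | h | h <;> omega

/-- The theorem of Bondy and Simonovits. -/
theorem bondy_simonovits {k : ℕ} (hk : 2 ≤ k) {m : ℕ} (hm : 1 ≤ m) (G : SimpleGraph (Fin m))
    (hG : (cycleGraph (2 * k)).Free G) :
    (Nat.card G.edgeSet : ℝ) ≤ (k * (2 * k - 3)) * (m : ℝ) ^ (1 + 1 / (k : ℝ)) := by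
  classical
  have h1 := Pool.Agent.X73.RK.rank_even G hk hG
  have hk0 : (0 : ℝ) < k := by exact_mod_cast (by omega : 0 < k)
  have hk' : (2 : ℝ) ≤ k := by exact_mod_cast hk
  have hK : (0 : ℝ) < k * (2 * k - 3) := mul_pos hk0 (by linarith)
  have hm0 : (0 : ℝ) < m := by exact_mod_cast hm
  rw [Fintype.card_fin] at h1
  have h2 : ((G.adjMatrix ℝ).rank : ℝ) ≤ m := by
    have := Matrix.rank_le_card_width (G.adjMatrix ℝ)
    rw [Fintype.card_fin] at this
    exact_mod_cast this
  have h3 := Real.rpow_le_rpow (by positivity) (h1.trans h2) (by positivity : (0 : ℝ) ≤ 1 / k)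
  rw [← Real.rpow_natCast, ← Real.rpow_mul (by positivity), mul_one_div_cancel hk0.ne',
    Real.rpow_one, div_le_iff₀ (by positivity)] at h3
  rw [Real.rpow_add hm0, Real.rpow_one, Nat.card_eq_fintype_card, ← edgeFinset_card]
  calc (G.edgeFinset.card : ℝ) ≤ (m : ℝ) ^ (1 / (k : ℝ)) * (k * (2 * k - 3) * m) := h3
    _ = _ := by ring

end Pool.Agent.X246.MRK
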