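import Pool.Agent.X246.MRK.Subdiv

/-!
# The girth conjecture and sparse graphs of small rank
-/

set_option autoImplicit false

namespace Pool.Agent.X246.MRK

open Finset SimpleGraph Filter Pool.Agent.X82.CW

/-- `G` has girth greater than `k` and some real matrix with the off-diagonal pattern of `G` has
rank at most `r`. -/
def RankGirth {n : ℕ} (k : ℕ) (r : ℕ) (G : SimpleGraph (Fin n)) : Prop :=
  (k : ℕ∞) < G.egirth ∧ ∃ W : Matrix (Fin n) (Fin n) ℝ,
    (∀ i j, i ≠ j → (W i j ≠ 0 ↔ G.Adj i j)) ∧ W.rank ≤ r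

/-- upper bound -/
theorem rank_excess {n k r : ℕ} (hk : 2 ≤ k) (G : SimpleGraph (Fin n))
    (hG : RankGirth (4 * k) r G) : Nat.card G.edgeSet ≤ n + 3 * gam (3 * r) (2 * k) := by
  obtain ⟨hG, W, hW, hr⟩ := hG
  have h4 : (4 : ℕ∞) < G.egirth := lt_of_le_of_lt (by exact_mod_cast (by omega : 4 ≤ 4 * k)) hG
  obtain ⟨X, hX1, hX2⟩ := cover_bound G W hW 2 (share_girth h4 W hW)
  have h1 := excess hk G hG X hX2
  have hg := good_girth (k := 2 * k) (by omega)
  have h2 : gam X.card (2 * k) ≤ gam (3 * r) (2 * k) := hg.ex_mono (by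
    calc X.card ≤ (2 + 1) * W.rank := hX1
      _ ≤ (2 + 1) * r := Nat.mul_le_mul_left _ hr
      _ = 3 * r := by ring)
  omega

/-- lower bound -/
theorem rank_lower {a n k r : ℕ} (ha : 1 ≤ a) (har : 2 * a ≤ r) (H : SimpleGraph (Fin a))
    (hH : ((2 * k : ℕ) : ℕ∞) < H.egirth) (hn : a + Nat.card H.edgeSet ≤ n) :
    ∃ G : SimpleGraph (Fin n), RankGirth (4 * k) r G ∧
      n + Nat.card H.edgeSet ≤ Nat.card G.edgeSet + a := by
  classical
  obtain ⟨G, h1, ⟨X, hX1, hX2⟩, h2⟩ := sub_exists ha H hH hn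
  refine ⟨G, ⟨h1, G.adjMatrix ℝ, ?_, ?_⟩, h2⟩
  · intro i j _
    simp [adjMatrix_apply]
  · have := rank_le_cover G X hX2
    omega

/-- removing edges -/
theorem exists_sub_edges {n : ℕ} (G : SimpleGraph (Fin n)) (e : ℕ) (he : e ≤ Nat.card G.edgeSet) :
    ∃ G' : SimpleGraph (Fin n), G' ≤ G ∧ Nat.card G'.edgeSet = e := by
  classical
  rw [Nat.card_eq_fintype_card, ← edgeFinset_card] at he
  obtain ⟨E, hE, hc⟩ := exists_subset_card_eq he
  refine ⟨fromEdgeSet (E : Set (Sym2 (Fin n))), ?_, ?_⟩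
  · intro x y hxy
    rw [fromEdgeSet_adj] at hxy
    have := hE (mem_coe.1 hxy.1)
    rw [mem_edgeFinset] at this
    exact this
  · have h1 : (fromEdgeSet (E : Set (Sym2 (Fin n)))).edgeSet = (E : Set (Sym2 (Fin n))) := by
      rw [edgeSet_fromEdgeSet]
      ext ε
      constructor
      · exact fun h => h.1
      · intro h
        refine ⟨h, fun hd => ?_⟩
        have := hE (mem_coe.1 h)
        rw [mem_edgeFinset] at this
        exact G.not_isDiag_of_mem_edgeSet this (by simpa using hd)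
    rw [h1]
    simpa using hc

theorem equiv_girth {k : ℕ} (hk : 2 ≤ k) {δ : ℝ} (h0 : 0 < δ) (h1 : δ < 1) :
    (∃ c : ℝ, 0 < c ∧ ∀ᶠ n : ℕ in atTop, c * (n : ℝ) ^ (1 + 1 / (k : ℝ)) ≤ gam n (2 * k)) ↔
    (∃ C : ℝ, ∀ᶠ n : ℕ in atTop, ∃ (G : SimpleGraph (Fin n)) (r : ℕ), RankGirth (4 * k) r G ∧
      (r : ℝ) ≤ C * (n : ℝ) ^ ((k : ℝ) / (k + 1)) ∧ (1 + δ) * n ≤ Nat.card G.edgeSet) := by
  have hk0 : (0 : ℝ) < k := by exact_mod_cast (by omega : 0 < k)
  have hkk : (k : ℝ) / (k + 1) * (1 + 1 / (k : ℝ)) = 1 := by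
    field_simp
  have hkk' : (1 + 1 / (k : ℝ)) * ((k : ℝ) / (k + 1)) = 1 := by
    rw [mul_comm]
    exact hkk
  have hlt : (k : ℝ) / (k + 1) < 1 := by
    rw [div_lt_one (by linarith)]
    linarith
  have hpos : (0 : ℝ) < (k : ℝ) / (k + 1) := by positivity
  constructor
  · rintro ⟨c, hc, hev⟩
    obtain ⟨N0, hN0⟩ := eventually_atTop.1 hev
    -- the size of the cover
    set D : ℝ := (1 / c) ^ ((k : ℝ) / (k + 1)) with hD
    have hD0 : 0 < D := by positivity
    refine ⟨2 * (D + 1), ?_⟩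
    have ht : Tendsto (fun n : ℕ => (n : ℝ) ^ ((k : ℝ) / (k + 1))) atTop atTop :=
      (tendsto_rpow_atTop hpos).comp tendsto_natCast_atTop_atTop
    have ht2 : Tendsto (fun n : ℕ => (n : ℝ) ^ (1 - (k : ℝ) / (k + 1))) atTop atTop :=
      (tendsto_rpow_atTop (by linarith)).comp tendsto_natCast_atTop_atTop
    filter_upwards [ht.eventually_ge_atTop (N0 / D + 1), ht.eventually_ge_atTop 1,
      ht2.eventually_ge_atTop (2 * (D + 1) / (1 - δ)), eventually_ge_atTop 1] with n hn1 hn2 hn3 hn4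
    have hn0 : (0 : ℝ) < n := by exact_mod_cast hn4
    set Y : ℝ := (n : ℝ) ^ ((k : ℝ) / (k + 1)) with hY
    set a : ℕ := ⌈D * Y⌉₊ with ha
    have ha1 : D * Y ≤ a := Nat.le_ceil _
    have ha2 : (a : ℝ) < D * Y + 1 := Nat.ceil_lt_add_one (by positivity)
    have ha3 : (a : ℝ) ≤ (D + 1) * Y := by nlinarith
    have haN : N0 ≤ a := by
      have : (N0 : ℝ) ≤ a := by
        refine le_trans ?_ ha1
        have : N0 / D ≤ Y := by linarith
        rw [div_le_iff₀ hD0] at this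
        linarith
      exact_mod_cast this
    have ha0 : 1 ≤ a := by
      have : 0 < (a : ℝ) := lt_of_lt_of_le (by positivity) ha1
      exact_mod_cast this
    have h5 := hN0 a haN
    have h6 : (n : ℝ) ≤ c * (a : ℝ) ^ (1 + 1 / (k : ℝ)) := by
      have h7 : (D * Y) ^ (1 + 1 / (k : ℝ)) ≤ (a : ℝ) ^ (1 + 1 / (k : ℝ)) :=
        Real.rpow_le_rpow (by positivity) ha1 (by positivity)
      have h8 : (D * Y) ^ (1 + 1 / (k : ℝ)) = 1 / c * n := by
        rw [Real.mul_rpow hD0.le (by positivity), hD, hY, ← Real.rpow_mul (by positivity),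
          ← Real.rpow_mul hn0.le, hkk, Real.rpow_one, Real.rpow_one]
      rw [h8] at h7
      calc (n : ℝ) = c * (1 / c * n) := by field_simp
        _ ≤ _ := mul_le_mul_of_nonneg_left h7 hc.le
    have h7 : n ≤ gam a (2 * k) := by
      have : (n : ℝ) ≤ gam a (2 * k) := h6.trans h5
      exact_mod_cast this
    -- two times the cover is small
    have h8 : 2 * (a : ℝ) ≤ (1 - δ) * n := by
      have e1 : (n : ℝ) = Y * (n : ℝ) ^ (1 - (k : ℝ) / (k + 1)) := by
        rw [hY, ← Real.rpow_add hn0]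
        rw [add_sub_cancel, Real.rpow_one]
      have e2 : 2 * (D + 1) ≤ (1 - δ) * (n : ℝ) ^ (1 - (k : ℝ) / (k + 1)) := by
        have := (div_le_iff₀ (by linarith : (0 : ℝ) < 1 - δ)).1 hn3
        linarith
      have hY0 : 0 < Y := by positivity
      calc 2 * (a : ℝ) ≤ 2 * (D + 1) * Y := by linarith
        _ ≤ (1 - δ) * (n : ℝ) ^ (1 - (k : ℝ) / (k + 1)) * Y := mul_le_mul_of_nonneg_right e2 hY0.le
        _ = (1 - δ) * (Y * (n : ℝ) ^ (1 - (k : ℝ) / (k + 1))) := by ring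
        _ = (1 - δ) * n := by rw [← e1]
    have han : a ≤ n := by
      have : (a : ℝ) ≤ n := by nlinarith
      exact_mod_cast this
    obtain ⟨H, hH, he⟩ := exOf_attained (fun (n : ℕ) (G : SimpleGraph (Fin n)) =>
      ((2 * k : ℕ) : ℕ∞) < G.egirth) (n := a) ⟨⊥, by
        rw [egirth_bot]
        exact WithTop.coe_lt_top _⟩
    have he' : Nat.card H.edgeSet = gam a (2 * k) := he
    obtain ⟨H', hH', he2⟩ := exists_sub_edges H (n - a) (by omega)
    obtain ⟨G, hG1, hG2⟩ := rank_lower (r := 2 * a) ha0 le_rfl H'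
      (lt_of_lt_of_le hH (egirth_anti hH')) (n := n) (by omega)
    refine ⟨G, 2 * a, hG1, ?_, ?_⟩
    · push_cast
      linarith
    · have h9 : 2 * n ≤ Nat.card G.edgeSet + 2 * a := by omega
      have h9' : 2 * (n : ℝ) ≤ Nat.card G.edgeSet + 2 * a := by exact_mod_cast h9
      linarith
  · rintro ⟨C0, hev⟩
    set C : ℝ := max C0 1 with hC
    have hC1 : 1 ≤ C := le_max_right _ _
    have hCC : C0 ≤ C := le_max_left _ _
    -- the number of vertices
    set B : ℝ := (1 / (3 * C)) ^ (1 + 1 / (k : ℝ)) with hB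
    have hB0 : 0 < B := by positivity
    refine ⟨δ * B / 6, by positivity, ?_⟩
    have hp : (0 : ℝ) < 1 + 1 / (k : ℝ) := by positivity
    have ht : Tendsto (fun N : ℕ => B * (N : ℝ) ^ (1 + 1 / (k : ℝ))) atTop atTop :=
      ((tendsto_rpow_atTop hp).comp tendsto_natCast_atTop_atTop).const_mul_atTop hB0
    have ht2 : Tendsto (fun N : ℕ => ⌊B * (N : ℝ) ^ (1 + 1 / (k : ℝ))⌋₊) atTop atTop :=
      tendsto_nat_floor_atTop.comp ht
    filter_upwards [ht2.eventually hev, ht.eventually_ge_atTop 2, eventually_ge_atTop 1]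
      with N hN hN2 hN1
    generalize hn : ⌊B * (N : ℝ) ^ (1 + 1 / (k : ℝ))⌋₊ = n at hN
    obtain ⟨G, r, hG, hr, he⟩ := hN
    have hn1 : (n : ℝ) ≤ B * (N : ℝ) ^ (1 + 1 / (k : ℝ)) := by
      rw [← hn]
      exact Nat.floor_le (by positivity)
    have hn2 : B * (N : ℝ) ^ (1 + 1 / (k : ℝ)) < n + 1 := by
      rw [← hn]
      exact Nat.lt_floor_add_one _
    have hN0 : (0 : ℝ) ≤ N := Nat.cast_nonneg _
    have h3 : (3 * r : ℝ) ≤ N := by
      have e1 : (n : ℝ) ^ ((k : ℝ) / (k + 1)) ≤ 1 / (3 * C) * N := by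
        calc (n : ℝ) ^ ((k : ℝ) / (k + 1))
            ≤ (B * (N : ℝ) ^ (1 + 1 / (k : ℝ))) ^ ((k : ℝ) / (k + 1)) :=
              Real.rpow_le_rpow (Nat.cast_nonneg _) hn1 hpos.le
          _ = 1 / (3 * C) * N := by
              rw [Real.mul_rpow hB0.le (by positivity), hB, ← Real.rpow_mul (by positivity),
                ← Real.rpow_mul hN0, hkk', Real.rpow_one, Real.rpow_one]
      have e2 : (0 : ℝ) ≤ (n : ℝ) ^ ((k : ℝ) / (k + 1)) := by positivity
      calc (3 * r : ℝ) ≤ 3 * (C0 * (n : ℝ) ^ ((k : ℝ) / (k + 1))) := by linarith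
        _ ≤ 3 * (C * (n : ℝ) ^ ((k : ℝ) / (k + 1))) := by
            have := mul_le_mul_of_nonneg_right hCC e2
            linarith
        _ ≤ 3 * (C * (1 / (3 * C) * N)) := by
            have := mul_le_mul_of_nonneg_left e1 (by linarith : (0 : ℝ) ≤ C)
            linarith
        _ = N := by field_simp
    have h3' : 3 * r ≤ N := by exact_mod_cast h3
    have h4 := rank_excess hk G hG
    have hg := good_girth (k := 2 * k) (by omega)
    have h5 : gam (3 * r) (2 * k) ≤ gam N (2 * k) := hg.ex_mono h3'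
    have h6 : (Nat.card G.edgeSet : ℝ) ≤ n + 3 * gam N (2 * k) := by
      have : Nat.card G.edgeSet ≤ n + 3 * gam N (2 * k) := by omega
      exact_mod_cast this
    have h7 : δ * n ≤ 3 * gam N (2 * k) := by linarith
    have h8 : B * (N : ℝ) ^ (1 + 1 / (k : ℝ)) ≤ 2 * n := by linarith
    calc δ * B / 6 * (N : ℝ) ^ (1 + 1 / (k : ℝ)) = δ / 6 * (B * (N : ℝ) ^ (1 + 1 / (k : ℝ))) := by
          ring
      _ ≤ δ / 6 * (2 * n) := mul_le_mul_of_nonneg_left h8 (by positivity)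
      _ ≤ gam N (2 * k) := by linarith

end Pool.Agent.X246.MRK
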