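import Pool.Agent.X246.MRK.Scale

/-!
# The rank of a real matrix whose rows overlap in a controlled way
-/

set_option autoImplicit false

namespace Pool.Agent.X246.MRK

open Finset

variable {I : Type} [Fintype I]

/-- almost doubly stochastic scaling of the squares of the entries -/
theorem exists_scaled (N : Matrix I I ℝ) (hd : ∀ i, N i i ≠ 0) (ε : ℝ) (h0 : 0 < ε) (h1 : ε < 1) :
    ∃ B : Matrix I I ℝ, (∀ i j, N i j = 0 → B i j = 0) ∧ B.rank ≤ N.rank ∧
      (∀ i, 1 - ε ≤ (1 + ε) * ∑ j, B i j ^ 2) ∧ (∀ i, (1 - ε) * ∑ j, B i j ^ 2 ≤ 1 + ε) ∧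
      ∀ j, (1 - ε) * ∑ i, B i j ^ 2 ≤ 1 + ε := by
  classical
  set P : I → I → ℝ := fun i j => N i j ^ 2 with hPdef
  have hP : ∀ i j, 0 ≤ P i j := fun i j => sq_nonneg _
  have hPd : ∀ i, 0 < P i i := fun i => by
    have := hd i
    simp only [hPdef]
    positivity
  obtain ⟨u, v, huv⟩ := exists_near P hP hPd (ε ^ 2) (by positivity)
  have hrow := rowSum_near P hP u v ε h0 h1 (fun u' => huv u' v)
  have hcol := rowSum_near (fun i j => P j i) (fun i j => hP j i) v u ε h0 h1 (fun v' => by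
    have h := huv u v'
    rw [Phi_swap P u v, Phi_swap P u v'] at h
    exact h)
  set R : I → ℝ := rowSum P u v with hRdef
  set C : I → ℝ := rowSum (fun i j => P j i) v u with hCdef
  set a : I → ℝ := fun i => Real.exp (u i / 2) with hadef
  set b : I → ℝ := fun j => Real.exp (v j / 2) with hbdef
  have ha : ∀ i, a i ^ 2 = Real.exp (u i) := fun i => by
    simp only [hadef]
    rw [← Real.exp_nat_mul]
    congr 1
    push_cast
    ring
  have hb : ∀ i, b i ^ 2 = Real.exp (v i) := fun i => by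
    simp only [hbdef]
    rw [← Real.exp_nat_mul]
    congr 1
    push_cast
    ring
  let B : Matrix I I ℝ := Matrix.of fun i j => a i * N i j * b j
  have hBsq : ∀ i j, B i j ^ 2 = Real.exp (u i) * (P i j * Real.exp (v j)) := by
    intro i j
    have : B i j ^ 2 = a i ^ 2 * (N i j ^ 2 * b j ^ 2) := by
      simp only [B, Matrix.of_apply]
      ring
    rw [this, ha, hb]
  have hBrow : ∀ i, ∑ j, B i j ^ 2 = R i := by
    intro i
    simp only [hBsq, hRdef, rowSum, mul_sum]
  have hBcol : ∀ j, ∑ i, B i j ^ 2 = C j := by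
    intro j
    simp only [hBsq, hCdef, rowSum, mul_sum]
    refine sum_congr rfl fun i _ => ?_
    ring
  have hBrank : B.rank ≤ N.rank := by
    have : B = Matrix.diagonal a * N * Matrix.diagonal b := by
      ext i j
      simp [B, Matrix.mul_diagonal, Matrix.diagonal_mul]
    rw [this]
    exact (Matrix.rank_mul_le_left _ _).trans (Matrix.rank_mul_le_right _ _)
  refine ⟨B, ?_, hBrank, ?_, ?_, ?_⟩
  · intro i j hN
    simp [B, hN]
  · intro i
    rw [hBrow]
    exact (hrow i).1
  · intro i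
    rw [hBrow]
    exact (hrow i).2
  · intro j
    rw [hBcol]
    exact (hcol j).2

/-- the limit -/
theorem le_of_near (n K : ℕ)
    (h : ∀ ε : ℝ, 0 < ε → ε < 1 → (n : ℝ) * (1 - ε) ^ 4 ≤ K * (1 + ε) ^ 4) : n ≤ K := by
  by_contra hcon
  push Not at hcon
  have hn1 : 1 ≤ n := by omega
  have hn0 : (0 : ℝ) < n := by exact_mod_cast hn1
  have hc : (K : ℝ) ≤ n - 1 := by
    have h' : (K : ℝ) + 1 ≤ n := by exact_mod_cast hcon
    linarith
  set ε : ℝ := 1 / (32 * n) with hε
  have h0 : 0 < ε := by positivity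
  have hne : n * ε = 1 / 32 := by
    rw [hε]
    field_simp
  have h1n : (1 : ℝ) ≤ n := by exact_mod_cast hn1
  have h1 : ε < 1 := by nlinarith
  have h := h ε h0 h1
  have a1 : 1 - 4 * ε ≤ (1 - ε) ^ 4 := by
    have := one_add_mul_le_pow (show (-2 : ℝ) ≤ -ε by linarith) 4
    push_cast at this
    calc 1 - 4 * ε = 1 + 4 * -ε := by ring
      _ ≤ (1 + -ε) ^ 4 := this
      _ = (1 - ε) ^ 4 := by ring
  have a2 : (1 + ε) ^ 4 ≤ 1 + 15 * ε := by
    have e2 : ε ^ 2 ≤ ε := by nlinarith
    have e3 : ε ^ 3 ≤ ε := by nlinarith [sq_nonneg ε]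
    have e4 : ε ^ 4 ≤ ε := by nlinarith [sq_nonneg ε, pow_pos h0 3]
    nlinarith
  have b1 : (n : ℝ) * (1 - 4 * ε) ≤ (n - 1) * (1 + 15 * ε) := by
    calc (n : ℝ) * (1 - 4 * ε) ≤ n * (1 - ε) ^ 4 := mul_le_mul_of_nonneg_left a1 hn0.le
      _ ≤ K * (1 + ε) ^ 4 := h
      _ ≤ (n - 1) * (1 + ε) ^ 4 := mul_le_mul_of_nonneg_right hc (by positivity)
      _ ≤ (n - 1) * (1 + 15 * ε) := by
          refine mul_le_mul_of_nonneg_left a2 ?_
          linarith
  nlinarith

/-- **Flexible overlaps.** Let `N` be a real square matrix with nonzero diagonal such that for every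
row `i` the pairs `(l, j)`, where `j` is a nonzero column shared by the rows `i` and `l`, can be
assigned to `l` or to `j`, at most `T` pairs to each. Then the rank is at least `n / (4 T + 1)`. -/
theorem flex_bound (N : Matrix I I ℝ) (T : ℕ) (hd : ∀ i, N i i ≠ 0)
    (α : I → I → I → Prop)
    (hα : ∀ i l, l ≠ i → ∀ S : Finset I, (∀ j ∈ S, N i j ≠ 0 ∧ N l j ≠ 0 ∧ α i l j) → S.card ≤ T)
    (hα' : ∀ i j, ∀ S : Finset I, (∀ l ∈ S, l ≠ i ∧ N i j ≠ 0 ∧ N l j ≠ 0 ∧ ¬ α i l j) →
      S.card ≤ T) : Fintype.card I ≤ (4 * T + 1) * N.rank := by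
  classical
  refine le_of_near _ _ fun ε h0 h1 => ?_
  obtain ⟨B, hB0, hBr, hr1, hr2, hc2⟩ := exists_scaled N hd ε h0 h1
  have hε1 : 0 < 1 - ε := by linarith
  set ρ : ℝ := (1 + ε) / (1 - ε) with hρ
  have hρ0 : 0 < ρ := by positivity
  set R : I → ℝ := fun i => ∑ j, B i j ^ 2 with hR
  set C : I → ℝ := fun j => ∑ i, B i j ^ 2 with hC
  have hR0 : ∀ i, 0 ≤ R i := fun i => sum_nonneg fun j _ => sq_nonneg _
  have hC0 : ∀ i, 0 ≤ C i := fun i => sum_nonneg fun j _ => sq_nonneg _
  have hRρ : ∀ i, R i ≤ ρ := fun i => by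
    rw [hρ, le_div_iff₀ hε1]
    have := hr2 i
    simp only [hR]
    linarith
  have hCρ : ∀ i, C i ≤ ρ := fun i => by
    rw [hρ, le_div_iff₀ hε1]
    have := hc2 i
    simp only [hC]
    linarith
  have hTe : ∀ i l, (B * B.transpose) i l = ∑ j, B i j * B l j := by
    intro i l
    rw [Matrix.mul_apply]
    rfl
  have hT0 : (0 : ℝ) ≤ T := Nat.cast_nonneg _
  -- one row of the Gram matrix
  have hrow : ∀ i, ∑ l, (B * B.transpose) i l ^ 2 ≤ (4 * T + 1) * ρ ^ 2 := by
    intro i
    -- the pairs assigned to the rows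
    have hA : ∀ l, l ≠ i → (∑ j, if α i l j then B i j * B l j else 0) ^ 2 ≤
        T * ∑ j, B i j ^ 2 * B l j ^ 2 := by
      intro l hl
      set F := univ.filter fun j => N i j ≠ 0 ∧ N l j ≠ 0 ∧ α i l j with hF
      have e1 : (∑ j, if α i l j then B i j * B l j else 0) = ∑ j ∈ F, B i j * B l j := by
        rw [← sum_filter]
        refine (sum_subset ?_ fun j hj hjF => ?_).symm
        · intro j hj
          rw [hF, mem_filter] at hj
          exact mem_filter.2 ⟨mem_univ _, hj.2.2.2⟩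
        · rw [mem_filter] at hj
          by_cases g1 : N i j = 0
          · rw [hB0 i j g1, zero_mul]
          · by_cases g2 : N l j = 0
            · rw [hB0 l j g2, mul_zero]
            · exact absurd (mem_filter.2 ⟨mem_univ _, g1, g2, hj.2⟩) hjF
      have e2 : (∑ j ∈ F, B i j * B l j) ^ 2 ≤ F.card * ∑ j ∈ F, (B i j * B l j) ^ 2 :=
        sq_sum_le_card_mul_sum_sq
      have e3 : (∑ j ∈ F, (B i j * B l j) ^ 2) ≤ ∑ j, B i j ^ 2 * B l j ^ 2 := by
        refine (sum_le_sum_of_subset_of_nonneg (subset_univ F)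
          (fun j _ _ => sq_nonneg _)).trans (le_of_eq ?_)
        refine sum_congr rfl fun j _ => ?_
        ring
      have e4 : (F.card : ℝ) ≤ T := by
        have := hα i l hl F fun j hj => (mem_filter.1 hj).2
        exact_mod_cast this
      rw [e1]
      refine e2.trans ?_
      exact mul_le_mul e4 e3 (sum_nonneg fun j _ => sq_nonneg _) hT0
    -- the pairs assigned to the columns
    have hB : ∀ l, l ≠ i → (∑ j, if α i l j then 0 else B i j * B l j) ^ 2 ≤
        ρ * ∑ j, if N l j ≠ 0 ∧ ¬ α i l j then B i j ^ 2 else 0 := by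
      intro l hl
      have e1 : (∑ j, if α i l j then 0 else B i j * B l j) =
          ∑ j ∈ univ.filter (fun j => N l j ≠ 0 ∧ ¬ α i l j), B i j * B l j := by
        rw [sum_filter]
        refine sum_congr rfl fun j _ => ?_
        by_cases g1 : N l j = 0
        · simp [g1, hB0 l j g1]
        · by_cases g2 : α i l j <;> simp [g1, g2]
      rw [e1, ← sum_filter]
      refine (sum_mul_sq_le_sq_mul_sq _ _ _).trans ?_
      rw [mul_comm]
      refine mul_le_mul_of_nonneg_right ?_ (sum_nonneg fun j _ => sq_nonneg _)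
      exact (sum_le_sum_of_subset_of_nonneg (subset_univ _) (fun j _ _ => sq_nonneg _)).trans
        (hRρ l)
    have hsplit : ∀ l, l ≠ i → (B * B.transpose) i l ^ 2 ≤
        2 * (T * ∑ j, B i j ^ 2 * B l j ^ 2) +
          2 * (ρ * ∑ j, if N l j ≠ 0 ∧ ¬ α i l j then B i j ^ 2 else 0) := by
      intro l hl
      have e1 : (B * B.transpose) i l = (∑ j, if α i l j then B i j * B l j else 0) +
          ∑ j, if α i l j then 0 else B i j * B l j := by
        rw [hTe, ← sum_add_distrib]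
        refine sum_congr rfl fun j _ => ?_
        by_cases g : α i l j <;> simp [g]
      rw [e1]
      have e2 := hA l hl
      have e3 := hB l hl
      nlinarith [sq_nonneg ((∑ j, if α i l j then B i j * B l j else 0) -
        ∑ j, if α i l j then 0 else B i j * B l j)]
    rw [← Finset.add_sum_erase _ _ (mem_univ i)]
    have d1 : (B * B.transpose) i i ^ 2 ≤ ρ ^ 2 := by
      rw [hTe]
      have : (∑ j, B i j * B i j) = R i := by
        simp only [hR]
        refine sum_congr rfl fun j _ => ?_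
        ring
      rw [this]
      exact pow_le_pow_left₀ (hR0 i) (hRρ i) 2
    have d2 : ∑ l ∈ univ.erase i, (B * B.transpose) i l ^ 2 ≤
        2 * (T * ρ ^ 2) + 2 * (ρ * (T * ρ)) := by
      refine (sum_le_sum fun l hl => hsplit l (ne_of_mem_erase hl)).trans ?_
      rw [sum_add_distrib, ← mul_sum, ← mul_sum, ← mul_sum, ← mul_sum]
      refine add_le_add ?_ ?_
      · refine mul_le_mul_of_nonneg_left (mul_le_mul_of_nonneg_left ?_ hT0) (by norm_num)
        calc ∑ l ∈ univ.erase i, ∑ j, B i j ^ 2 * B l j ^ 2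
            ≤ ∑ l, ∑ j, B i j ^ 2 * B l j ^ 2 :=
              sum_le_sum_of_subset_of_nonneg (erase_subset _ _)
                (fun l _ _ => sum_nonneg fun j _ => by positivity)
          _ = ∑ j, B i j ^ 2 * C j := by
              rw [sum_comm]
              refine sum_congr rfl fun j _ => ?_
              rw [← mul_sum]
          _ ≤ ∑ j, B i j ^ 2 * ρ :=
              sum_le_sum fun j _ => mul_le_mul_of_nonneg_left (hCρ j) (sq_nonneg _)
          _ = R i * ρ := by rw [← sum_mul]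
          _ ≤ ρ * ρ := mul_le_mul_of_nonneg_right (hRρ i) hρ0.le
          _ = ρ ^ 2 := by ring
      · refine mul_le_mul_of_nonneg_left (mul_le_mul_of_nonneg_left ?_ hρ0.le) (by norm_num)
        rw [sum_comm]
        calc ∑ j, ∑ l ∈ univ.erase i, (if N l j ≠ 0 ∧ ¬ α i l j then B i j ^ 2 else 0)
            ≤ ∑ j, T * B i j ^ 2 := by
              refine sum_le_sum fun j _ => ?_
              by_cases g1 : N i j = 0
              · rw [hB0 i j g1]
                simp
              · rw [← sum_filter, sum_const, nsmul_eq_mul]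
                refine mul_le_mul_of_nonneg_right ?_ (sq_nonneg _)
                have := hα' i j ((univ.erase i).filter fun l => N l j ≠ 0 ∧ ¬ α i l j)
                  (fun l hl => by
                    rw [mem_filter] at hl
                    exact ⟨ne_of_mem_erase hl.1, g1, hl.2.1, hl.2.2⟩)
                exact_mod_cast this
          _ = T * R i := by rw [← mul_sum]
          _ ≤ T * ρ := mul_le_mul_of_nonneg_left (hRρ i) hT0
    calc _ ≤ ρ ^ 2 + (2 * (T * ρ ^ 2) + 2 * (ρ * (T * ρ))) := add_le_add d1 d2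
      _ = _ := by ring
  have hT := Pool.Agent.X246.LRS.trace_sq_le (B * B.transpose)
  have hTr : ((B * B.transpose).rank : ℝ) ≤ N.rank := by
    exact_mod_cast (Matrix.rank_mul_le_left _ _).trans hBr
  have htr : ∑ i, (B * B.transpose) i i = ∑ i, R i := by
    refine sum_congr rfl fun i _ => ?_
    rw [hTe]
    simp only [hR]
    refine sum_congr rfl fun j _ => ?_
    ring
  set n : ℝ := (Fintype.card I : ℝ) with hn
  have hn0 : 0 ≤ n := Nat.cast_nonneg _
  have hsum : ∑ i, ∑ l, (B * B.transpose) i l ^ 2 ≤ n * ((4 * T + 1) * ρ ^ 2) := by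
    have : n * ((4 * (T : ℝ) + 1) * ρ ^ 2) = ∑ _i : I, (4 * (T : ℝ) + 1) * ρ ^ 2 := by
      rw [sum_const, card_univ, nsmul_eq_mul]
    rw [this]
    exact sum_le_sum fun i _ => hrow i
  have s1 : n ≤ ρ * ∑ i, R i := by
    rw [mul_sum]
    have : n = ∑ _i : I, (1 : ℝ) := by
      rw [sum_const, card_univ, nsmul_eq_mul, mul_one]
    rw [this]
    refine sum_le_sum fun i _ => ?_
    rw [hρ, div_mul_eq_mul_div, le_div_iff₀ hε1, one_mul]
    exact hr1 i
  rw [htr] at hT
  have hrk0 : (0 : ℝ) ≤ N.rank := Nat.cast_nonneg _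
  have hsum0 : 0 ≤ ∑ i, ∑ l, (B * B.transpose) i l ^ 2 :=
    sum_nonneg fun i _ => sum_nonneg fun l _ => sq_nonneg _
  have t1 : (∑ i, R i) ^ 2 ≤ N.rank * (n * ((4 * T + 1) * ρ ^ 2)) :=
    hT.trans ((mul_le_mul_of_nonneg_right hTr hsum0).trans (mul_le_mul_of_nonneg_left hsum hrk0))
  have t2 : n ^ 2 ≤ ρ ^ 2 * (∑ i, R i) ^ 2 := by
    have := pow_le_pow_left₀ hn0 s1 2
    calc n ^ 2 ≤ (ρ * ∑ i, R i) ^ 2 := this
      _ = _ := by ring
  have t3 : n * n ≤ n * (((4 * T + 1) * N.rank) * ρ ^ 4) := by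
    calc n * n = n ^ 2 := by ring
      _ ≤ ρ ^ 2 * (∑ i, R i) ^ 2 := t2
      _ ≤ ρ ^ 2 * (N.rank * (n * ((4 * T + 1) * ρ ^ 2))) :=
          mul_le_mul_of_nonneg_left t1 (sq_nonneg _)
      _ = _ := by ring
  have t4 : n ≤ ((4 * T + 1) * N.rank) * ρ ^ 4 := by
    rcases hn0.lt_or_eq with hpos | hz
    · exact le_of_mul_le_mul_left t3 hpos
    · rw [← hz]
      positivity
  have t5 : ρ ^ 4 * (1 - ε) ^ 4 = (1 + ε) ^ 4 := by
    rw [hρ, div_pow, div_mul_cancel₀ _ (by positivity)]
  push_cast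
  calc n * (1 - ε) ^ 4 ≤ (((4 * T + 1) * N.rank) * ρ ^ 4) * (1 - ε) ^ 4 :=
        mul_le_mul_of_nonneg_right t4 (by positivity)
    _ = ((4 * T + 1) * N.rank) * (ρ ^ 4 * (1 - ε) ^ 4) := by ring
    _ = _ := by rw [t5]

end Pool.Agent.X246.MRK
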