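import Pool.Agent.X246.MRK.Cover

/-!
# Matrices with the pattern of a graph of girth at least five
-/

set_option autoImplicit false

namespace Pool.Agent.X246.MRK

open Finset SimpleGraph Pool.Agent.X82.CW

variable {V : Type} [Fintype V] [DecidableEq V]

omit [Fintype V] [DecidableEq V] in
theorem no_tri {G : SimpleGraph V} (hG : (4 : ℕ∞) < G.egirth) {x y z : V} (h1 : G.Adj x y)
    (h2 : G.Adj y z) (h3 : G.Adj x z) : False := by
  have hc : (Walk.cons h1 (Walk.cons h2 (Walk.cons h3.symm Walk.nil))).IsCycle := by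
    rw [Walk.cons_isCycle_iff]
    constructor
    · simp [Walk.isPath_def, G.ne_of_adj h2, (G.ne_of_adj h1).symm, (G.ne_of_adj h3).symm]
    · simp [G.ne_of_adj h1, G.ne_of_adj h2, G.ne_of_adj h3, (G.ne_of_adj h1).symm,
        (G.ne_of_adj h2).symm, (G.ne_of_adj h3).symm]
  have h4 := lt_of_lt_of_le hG hc.egirth_le_length
  simp only [Walk.length_cons, Walk.length_nil] at h4
  exact absurd h4 (by norm_num)

omit [Fintype V] [DecidableEq V] in
theorem no_c4 {G : SimpleGraph V} (hG : (4 : ℕ∞) < G.egirth) {x y z w : V} (hxy : x ≠ y)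
    (h1 : G.Adj x z) (h2 : G.Adj y z) (h3 : G.Adj x w) (h4 : G.Adj y w) : z = w := by
  by_contra hzw
  have hc : (Walk.cons h1 (Walk.cons h2.symm (Walk.cons h4 (Walk.cons h3.symm Walk.nil)))).IsCycle := by
    rw [Walk.cons_isCycle_iff]
    constructor
    · simp [Walk.isPath_def, (G.ne_of_adj h2).symm, (G.ne_of_adj h1).symm, (G.ne_of_adj h3).symm,
        G.ne_of_adj h4, hxy.symm, hzw]
    · simp [G.ne_of_adj h1, hxy, hzw, G.ne_of_adj h3]
  have h5 := lt_of_lt_of_le hG hc.egirth_le_length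
  simp only [Walk.length_cons, Walk.length_nil] at h5
  exact absurd h5 (by norm_num)

theorem common_one {G : SimpleGraph V} (hG : (4 : ℕ∞) < G.egirth) (x y : V) (hxy : x ≠ y)
    (S : Finset V) (hS : ∀ z ∈ S, G.Adj x z ∧ G.Adj y z) : S.card ≤ 1 := by
  rw [card_le_one]
  intro z hz w hw
  exact no_c4 hG hxy (hS z hz).1 (hS z hz).2 (hS w hw).1 (hS w hw).2

theorem share_girth {G : SimpleGraph V} (hG : (4 : ℕ∞) < G.egirth) (W : Matrix V V ℝ)
    (hW : ∀ i j, i ≠ j → (W i j ≠ 0 ↔ G.Adj i j)) (x x' : V) (hx : x ≠ x') :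
    (univ.filter fun y => W x y ≠ 0 ∧ W x' y ≠ 0).card ≤ 2 := by
  classical
  by_cases hadj : G.Adj x x'
  · have h1 : (univ.filter fun y => W x y ≠ 0 ∧ W x' y ≠ 0) ⊆ {x, x'} := by
      intro y hy
      rw [mem_filter] at hy
      rw [mem_insert, mem_singleton]
      by_contra hcon
      push Not at hcon
      exact no_tri hG ((hW x y hcon.1.symm).1 hy.2.1) ((hW x' y hcon.2.symm).1 hy.2.2).symm hadj
    exact (card_le_card h1).trans card_le_two
  · have h1 : (univ.filter fun y => W x y ≠ 0 ∧ W x' y ≠ 0).card ≤ 1 := by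
      refine common_one hG x x' hx _ fun y hy => ?_
      rw [mem_filter] at hy
      have a1 : y ≠ x := by
        rintro rfl
        exact hadj ((hW x' y hx.symm).1 hy.2.2).symm
      have a2 : y ≠ x' := by
        rintro rfl
        exact hadj ((hW x y hx).1 hy.2.1)
      exact ⟨(hW x y a1.symm).1 hy.2.1, (hW x' y a2.symm).1 hy.2.2⟩
    omega

/-- the number of edges of a graph with a small vertex cover, all sets of `w` vertices spanning at
most `e` edges -/
theorem blocks {n : ℕ} (G : SimpleGraph (Fin n)) (X : Finset (Fin n)) (a e : ℕ) (ha : 1 ≤ a)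
    (hXa : X.card ≤ a) (hX : ∀ x y, G.Adj x y → x ∈ X ∨ y ∈ X)
    (he : ∀ T : Finset (Fin n), T.card ≤ 2 * a → prs G T ≤ 2 * e) :
    Nat.card G.edgeSet ≤ (n / a + 1) * e := by
  classical
  obtain ⟨φ, hφ, hcl⟩ := exists_colouring (univ : Finset (Fin n)) (n / a + 1) a (by
    rw [card_univ, Fintype.card_fin]
    have := Nat.div_add_mod n a
    have h2 := Nat.mod_lt n (show 0 < a by omega)
    have h3 : (n / a + 1) * a = a * (n / a) + a := by ring
    omega)
  have hsub : ((univ : Finset (Fin n)) ×ˢ (univ : Finset (Fin n))).filter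
      (fun p => G.Adj p.1 p.2) ⊆ (Finset.range (n / a + 1)).biUnion (fun q =>
        ((X ∪ univ.filter (fun x => φ x = q)) ×ˢ (X ∪ univ.filter (fun x => φ x = q))).filter
            (fun p => G.Adj p.1 p.2)) := by
    rintro ⟨x, y⟩ hp
    rw [mem_filter, mem_product] at hp
    rw [mem_biUnion]
    rcases hX x y hp.2 with hx | hy
    · refine ⟨φ y, mem_range.2 (hφ y (mem_univ y)), ?_⟩
      rw [mem_filter, mem_product, mem_union, mem_union]
      exact ⟨⟨Or.inl hx, Or.inr (mem_filter.2 ⟨mem_univ _, rfl⟩)⟩, hp.2⟩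
    · refine ⟨φ x, mem_range.2 (hφ x (mem_univ x)), ?_⟩
      rw [mem_filter, mem_product, mem_union, mem_union]
      exact ⟨⟨Or.inr (mem_filter.2 ⟨mem_univ _, rfl⟩), Or.inl hy⟩, hp.2⟩
  have h1 : prs G univ ≤ ∑ q ∈ Finset.range (n / a + 1), 2 * e := by
    have e0 : prs G univ = (((univ : Finset (Fin n)) ×ˢ (univ : Finset (Fin n))).filter
      (fun p => G.Adj p.1 p.2)).card := by simp [prs]
    rw [e0]
    refine (card_le_card hsub).trans (card_biUnion_le.trans ?_)
    apply sum_le_sum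
    intro q _
    have h2 := he (X ∪ univ.filter (fun x => φ x = q)) (by
      have e1 := card_union_le X (univ.filter (fun x => φ x = q))
      have e2 := hcl q
      omega)
    simpa [prs] using h2
  rw [prs_univ, sum_const, card_range, smul_eq_mul] at h1
  have h3 : (n / a + 1) * (2 * e) = 2 * ((n / a + 1) * e) := by ring
  omega

theorem le_gam {n k : ℕ} (G : SimpleGraph (Fin n)) (hG : (k : ℕ∞) < G.egirth) :
    Nat.card G.edgeSet ≤ gam n k :=
  le_exOf (fun (n : ℕ) (G : SimpleGraph (Fin n)) => (k : ℕ∞) < G.egirth) hG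

/-- a graph of girth greater than `2 m` with a vertex cover with `a` vertices -/
theorem edges_cover {m n : ℕ} (hm : 2 ≤ m) (G : SimpleGraph (Fin n))
    (hG : ((2 * m : ℕ) : ℕ∞) < G.egirth) (X : Finset (Fin n)) (a : ℕ) (ha : 1 ≤ a)
    (hXa : X.card ≤ a) (hX : ∀ x y, G.Adj x y → x ∈ X ∨ y ∈ X) :
    (Nat.card G.edgeSet : ℝ) ≤ 6 * (n * ((2 * a : ℕ) : ℝ) ^ (1 / (m : ℝ))) := by
  have ha0 : (0 : ℝ) < ((2 * a : ℕ) : ℝ) := by exact_mod_cast (by omega : 0 < 2 * a)
  rcases Nat.lt_or_ge n (2 * a) with hn | hn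
  · rcases Nat.eq_zero_or_pos n with rfl | hn1
    · have : IsEmpty G.edgeSet := by
        constructor
        rintro ⟨e, he⟩
        induction e with
        | _ x y => exact x.elim0
      rw [Nat.card_of_isEmpty]
      simp
    have h1 : (Nat.card G.edgeSet : ℝ) ≤ gam n (2 * m) := by exact_mod_cast le_gam G hG
    have h2 := gam_le (m := m) (by omega) hn1
    have hn0 : (0 : ℝ) < n := by exact_mod_cast hn1
    rw [Real.rpow_add hn0, Real.rpow_one] at h2
    have h3 : (n : ℝ) ^ (1 / (m : ℝ)) ≤ ((2 * a : ℕ) : ℝ) ^ (1 / (m : ℝ)) :=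
      Real.rpow_le_rpow hn0.le (by exact_mod_cast hn.le) (by positivity)
    have h4 : (0 : ℝ) ≤ (n : ℝ) ^ (1 / (m : ℝ)) := by positivity
    nlinarith
  · have hn0 : (0 : ℝ) < n := by exact_mod_cast (by omega : 0 < n)
    have hg := good_girth (k := 2 * m) (by omega)
    have h1 := blocks G X a (gam (2 * a) (2 * m)) ha hXa hX
      (fun T hT => hg.prs_le hn G hG T hT)
    have h1' : (Nat.card G.edgeSet : ℝ) ≤ ((n / a : ℕ) + 1 : ℝ) * gam (2 * a) (2 * m) := by
      exact_mod_cast h1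
    have h2 := gam_le (m := m) (n := 2 * a) (by omega) (by omega)
    rw [Real.rpow_add ha0, Real.rpow_one] at h2
    have h3 : ((n / a : ℕ) : ℝ) ≤ n / a := Nat.cast_div_le
    have ha' : (0 : ℝ) < a := by exact_mod_cast (by omega : 0 < a)
    have hn' : (2 : ℝ) * a ≤ n := by exact_mod_cast hn
    have h4 : ((n / a : ℕ) + 1 : ℝ) * a ≤ 3 / 2 * n := by
      have h5 : ((n / a : ℕ) : ℝ) * a ≤ n := by
        rw [le_div_iff₀ ha'] at h3
        exact h3
      nlinarith
    have h5 : (0 : ℝ) ≤ ((n / a : ℕ) + 1 : ℝ) := by positivity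
    set Y : ℝ := ((2 * a : ℕ) : ℝ) ^ (1 / (m : ℝ)) with hY
    have hY0 : 0 ≤ Y := by positivity
    calc (Nat.card G.edgeSet : ℝ) ≤ ((n / a : ℕ) + 1 : ℝ) * gam (2 * a) (2 * m) := h1'
      _ ≤ ((n / a : ℕ) + 1 : ℝ) * (2 * (((2 * a : ℕ) : ℝ) * Y)) :=
          mul_le_mul_of_nonneg_left h2 h5
      _ = 4 * Y * (((n / a : ℕ) + 1 : ℝ) * a) := by
          push_cast
          ring
      _ ≤ 4 * Y * (3 / 2 * n) := mul_le_mul_of_nonneg_left h4 (by positivity)
      _ = 6 * (n * Y) := by ring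

end Pool.Agent.X246.MRK
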