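import Pool.Agent.X246.MRK.Orient
import Pool.Agent.X246.MRK.Girth
import Pool.Agent.X246.ZRK.Graph
import Pool.Agent.X73.RK.Even

/-!
# Graphs without a graph that is a forest plus one vertex
-/

set_option autoImplicit false

namespace Pool.Agent.X246.MRK

open Finset SimpleGraph Pool.Agent.X82.CW

variable {V : Type} [Fintype V]

/-- a matching given by its two sides -/
theorem pairs_bound (G : SimpleGraph V) (W : Matrix V V ℝ)
    (hW : ∀ i j, i ≠ j → (W i j ≠ 0 ↔ G.Adj i j)) {U : Type} [Fintype U] (F : SimpleGraph U)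
    (v : U) (hF : (F.induce ({v}ᶜ : Set U)).IsAcyclic) (c : U → Bool) (hcv : c v = true)
    (hc : ∀ u w, F.Adj u w → c u ≠ c w) (hfree : F.Free G) {I : Type} [Fintype I]
    (f g : I → V) (hf : Function.Injective f) (hg : Function.Injective g)
    (hfg : ∀ i j, f i ≠ g j) (hadj : ∀ i, G.Adj (f i) (g i)) :
    Fintype.card I ≤ (4 * Fintype.card U + 1) * W.rank := by
  classical
  let N : Matrix I I ℝ := W.submatrix f g
  have hN : ∀ i j, N i j ≠ 0 ↔ G.Adj (f i) (g j) := fun i j => hW _ _ (hfg i j)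
  have hor : ∀ i : I, ∃ α : I → I → Prop,
      (∀ l, ∀ S : Finset I, (∀ j ∈ S, (l ≠ i ∧ N i j ≠ 0 ∧ N l j ≠ 0) ∧ α l j) →
        S.card ≤ Fintype.card U) ∧
      (∀ j, ∀ S : Finset I, (∀ l ∈ S, (l ≠ i ∧ N i j ≠ 0 ∧ N l j ≠ 0) ∧ ¬ α l j) →
        S.card ≤ Fintype.card U) := by
    intro i
    refine exists_orient (fun l j => l ≠ i ∧ N i j ≠ 0 ∧ N l j ≠ 0) (Fintype.card U) ?_
    intro X Y hXY
    by_contra hcon
    rw [not_or] at hcon
    push Not at hcon
    obtain ⟨c1, c2⟩ := hcon
    have hX : X.Nonempty := by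
      rcases hXY with h | ⟨y, hy⟩
      · exact h
      · obtain ⟨S, hS, -, hSc⟩ := c2 y hy
        obtain ⟨x, hx⟩ := card_pos.1 (lt_of_le_of_lt (Nat.zero_le _) hSc)
        exact ⟨x, hS hx⟩
    have hY : Y.Nonempty := by
      obtain ⟨x, hx⟩ := hX
      obtain ⟨S, hS, -, hSc⟩ := c1 x hx
      obtain ⟨y, hy⟩ := card_pos.1 (lt_of_le_of_lt (Nat.zero_le _) hSc)
      exact ⟨y, hS hy⟩
    obtain ⟨φ, ψ, hφ, hψ, i1, i2, i3⟩ := embed_forest
      (fun l j => l ≠ i ∧ N i j ≠ 0 ∧ N l j ≠ 0) F ({v}ᶜ : Set U) hF c hc X Y hX hY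
      (fun x hx => by
        obtain ⟨S, hS, hSR, hSc⟩ := c1 x hx
        exact ⟨S, hS, hSR, hSc⟩)
      (fun y hy => by
        obtain ⟨S, hS, hSR, hSc⟩ := c2 y hy
        exact ⟨S, hS, hSR, hSc⟩) _ (univ.erase v) le_rfl (fun u hu => by
        simpa using ne_of_mem_erase hu)
    have hφi : ∀ u, φ u ≠ i := by
      intro u
      obtain ⟨S, -, hSR, hSc⟩ := c1 _ (hφ u)
      obtain ⟨y, hy⟩ := card_pos.1 (lt_of_le_of_lt (Nat.zero_le _) hSc)
      exact (hSR y hy).1
    have hψi : ∀ u, N i (ψ u) ≠ 0 := by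
      intro u
      obtain ⟨S, -, hSR, hSc⟩ := c2 _ (hψ u)
      obtain ⟨x, hx⟩ := card_pos.1 (lt_of_le_of_lt (Nat.zero_le _) hSc)
      exact (hSR x hx).2.1
    -- the copy of `F`
    let θ : U → V := fun u => if u = v then f i else if c u = true then f (φ u) else g (ψ u)
    have θv : θ v = f i := by simp [θ]
    have θt : ∀ u, u ≠ v → c u = true → θ u = f (φ u) := fun u h1 h2 => by simp [θ, h1, h2]
    have θf : ∀ u, c u = false → θ u = g (ψ u) := fun u h2 => by
      have h1 : u ≠ v := fun h => by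
        rw [h, hcv] at h2
        exact absurd h2 (by simp)
      simp [θ, h1, h2]
    have hmem : ∀ u, u ≠ v → u ∈ univ.erase v := fun u hu => mem_erase.2 ⟨hu, mem_univ _⟩
    have hne : ∀ u, c u = false → u ≠ v := fun u h h' => by
      rw [h', hcv] at h
      exact absurd h (by simp)
    have hinj : Function.Injective θ := by
      intro u w huw
      rcases hcu : c u with _ | _
      · rcases hcw : c w with _ | _
        · rw [θf u hcu, θf w hcw] at huw
          exact i2 u (hmem u (hne u hcu)) w (hmem w (hne w hcw)) hcu hcw (hg huw)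
        · rw [θf u hcu] at huw
          by_cases hwv : w = v
          · subst hwv
            rw [θv] at huw
            exact absurd huw.symm (hfg _ _)
          · rw [θt w hwv hcw] at huw
            exact absurd huw.symm (hfg _ _)
      · rcases hcw : c w with _ | _
        · rw [θf w hcw] at huw
          by_cases huv : u = v
          · subst huv
            rw [θv] at huw
            exact absurd huw (hfg _ _)
          · rw [θt u huv hcu] at huw
            exact absurd huw (hfg _ _)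
        · by_cases huv : u = v
          · by_cases hwv : w = v
            · rw [huv, hwv]
            · rw [huv, θv, θt w hwv hcw] at huw
              exact absurd (hf huw).symm (hφi w)
          · by_cases hwv : w = v
            · rw [hwv, θv, θt u huv hcu] at huw
              exact absurd (hf huw) (hφi u)
            · rw [θt u huv hcu, θt w hwv hcw] at huw
              exact i1 u (hmem u huv) w (hmem w hwv) hcu hcw (hf huw)
    have hedge : ∀ u w, c u = true → c w = false → F.Adj u w → G.Adj (θ u) (θ w) := by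
      intro u w hcu hcw huw
      rw [θf w hcw]
      by_cases huv : u = v
      · subst huv
        rw [θv]
        exact (hN i (ψ w)).1 (hψi w)
      · rw [θt u huv hcu]
        exact (hN _ _).1 (i3 u (hmem u huv) w (hmem w (hne w hcw)) hcu hcw huw).2.2
    apply hfree
    refine ⟨⟨⟨θ, ?_⟩, hinj⟩⟩
    intro u w huw
    have hcc := hc u w huw
    rcases hcu : c u with _ | _
    · rcases hcw : c w with _ | _
      · rw [hcu, hcw] at hcc
        exact absurd rfl hcc
      · exact (hedge w u hcw hcu huw.symm).symm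
    · rcases hcw : c w with _ | _
      · exact hedge u w hcu hcw huw
      · rw [hcu, hcw] at hcc
        exact absurd rfl hcc
  choose α hα1 hα2 using hor
  have hfin := flex_bound N (Fintype.card U) (fun i => (hN i i).2 (hadj i)) α
    (fun i l hl S hS => hα1 i l S fun j hj => ⟨⟨hl, (hS j hj).1, (hS j hj).2.1⟩, (hS j hj).2.2⟩)
    (fun i j S hS => hα2 i j S fun l hl =>
      ⟨⟨(hS l hl).1, (hS l hl).2.1, (hS l hl).2.2.1⟩, (hS l hl).2.2.2⟩)
  exact hfin.trans (Nat.mul_le_mul_left _ (Matrix.rank_submatrix_le _ _ _))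

/-- a vertex cover -/
theorem forest_cover (G : SimpleGraph V) (W : Matrix V V ℝ)
    (hW : ∀ i j, i ≠ j → (W i j ≠ 0 ↔ G.Adj i j)) {U : Type} [Fintype U] (F : SimpleGraph U)
    (v : U) (hF : (F.induce ({v}ᶜ : Set U)).IsAcyclic) (hb : F.IsBipartite) (hfree : F.Free G) :
    ∃ X : Finset V, X.card ≤ (8 * Fintype.card U + 2) * W.rank ∧
      ∀ x y, G.Adj x y → x ∈ X ∨ y ∈ X := by
  classical
  obtain ⟨c, hcv, hc⟩ : ∃ c : U → Bool, c v = true ∧ ∀ u w, F.Adj u w → c u ≠ c w := by
    obtain ⟨C⟩ := hb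
    refine ⟨fun u => decide (C u = C v), by simp, fun u w huw => ?_⟩
    have h1 := C.valid huw
    intro h2
    apply h1
    have h3 : (C u = C v) ↔ (C w = C v) := by
      have := congrArg (fun b => b = true) h2
      simpa using this
    by_cases h4 : C u = C v
    · rw [h4, h3.1 h4]
    · have h5 : C w ≠ C v := fun h => h4 (h3.2 h)
      have a1 := (C u).isLt
      have a2 := (C w).isLt
      have a3 := (C v).isLt
      have b1 : (C u).val ≠ (C v).val := fun h => h4 (Fin.ext h)
      have b2 : (C w).val ≠ (C v).val := fun h => h5 (Fin.ext h)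
      apply Fin.ext
      omega
  obtain ⟨P, hP, hmax⟩ := exists_max_image
    (univ.filter fun P : Finset (V × V) => (∀ p ∈ P, G.Adj p.1 p.2) ∧
      (∀ p ∈ P, ∀ q ∈ P, p.1 = q.1 → p = q) ∧ (∀ p ∈ P, ∀ q ∈ P, p.2 = q.2 → p = q) ∧
      ∀ p ∈ P, ∀ q ∈ P, p.1 ≠ q.2)
    card ⟨∅, by
      rw [mem_filter]
      exact ⟨mem_univ _, by simp, by simp, by simp, by simp⟩⟩
  rw [mem_filter] at hP
  obtain ⟨-, hP1, hP2, hP3, hP4⟩ := hP
  have h1 := pairs_bound G W hW F v hF c hcv hc hfree (I := {p // p ∈ P}) (fun p => p.1.1)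
    (fun p => p.1.2) (fun p q h => Subtype.ext (hP2 _ p.2 _ q.2 h))
    (fun p q h => Subtype.ext (hP3 _ p.2 _ q.2 h)) (fun p q => hP4 _ p.2 _ q.2)
    (fun p => hP1 _ p.2)
  rw [Fintype.card_coe] at h1
  refine ⟨P.image Prod.fst ∪ P.image Prod.snd, ?_, ?_⟩
  · have e1 := card_union_le (P.image Prod.fst) (P.image Prod.snd)
    have e2 : (P.image Prod.fst).card ≤ P.card := card_image_le
    have e3 : (P.image Prod.snd).card ≤ P.card := card_image_le
    calc _ ≤ 2 * P.card := by omega
      _ ≤ 2 * ((4 * Fintype.card U + 1) * W.rank) := Nat.mul_le_mul_left _ h1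
      _ = _ := by ring
  · intro x y hxy
    by_contra hcon
    rw [not_or, mem_union, mem_union, not_or, not_or, mem_image, mem_image, mem_image,
      mem_image] at hcon
    obtain ⟨⟨c1, c2⟩, ⟨c3, c4⟩⟩ := hcon
    push Not at c1 c2 c3 c4
    have hne := G.ne_of_adj hxy
    have hn : (x, y) ∉ P := fun hp => c1 _ hp rfl
    have h2 := hmax (insert (x, y) P) (by
      rw [mem_filter]
      refine ⟨mem_univ _, ?_, ?_, ?_, ?_⟩
      · intro p hp
        rcases mem_insert.1 hp with rfl | hp
        · exact hxy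
        · exact hP1 p hp
      · intro p hp q hq hpq
        rcases mem_insert.1 hp with rfl | hp
        · rcases mem_insert.1 hq with rfl | hq
          · rfl
          · exact absurd hpq.symm (c1 q hq)
        · rcases mem_insert.1 hq with rfl | hq
          · exact absurd hpq (c1 p hp)
          · exact hP2 p hp q hq hpq
      · intro p hp q hq hpq
        rcases mem_insert.1 hp with rfl | hp
        · rcases mem_insert.1 hq with rfl | hq
          · rfl
          · exact absurd hpq.symm (c4 q hq)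
        · rcases mem_insert.1 hq with rfl | hq
          · exact absurd hpq (c4 p hp)
          · exact hP3 p hp q hq hpq
      · intro p hp q hq
        rcases mem_insert.1 hp with rfl | hp
        · rcases mem_insert.1 hq with rfl | hq
          · exact hne
          · exact fun h => c2 q hq h.symm
        · rcases mem_insert.1 hq with rfl | hq
          · exact fun h => c3 p hp h
          · exact hP4 p hp q hq)
    rw [card_insert_of_notMem hn] at h2
    omega

/-- the number of edges -/
theorem forest_edges {n : ℕ} (G : SimpleGraph (Fin n)) (W : Matrix (Fin n) (Fin n) ℝ)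
    (hW : ∀ i j, i ≠ j → (W i j ≠ 0 ↔ G.Adj i j)) {U : Type} [Fintype U] (F : SimpleGraph U)
    (v : U) (hF : (F.induce ({v}ᶜ : Set U)).IsAcyclic) (hb : F.IsBipartite) (hfree : F.Free G)
    (C a : ℝ) (ha : 1 ≤ a)
    (hC : ∀ (m : ℕ) (G' : SimpleGraph (Fin m)), 1 ≤ m → F.Free G' →
      (Nat.card G'.edgeSet : ℝ) ≤ C * (m : ℝ) ^ a) :
    (Nat.card G.edgeSet : ℝ) ≤
      4 * C * n * (((16 * Fintype.card U + 4) * W.rank : ℕ) : ℝ) ^ (a - 1) := by
  classical
  obtain ⟨X, hX1, hX2⟩ := forest_cover G W hW F v hF hb hfree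
  rcases Nat.eq_zero_or_pos n with hn | hn
  · subst hn
    have : IsEmpty G.edgeSet := by
      constructor
      rintro ⟨e, he⟩
      induction e with
      | _ x y => exact x.elim0
    rw [Nat.card_of_isEmpty]
    simp
  have hn0 : (0 : ℝ) < n := by exact_mod_cast hn
  have hn1 : (1 : ℝ) ≤ n := by exact_mod_cast hn
  have hC0 : 0 ≤ C := by
    have h1 := hC n G hn hfree
    have h2 : (0 : ℝ) < (n : ℝ) ^ a := Real.rpow_pos_of_pos hn0 _
    by_contra hneg
    push Not at hneg
    have : C * (n : ℝ) ^ a < 0 := mul_neg_of_neg_of_pos hneg h2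
    have h3 : (0 : ℝ) ≤ Nat.card G.edgeSet := Nat.cast_nonneg _
    linarith
  rcases Nat.eq_zero_or_pos W.rank with h0 | hr
  · have h1 : W = 0 := Pool.Agent.X246.ZRK.eq_zero_of_rank _ h0
    have : IsEmpty G.edgeSet := by
      constructor
      rintro ⟨e, he⟩
      induction e with
      | _ x y =>
        have := (hW x y (G.ne_of_adj he)).2 he
        rw [h1] at this
        exact this rfl
    rw [Nat.card_of_isEmpty, Nat.cast_zero]
    positivity
  set b : ℕ := (8 * Fintype.card U + 2) * W.rank with hbdef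
  have hb1 : 1 ≤ b := Nat.mul_pos (by omega) hr
  have hb2 : (16 * Fintype.card U + 4) * W.rank = 2 * b := by
    rw [hbdef]
    ring
  rw [hb2]
  have hb0 : (0 : ℝ) < ((2 * b : ℕ) : ℝ) := by exact_mod_cast (by omega : 0 < 2 * b)
  have hb1' : (1 : ℝ) ≤ b := by exact_mod_cast hb1
  have hq0 : (0 : ℝ) ≤ ((2 * b : ℕ) : ℝ) ^ (a - 1) := by positivity
  rcases Nat.lt_or_ge n b with hnb | hnb
  · have h1 := hC n G hn hfree
    have h2 : (n : ℝ) ^ a = n * (n : ℝ) ^ (a - 1) := by
      rw [show a = 1 + (a - 1) by ring, Real.rpow_add hn0, Real.rpow_one]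
      simp
    have h3 : (n : ℝ) ^ (a - 1) ≤ ((2 * b : ℕ) : ℝ) ^ (a - 1) :=
      Real.rpow_le_rpow hn0.le (by exact_mod_cast (by omega : n ≤ 2 * b)) (by linarith)
    rw [h2] at h1
    have h4 : 0 ≤ C * n := by positivity
    calc (Nat.card G.edgeSet : ℝ) ≤ C * (n * (n : ℝ) ^ (a - 1)) := h1
      _ = (C * n) * (n : ℝ) ^ (a - 1) := by ring
      _ ≤ (C * n) * ((2 * b : ℕ) : ℝ) ^ (a - 1) := mul_le_mul_of_nonneg_left h3 h4
      _ ≤ 4 * ((C * n) * ((2 * b : ℕ) : ℝ) ^ (a - 1)) := by
          have : 0 ≤ (C * n) * ((2 * b : ℕ) : ℝ) ^ (a - 1) := by positivity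
          linarith
      _ = _ := by ring
  · set e : ℕ := ⌊C * ((2 * b : ℕ) : ℝ) ^ a⌋₊ with hedef
    have he : ∀ T : Finset (Fin n), T.card ≤ 2 * b → prs G T ≤ 2 * e := by
      intro T hT
      rcases Nat.eq_zero_or_pos T.card with hT0 | hT0
      · have : T = ∅ := card_eq_zero.1 hT0
        subst this
        simp [prs]
      let f : Fin T.card ↪o Fin n := T.orderEmbOfFin rfl
      let G' : SimpleGraph (Fin T.card) := G.comap f
      have hcon : G' ⊑ G := ⟨⟨⟨f, fun {a b} hab => hab⟩, f.injective⟩⟩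
      have hfr : F.Free G' := fun h => hfree (h.trans hcon)
      have h1 := hC T.card G' hT0 hfr
      have h2 : prs G T ≤ prs G' univ := by
        unfold prs
        have himg : ((univ ×ˢ univ : Finset (Fin T.card × Fin T.card)).filter
            (fun p => G'.Adj p.1 p.2)).image (fun p => (f p.1, f p.2)) =
            (T ×ˢ T).filter (fun p => G.Adj p.1 p.2) := by
          ext ⟨x, y⟩
          simp only [mem_image, mem_filter, mem_product, mem_univ, true_and, Prod.exists,
            Prod.mk.injEq]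
          constructor
          · rintro ⟨a, b, hab, rfl, rfl⟩
            exact ⟨⟨Finset.orderEmbOfFin_mem _ _ _, Finset.orderEmbOfFin_mem _ _ _⟩, hab⟩
          · rintro ⟨⟨hx, hy⟩, hxy⟩
            have hr := Finset.range_orderEmbOfFin T rfl
            have hx' : x ∈ Set.range f := by rw [hr]; exact hx
            have hy' : y ∈ Set.range f := by rw [hr]; exact hy
            obtain ⟨a, rfl⟩ := hx'
            obtain ⟨b, rfl⟩ := hy'
            exact ⟨a, b, hxy, rfl, rfl⟩
        rw [← himg]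
        exact card_image_le
      rw [prs_univ] at h2
      have h3 : Nat.card G'.edgeSet ≤ e := by
        rw [hedef, Nat.le_floor_iff (by positivity)]
        refine h1.trans (mul_le_mul_of_nonneg_left ?_ hC0)
        exact Real.rpow_le_rpow (Nat.cast_nonneg _) (by exact_mod_cast hT) (by linarith)
      omega
    have h1 := blocks G X b e hb1 hX1 hX2 he
    have h1' : (Nat.card G.edgeSet : ℝ) ≤ ((n / b : ℕ) + 1 : ℝ) * e := by exact_mod_cast h1
    have h2 : (e : ℝ) ≤ C * ((2 * b : ℕ) : ℝ) ^ a := Nat.floor_le (by positivity)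
    have h3 : ((2 * b : ℕ) : ℝ) ^ a = ((2 * b : ℕ) : ℝ) * ((2 * b : ℕ) : ℝ) ^ (a - 1) := by
      rw [show a = 1 + (a - 1) by ring, Real.rpow_add hb0, Real.rpow_one]
      simp
    have h4 : ((n / b : ℕ) + 1 : ℝ) * b ≤ 2 * n := by
      have h5 : ((n / b : ℕ) : ℝ) ≤ n / b := Nat.cast_div_le
      have h6 : ((n / b : ℕ) : ℝ) * b ≤ n := by
        rw [le_div_iff₀ (by linarith)] at h5
        exact h5
      have h7 : (b : ℝ) ≤ n := by exact_mod_cast hnb
      nlinarith
    have h5 : (0 : ℝ) ≤ ((n / b : ℕ) + 1 : ℝ) := by positivity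
    calc (Nat.card G.edgeSet : ℝ) ≤ ((n / b : ℕ) + 1 : ℝ) * e := h1'
      _ ≤ ((n / b : ℕ) + 1 : ℝ) * (C * (((2 * b : ℕ) : ℝ) * ((2 * b : ℕ) : ℝ) ^ (a - 1))) := by
          rw [← h3]
          exact mul_le_mul_of_nonneg_left h2 h5
      _ = 2 * C * ((2 * b : ℕ) : ℝ) ^ (a - 1) * (((n / b : ℕ) + 1 : ℝ) * b) := by
          push_cast
          ring
      _ ≤ 2 * C * ((2 * b : ℕ) : ℝ) ^ (a - 1) * (2 * n) :=
          mul_le_mul_of_nonneg_left h4 (by positivity)
      _ = _ := by ring

end Pool.Agent.X246.MRK
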