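import Pool.Agent.X246.MRK.Count

/-!
# Graphs without `K_{s,t}` and the real matrices with their pattern
-/

set_option autoImplicit false

namespace Pool.Agent.X246.MRK

open Finset SimpleGraph Pool.Agent.X82.CW

variable {n : ℕ}

theorem share_graph (G : SimpleGraph (Fin n)) (W : Matrix (Fin n) (Fin n) ℝ)
    (hW : ∀ i j, i ≠ j → (W i j ≠ 0 ↔ G.Adj i j)) (s t : ℕ)
    (hG : (completeBipartiteGraph (Fin s) (Fin t)).Free G) : Share W s (t + s) univ := by
  classical
  intro K hK S _ hKS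
  have h1 := Pool.Agent.X246.ZRK.noCommon_of_free G s t hG K hK
  have h2 : (S \ K).card ≤ t := by
    refine (card_le_card fun z hz => ?_).trans h1
    simp only [mem_filter, mem_univ, true_and, mem_neighborFinset]
    intro y hy
    rw [mem_sdiff] at hz
    exact (hW y z (fun h => hz.2 (h ▸ hy))).1 (hKS z hz.1 y hy)
  have h3 : S.card ≤ (S \ K).card + K.card := by
    exact card_le_card_sdiff_add_card (s := S) (t := K)
  omega

theorem two_edges_le (G : SimpleGraph (Fin n)) (W : Matrix (Fin n) (Fin n) ℝ)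
    (hW : ∀ i j, i ≠ j → (W i j ≠ 0 ↔ G.Adj i j)) : 2 * Nat.card G.edgeSet ≤ (nzs W univ).card := by
  classical
  rw [← prs_univ G]
  unfold prs
  refine card_le_card fun p hp => ?_
  rw [mem_filter] at hp
  rw [mem_nzs]
  exact ⟨(hW _ _ (G.ne_of_adj hp.2)).2 hp.2, mem_univ _⟩

/-- **Graphs without `K_{s,t}`.** -/
theorem pattern_bound (s t : ℕ) (hs : 2 ≤ s) (ht : 1 ≤ t) : ∃ C : ℝ, 0 < C ∧
    ∀ (n : ℕ) (G : SimpleGraph (Fin n)) (W : Matrix (Fin n) (Fin n) ℝ),
      (completeBipartiteGraph (Fin s) (Fin t)).Free G →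
      (∀ i j, i ≠ j → (W i j ≠ 0 ↔ G.Adj i j)) →
      (Nat.card G.edgeSet : ℝ) ≤ C * n * √(W.rank) ^ (s - 1) := by
  set τ : ℝ := ((t + s : ℕ) + 1) * 2 ^ s with hτ
  have hτ1 : 1 ≤ τ := by
    have h1 : (1 : ℝ) ≤ ((t + s : ℕ) : ℝ) + 1 := by
      have : (0 : ℝ) ≤ ((t + s : ℕ) : ℝ) := Nat.cast_nonneg _
      linarith
    have h2 : (1 : ℝ) ≤ 2 ^ s := one_le_pow₀ (by norm_num)
    calc (1 : ℝ) = 1 * 1 := by ring
      _ ≤ _ := mul_le_mul h1 h2 (by norm_num) (by linarith)
  have hs0 : (0 : ℝ) ≤ s := Nat.cast_nonneg _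
  have ht0 : (0 : ℝ) ≤ t := Nat.cast_nonneg _
  refine ⟨2 * τ ^ 2 + 5 * τ + s + 1 + (s + t), by positivity, ?_⟩
  intro n G W hG hW
  have hn0 : (0 : ℝ) ≤ n := Nat.cast_nonneg _
  rcases Nat.eq_zero_or_pos W.rank with h0 | hr
  · have h1 : W = 0 := Pool.Agent.X246.ZRK.eq_zero_of_rank _ h0
    have : IsEmpty G.edgeSet := by
      constructor
      rintro ⟨e, he⟩
      induction e with
      | _ x y =>
        have := (hW x y (G.ne_of_adj he)).2 he
        rw [h1] at this
        exact this rfl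
    rw [Nat.card_of_isEmpty, Nat.cast_zero]
    positivity
  have hsh := share_graph G W hW s t hG
  have h2e : (2 : ℝ) * Nat.card G.edgeSet ≤ (nzs W univ).card := by
    exact_mod_cast two_edges_le G W hW
  set r : ℕ := W.rank with hrr
  set ρ : ℝ := √(r : ℝ) with hρ
  have hr1 : (1 : ℝ) ≤ r := by exact_mod_cast hr
  have hρ1 : 1 ≤ ρ := Real.one_le_sqrt.2 hr1
  have hρ0 : 0 ≤ ρ := by linarith
  have hρρ : ρ ^ 2 = r := Real.sq_sqrt (by linarith)
  -- the numbers
  have hT : ∀ j, j ≤ s → (Tn (t + s) r j : ℝ) ≤ τ * ρ ^ (2 * j) := by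
    intro j hj
    have h1 := Tn_le (t + s) r j hr
    have h2 : ((Tn (t + s) r j : ℕ) : ℝ) + 1 ≤ ((t + s : ℕ) + 1) * (2 * r) ^ j := by
      exact_mod_cast h1
    have h3 : ((2 : ℝ) * r) ^ j = 2 ^ j * ρ ^ (2 * j) := by
      rw [mul_pow, pow_mul, hρρ]
    have h4 : (2 : ℝ) ^ j ≤ 2 ^ s := pow_le_pow_right₀ (by norm_num) hj
    have h5 : 0 ≤ ρ ^ (2 * j) := by positivity
    rw [h3] at h2
    have h6 : (((t + s : ℕ) : ℝ) + 1) * (2 ^ j * ρ ^ (2 * j)) ≤ τ * ρ ^ (2 * j) := by
      rw [hτ, ← mul_assoc]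
      refine mul_le_mul_of_nonneg_right (mul_le_mul_of_nonneg_left h4 ?_) h5
      positivity
    linarith
  rcases Nat.even_or_odd' s with ⟨k, hk | hk⟩
  · -- even
    obtain ⟨j, rfl⟩ : ∃ j, k = j + 1 := ⟨k - 1, by omega⟩
    have hs1 : s - 1 = 2 * j + 1 := by omega
    have hs2 : 2 + 2 * j = s := by omega
    rw [hs1]
    have hpow1 : 1 ≤ ρ ^ (2 * j + 1) := one_le_pow₀ hρ1
    rcases le_or_gt (ρ ^ (2 * j + 2)) n with hcase | hcase
    · have hb := even_bound W (t + s) r j le_rfl hr (by rw [hs2]; exact hsh)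
      rw [Fintype.card_fin] at hb
      have a1 := hT j (by omega)
      have a2 := hT (j + 1) (by omega)
      rw [show 2 * (j + 1) = 2 * j + 2 by ring] at a2
      set T1 : ℝ := (Tn (t + s) r j : ℝ) with hT1
      set T2 : ℝ := (Tn (t + s) r (j + 1) : ℝ) with hT2
      have hT10 : 0 ≤ T1 := Nat.cast_nonneg _
      have hT20 : 0 ≤ T2 := Nat.cast_nonneg _
      have hs3 : ((2 : ℝ) + 2 * j) = s := by exact_mod_cast hs2
      rw [hs3] at hb
      have hp : ρ ^ (2 * j) ≤ ρ ^ (2 * j + 1) := pow_le_pow_right₀ hρ1 (by omega)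
      -- the square roots
      have q1 : √(T1 * n) ≤ τ * ρ ^ j * √n := by
        rw [Real.sqrt_mul hT10]
        refine mul_le_mul_of_nonneg_right ?_ (Real.sqrt_nonneg _)
        refine Real.sqrt_le_iff.2 ⟨by positivity, a1.trans ?_⟩
        have : (τ * ρ ^ j) ^ 2 = τ * τ * ρ ^ (2 * j) := by
          rw [mul_pow, ← pow_mul, mul_comm j 2]
          ring
        rw [this]
        refine mul_le_mul_of_nonneg_right ?_ (by positivity)
        nlinarith
      have q2 : √(T1 * T2) ≤ τ * ρ ^ (2 * j + 1) := by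
        refine Real.sqrt_le_iff.2 ⟨by positivity, ?_⟩
        calc T1 * T2 ≤ (τ * ρ ^ (2 * j)) * (τ * ρ ^ (2 * j + 2)) :=
              mul_le_mul a1 a2 hT20 (by positivity)
          _ = (τ * ρ ^ (2 * j + 1)) ^ 2 := by ring
      have q3 : ρ ^ (j + 1) ≤ √n := by
        refine Real.le_sqrt_of_sq_le ?_
        rw [← pow_mul]
        calc ρ ^ ((j + 1) * 2) = ρ ^ (2 * j + 2) := by ring_nf
          _ ≤ n := hcase
      have q4 : √(n : ℝ) * √n = n := Real.mul_self_sqrt hn0
      have hτ0 : 0 ≤ τ := by linarith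
      -- the terms
      have t1 : n * (T1 + s) ≤ (τ + s) * (n * ρ ^ (2 * j + 1)) := by
        have e1 : T1 ≤ τ * ρ ^ (2 * j + 1) :=
          a1.trans (mul_le_mul_of_nonneg_left hp hτ0)
        have e2 : (s : ℝ) ≤ s * ρ ^ (2 * j + 1) := by nlinarith
        calc n * (T1 + s) ≤ n * (τ * ρ ^ (2 * j + 1) + s * ρ ^ (2 * j + 1)) :=
              mul_le_mul_of_nonneg_left (by linarith) hn0
          _ = _ := by ring
      have t2 : (n : ℝ) ≤ n * ρ ^ (2 * j + 1) := by nlinarith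
      have t3 : T2 * √(T1 * n) ≤ τ ^ 2 * (n * ρ ^ (2 * j + 1)) := by
        calc T2 * √(T1 * n) ≤ (τ * ρ ^ (2 * j + 2)) * (τ * ρ ^ j * √n) :=
              mul_le_mul a2 q1 (Real.sqrt_nonneg _) (by positivity)
          _ = τ ^ 2 * ρ ^ (2 * j + 1) * √n * ρ ^ (j + 1) := by ring
          _ ≤ τ ^ 2 * ρ ^ (2 * j + 1) * √n * √n :=
              mul_le_mul_of_nonneg_left q3 (by positivity)
          _ = τ ^ 2 * ρ ^ (2 * j + 1) * (√n * √n) := by ring
          _ = τ ^ 2 * ρ ^ (2 * j + 1) * n := by rw [q4]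
          _ = _ := by ring
      have t4 : T2 ≤ τ * (n * ρ ^ (2 * j + 1)) := by
        calc T2 ≤ τ * ρ ^ (2 * j + 2) := a2
          _ ≤ τ * n := mul_le_mul_of_nonneg_left hcase hτ0
          _ ≤ _ := mul_le_mul_of_nonneg_left t2 hτ0
      have t5 : n * √(T1 * T2) ≤ τ * (n * ρ ^ (2 * j + 1)) := by
        calc n * √(T1 * T2) ≤ n * (τ * ρ ^ (2 * j + 1)) := mul_le_mul_of_nonneg_left q2 hn0
          _ = _ := by ring
      have hZ : 0 ≤ (n : ℝ) * ρ ^ (2 * j + 1) := by positivity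
      have hfin : (2 : ℝ) * Nat.card G.edgeSet ≤
          (τ + s + 1 + τ ^ 2 + τ + τ) * (n * ρ ^ (2 * j + 1)) := by
        refine h2e.trans (hb.trans ?_)
        calc _ = n * (T1 + s) + n + T2 * √(T1 * n) + T2 + n * √(T1 * T2) := by ring
          _ ≤ (τ + s) * (n * ρ ^ (2 * j + 1)) + n * ρ ^ (2 * j + 1) +
              τ ^ 2 * (n * ρ ^ (2 * j + 1)) + τ * (n * ρ ^ (2 * j + 1)) +
              τ * (n * ρ ^ (2 * j + 1)) := by linarith
          _ = _ := by ring
      have hfin2 : (τ + s + 1 + τ ^ 2 + τ + τ) * (n * ρ ^ (2 * j + 1)) ≤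
          2 * ((2 * τ ^ 2 + 5 * τ + s + 1 + (s + t)) * n * ρ ^ (2 * j + 1)) := by
        rw [show 2 * ((2 * τ ^ 2 + 5 * τ + s + 1 + (s + t)) * n * ρ ^ (2 * j + 1)) =
          (2 * (2 * τ ^ 2 + 5 * τ + s + 1 + (s + t))) * (n * ρ ^ (2 * j + 1)) by ring]
        refine mul_le_mul_of_nonneg_right ?_ hZ
        nlinarith
      linarith
    · -- many dimensions: the bound of Kővári, Sós and Turán
      have hk := kst (s := s) (t := t) (by omega) ht G hG
      rcases Nat.eq_zero_or_pos n with hn | hn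
      · subst hn
        have : IsEmpty G.edgeSet := by
          constructor
          rintro ⟨e, he⟩
          induction e with
          | _ x y => exact x.elim0
        rw [Nat.card_of_isEmpty, Nat.cast_zero]
        positivity
      have hn1 : (0 : ℝ) < n := by exact_mod_cast hn
      have e1 : (n : ℝ) ^ (2 - 1 / (s : ℝ)) = n * (n : ℝ) ^ (1 - 1 / (s : ℝ)) := by
        rw [show 2 - 1 / (s : ℝ) = 1 + (1 - 1 / (s : ℝ)) by ring, Real.rpow_add hn1, Real.rpow_one]
      have hs' : (0 : ℝ) < s := by exact_mod_cast (by omega : 0 < s)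
      have hs3 : (s : ℝ) = 2 * j + 2 := by
        have : ((2 + 2 * j : ℕ) : ℝ) = s := by rw [hs2]
        push_cast at this
        linarith
      have hex : 0 ≤ 1 - 1 / (s : ℝ) := by
        rw [sub_nonneg, div_le_one hs']
        have : (2 : ℝ) ≤ s := by exact_mod_cast hs
        linarith
      have e2 : (n : ℝ) ^ (1 - 1 / (s : ℝ)) ≤ ρ ^ (2 * j + 1) := by
        calc (n : ℝ) ^ (1 - 1 / (s : ℝ)) ≤ (ρ ^ (2 * j + 2)) ^ (1 - 1 / (s : ℝ)) :=
              Real.rpow_le_rpow hn0 hcase.le hex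
          _ = ρ ^ (2 * j + 1) := by
              rw [← Real.rpow_natCast ρ (2 * j + 2), ← Real.rpow_mul hρ0,
                ← Real.rpow_natCast ρ (2 * j + 1)]
              congr 1
              rw [hs3]
              push_cast
              have : (2 : ℝ) * j + 2 ≠ 0 := by positivity
              field_simp
              ring
      rw [e1] at hk
      have hZ : 0 ≤ (n : ℝ) * ρ ^ (2 * j + 1) := by positivity
      calc (Nat.card G.edgeSet : ℝ) ≤ (s + t) * (n * (n : ℝ) ^ (1 - 1 / (s : ℝ))) := hk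
        _ ≤ (s + t) * (n * ρ ^ (2 * j + 1)) := by
            refine mul_le_mul_of_nonneg_left (mul_le_mul_of_nonneg_left e2 hn0) (by positivity)
        _ ≤ (2 * τ ^ 2 + 5 * τ + s + 1 + (s + t)) * (n * ρ ^ (2 * j + 1)) := by
            refine mul_le_mul_of_nonneg_right ?_ hZ
            nlinarith
        _ = _ := by ring
  · -- odd
    have hs1 : s - 1 = 2 * k := by omega
    have hs2 : 1 + 2 * k = s := by omega
    rw [hs1]
    have hb := odd_bound W (t + s) r k le_rfl hr (by rw [hs2]; exact hsh)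
    rw [Fintype.card_fin, hs2] at hb
    have hb' : ((nzs W univ).card : ℝ) ≤ n * (Tn (t + s) r k + s) + n * Tn (t + s) r k := by
      exact_mod_cast hb
    have a1 := hT k (by omega)
    have hpow1 : 1 ≤ ρ ^ (2 * k) := one_le_pow₀ hρ1
    set T1 : ℝ := (Tn (t + s) r k : ℝ) with hT1
    have e2 : (s : ℝ) ≤ s * ρ ^ (2 * k) := by nlinarith
    have hZ : 0 ≤ (n : ℝ) * ρ ^ (2 * k) := by positivity
    have h5 : (2 : ℝ) * Nat.card G.edgeSet ≤ (2 * τ + s) * (n * ρ ^ (2 * k)) := by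
      refine h2e.trans (hb'.trans ?_)
      calc n * (T1 + s) + n * T1 = n * (2 * T1 + s) := by ring
        _ ≤ n * (2 * (τ * ρ ^ (2 * k)) + s * ρ ^ (2 * k)) :=
            mul_le_mul_of_nonneg_left (by linarith) hn0
        _ = _ := by ring
    have h6 : (2 * τ + s) * (n * ρ ^ (2 * k)) ≤
        2 * ((2 * τ ^ 2 + 5 * τ + s + 1 + (s + t)) * n * ρ ^ (2 * k)) := by
      rw [show 2 * ((2 * τ ^ 2 + 5 * τ + s + 1 + (s + t)) * n * ρ ^ (2 * k)) =
        (2 * (2 * τ ^ 2 + 5 * τ + s + 1 + (s + t))) * (n * ρ ^ (2 * k)) by ring]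
      refine mul_le_mul_of_nonneg_right ?_ hZ
      nlinarith
    linarith

/-- common neighbours of large degree -/
theorem common_heavy (s t : ℕ) (G : SimpleGraph (Fin n)) (W : Matrix (Fin n) (Fin n) ℝ)
    (hG : (completeBipartiteGraph (Fin s) (Fin t)).Free G)
    (hW : ∀ i j, i ≠ j → (W i j ≠ 0 ↔ G.Adj i j)) (j : ℕ) (hj : 2 * j ≤ s) (K : Finset (Fin n))
    (hK : K.card = s - 2 * j) (S : Finset (Fin n))
    (hS : ∀ z ∈ S, (∀ x ∈ K, G.Adj x z) ∧
      (t + s + 1) * (2 * W.rank) ^ j + s < (G.neighborSet z).ncard) :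
    S.card ≤ (t + s + 1) * (2 * W.rank) ^ j := by
  classical
  have hdeg : ∀ z, (G.neighborSet z).ncard ≤ cdeg W z := by
    intro z
    unfold cdeg
    rw [Set.ncard_eq_toFinset_card']
    refine card_le_card fun x hx => ?_
    rw [Set.mem_toFinset, mem_neighborSet] at hx
    rw [mem_filter]
    exact ⟨mem_univ _, (hW x z (G.ne_of_adj hx.symm)).2 hx.symm⟩
  rcases Nat.eq_zero_or_pos W.rank with h0 | hr
  · have h1 : W = 0 := Pool.Agent.X246.ZRK.eq_zero_of_rank _ h0
    have hS0 : S = ∅ := by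
      rw [eq_empty_iff_forall_notMem]
      intro z hz
      have h2 := (hS z hz).2
      have h3 := hdeg z
      have h4 : cdeg W z = 0 := by
        unfold cdeg
        rw [h1]
        simp
      omega
    rw [hS0, card_empty]
    exact Nat.zero_le _
  · obtain ⟨Z, hZ1, hZ2⟩ := share_iter W (t + s) W.rank le_rfl hr j (s - 2 * j) (by
      rw [Nat.sub_add_cancel hj]
      exact share_graph G W hW s t hG)
    have hT := Tn_le (t + s) W.rank j hr
    have h1 : S.card ≤ Tn (t + s) W.rank j := by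
      refine hZ2 K hK S ?_ ?_
      · intro z hz
        by_contra hzZ
        have h2 := hZ1 z hzZ
        have h3 := hdeg z
        have h4 := (hS z hz).2
        omega
      · intro z hz x hx
        exact (hW x z (G.ne_of_adj ((hS z hz).1 x hx))).2 ((hS z hz).1 x hx)
    omega

end Pool.Agent.X246.MRK
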