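import Pool.Agent.X246.MRK.Flex

/-!
# Forests in bipartite graphs and orientations of small outdegree
-/

set_option autoImplicit false

namespace Pool.Agent.X246.MRK

open Finset

/-- an assignment of the edges of a degenerate bipartite graph to their ends -/
theorem exists_orient {A B : Type} [Fintype A] [Fintype B] (R : A → B → Prop) (T : ℕ)
    (hdeg : ∀ (X : Finset A) (Y : Finset B), X.Nonempty ∨ Y.Nonempty →
      (∃ x ∈ X, ∀ S ⊆ Y, (∀ y ∈ S, R x y) → S.card ≤ T) ∨
      (∃ y ∈ Y, ∀ S ⊆ X, (∀ x ∈ S, R x y) → S.card ≤ T)) :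
    ∃ α : A → B → Prop, (∀ x, ∀ S : Finset B, (∀ y ∈ S, R x y ∧ α x y) → S.card ≤ T) ∧
      (∀ y, ∀ S : Finset A, (∀ x ∈ S, R x y ∧ ¬ α x y) → S.card ≤ T) := by
  classical
  have key : ∀ (m : ℕ) (X : Finset A) (Y : Finset B), X.card + Y.card ≤ m →
      ∃ α : A → B → Prop, (∀ x ∈ X, ∀ S ⊆ Y, (∀ y ∈ S, R x y ∧ α x y) → S.card ≤ T) ∧
        (∀ y ∈ Y, ∀ S ⊆ X, (∀ x ∈ S, R x y ∧ ¬ α x y) → S.card ≤ T) := by
    intro m
    induction m with
    | zero =>
      intro X Y h
      have hX : X = ∅ := by
        rw [← card_eq_zero]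
        omega
      have hY : Y = ∅ := by
        rw [← card_eq_zero]
        omega
      subst hX
      subst hY
      exact ⟨fun _ _ => True, by simp, by simp⟩
    | succ m ih =>
      intro X Y h
      by_cases hne : X.Nonempty ∨ Y.Nonempty
      · rcases hdeg X Y hne with ⟨x, hx, hxS⟩ | ⟨y, hy, hyS⟩
        · obtain ⟨α, h1, h2⟩ := ih (X.erase x) Y (by
            rw [card_erase_of_mem hx]
            have := card_pos.2 ⟨x, hx⟩
            omega)
          refine ⟨fun a b => a = x ∨ α a b, ?_, ?_⟩
          · intro a ha S hS hSa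
            by_cases hax : a = x
            · subst hax
              exact hxS S hS fun y hy => (hSa y hy).1
            · refine h1 a (mem_erase.2 ⟨hax, ha⟩) S hS fun y hy => ?_
              exact ⟨(hSa y hy).1, (hSa y hy).2.resolve_left hax⟩
          · intro b hb S hS hSb
            refine h2 b hb S ?_ ?_
            · intro a ha
              have := (hSb a ha).2
              rw [not_or] at this
              exact mem_erase.2 ⟨this.1, hS ha⟩
            · intro a ha
              have := (hSb a ha).2
              rw [not_or] at this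
              exact ⟨(hSb a ha).1, this.2⟩
        · obtain ⟨α, h1, h2⟩ := ih X (Y.erase y) (by
            rw [card_erase_of_mem hy]
            have := card_pos.2 ⟨y, hy⟩
            omega)
          refine ⟨fun a b => b ≠ y ∧ α a b, ?_, ?_⟩
          · intro a ha S hS hSa
            refine h1 a ha S ?_ ?_
            · intro b hb
              exact mem_erase.2 ⟨(hSa b hb).2.1, hS hb⟩
            · intro b hb
              exact ⟨(hSa b hb).1, (hSa b hb).2.2⟩
          · intro b hb S hS hSb
            by_cases hby : b = y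
            · subst hby
              exact hyS S hS fun x hx => (hSb x hx).1
            · refine h2 b (mem_erase.2 ⟨hby, hb⟩) S hS fun a ha => ?_
              refine ⟨(hSb a ha).1, fun hα => (hSb a ha).2 ⟨hby, hα⟩⟩
      · rw [not_or, not_nonempty_iff_eq_empty, not_nonempty_iff_eq_empty] at hne
        obtain ⟨hX, hY⟩ := hne
        subst hX
        subst hY
        exact ⟨fun _ _ => True, by simp, by simp⟩
  obtain ⟨α, h1, h2⟩ := key _ univ univ le_rfl
  exact ⟨α, fun x S hS => h1 x (mem_univ x) S (subset_univ S) hS,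
    fun y S hS => h2 y (mem_univ y) S (subset_univ S) hS⟩

/-- a finite acyclic graph has a vertex with at most one neighbour -/
theorem exists_leaf {U : Type} [Finite U] (F : SimpleGraph U) (Z : Set U)
    (hF : (F.induce Z).IsAcyclic) (s : Finset U) (hsZ : ∀ u ∈ s, u ∈ Z)
    (hs : s.Nonempty) : ∃ w ∈ s, ∀ u ∈ s, ∀ u' ∈ s, F.Adj w u → F.Adj w u' → u = u' := by
  classical
  obtain ⟨w0, hw0⟩ := hs
  have hle : (s : Set U) ≤ Z := fun u hu => hsZ u hu
  have : Nonempty (↥(s : Set U)) := ⟨⟨w0, hw0⟩⟩
  have hac : (F.induce (s : Set U)).IsAcyclic := hF.embedding (SimpleGraph.induceHomOfLE F hle)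
  obtain ⟨a, w, p, hp, hmax⟩ :=
    SimpleGraph.Walk.exists_isPath_forall_isPath_length_le_length (F.induce (s : Set U))
  have key : ∀ v : ↥(s : Set U), (F.induce (s : Set U)).Adj w v → v = p.penultimate := by
    intro v hv
    apply hac.eq_penultimate_of_adj_end hp hv
    by_contra hsupp
    have h1 := hp.concat hsupp hv
    have h2 := hmax _ _ _ h1
    rw [SimpleGraph.Walk.length_concat] at h2
    omega
  refine ⟨w.1, w.2, fun u hu u' hu' h1 h2 => ?_⟩
  have e1 := key ⟨u, hu⟩ h1
  have e2 := key ⟨u', hu'⟩ h2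
  exact congrArg Subtype.val (e1.trans e2.symm)

/-- embedding of a two-coloured forest into a bipartite graph of large minimum degree -/
theorem embed_forest {A B U : Type} [Fintype U] (R : A → B → Prop) (F : SimpleGraph U)
    (Z : Set U) (hF : (F.induce Z).IsAcyclic) (c : U → Bool)
    (hc : ∀ u w, F.Adj u w → c u ≠ c w) (X : Finset A) (Y : Finset B)
    (hX : X.Nonempty) (hY : Y.Nonempty)
    (h1 : ∀ x ∈ X, ∃ S ⊆ Y, (∀ y ∈ S, R x y) ∧ Fintype.card U < S.card)
    (h2 : ∀ y ∈ Y, ∃ S ⊆ X, (∀ x ∈ S, R x y) ∧ Fintype.card U < S.card) :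
    ∀ (m : ℕ) (s : Finset U), s.card ≤ m → (∀ u ∈ s, u ∈ Z) →
      ∃ (φ : U → A) (ψ : U → B), (∀ u, φ u ∈ X) ∧ (∀ u, ψ u ∈ Y) ∧
        (∀ u ∈ s, ∀ w ∈ s, c u = true → c w = true → φ u = φ w → u = w) ∧
        (∀ u ∈ s, ∀ w ∈ s, c u = false → c w = false → ψ u = ψ w → u = w) ∧
        (∀ u ∈ s, ∀ w ∈ s, c u = true → c w = false → F.Adj u w → R (φ u) (ψ w)) := by
  classical
  obtain ⟨x0, hx0⟩ := hX
  obtain ⟨y0, hy0⟩ := hY
  intro m
  induction m with
  | zero =>
    intro s hs _
    have : s = ∅ := by
      rw [← card_eq_zero]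
      omega
    subst this
    exact ⟨fun _ => x0, fun _ => y0, fun _ => hx0, fun _ => hy0, by simp, by simp, by simp⟩
  | succ m ih =>
    intro s hs hsZ
    rcases s.eq_empty_or_nonempty with rfl | hne
    · exact ⟨fun _ => x0, fun _ => y0, fun _ => hx0, fun _ => hy0, by simp, by simp, by simp⟩
    obtain ⟨w, hw, hleaf⟩ := exists_leaf F Z hF s hsZ hne
    obtain ⟨φ, ψ, hφ, hψ, i1, i2, i3⟩ := ih (s.erase w) (by
      rw [card_erase_of_mem hw]
      omega) (fun u hu => hsZ u (mem_of_mem_erase hu))
    have hcard : ∀ {D : Type} [DecidableEq D] (f : U → D),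
        ((s.erase w).image f).card ≤ Fintype.card U := fun f =>
      card_image_le.trans (card_le_univ _)
    rcases hcw : c w with _ | _
    · -- colour false
      have hy : ∃ y ∈ Y, y ∉ (s.erase w).image ψ ∧
          ∀ u ∈ s.erase w, c u = true → F.Adj u w → R (φ u) y := by
        by_cases hnb : ∃ u ∈ s.erase w, c u = true ∧ F.Adj u w
        · obtain ⟨u, hu, hcu, huw⟩ := hnb
          obtain ⟨S, hSY, hSR, hSc⟩ := h1 (φ u) (hφ u)
          obtain ⟨y, hyS, hyn⟩ := exists_mem_notMem_of_card_lt_card
            (lt_of_le_of_lt (hcard ψ) hSc)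
          refine ⟨y, hSY hyS, hyn, fun u' hu' _ hu'w => ?_⟩
          have : u' = u := hleaf u' (mem_of_mem_erase hu') u (mem_of_mem_erase hu) hu'w.symm huw.symm
          rw [this]
          exact hSR y hyS
        · push Not at hnb
          obtain ⟨S, hSY, -, hSc⟩ := h1 x0 hx0
          obtain ⟨y, hyS, hyn⟩ := exists_mem_notMem_of_card_lt_card
            (lt_of_le_of_lt (hcard ψ) hSc)
          exact ⟨y, hSY hyS, hyn, fun u hu hcu huw => absurd huw (hnb u hu hcu)⟩
      obtain ⟨y, hyY, hyn, hyR⟩ := hy
      refine ⟨φ, Function.update ψ w y, hφ, ?_, ?_, ?_, ?_⟩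
      · intro u
        by_cases huw : u = w
        · subst huw
          rw [Function.update_self]
          exact hyY
        · rw [Function.update_of_ne huw]
          exact hψ u
      · intro u hu u' hu' hcu hcu' he
        have hne1 : u ≠ w := fun h => by rw [h, hcw] at hcu; exact absurd hcu (by simp)
        have hne2 : u' ≠ w := fun h => by rw [h, hcw] at hcu'; exact absurd hcu' (by simp)
        exact i1 u (mem_erase.2 ⟨hne1, hu⟩) u' (mem_erase.2 ⟨hne2, hu'⟩) hcu hcu' he
      · intro u hu u' hu' hcu hcu' he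
        by_cases huw : u = w
        · subst huw
          by_cases huw' : u' = u
          · exact huw'.symm
          · rw [Function.update_self, Function.update_of_ne huw'] at he
            exact absurd (mem_image.2 ⟨u', mem_erase.2 ⟨huw', hu'⟩, he.symm⟩) hyn
        · by_cases huw' : u' = w
          · subst huw'
            rw [Function.update_self, Function.update_of_ne huw] at he
            exact absurd (mem_image.2 ⟨u, mem_erase.2 ⟨huw, hu⟩, he⟩) hyn
          · rw [Function.update_of_ne huw, Function.update_of_ne huw'] at he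
            exact i2 u (mem_erase.2 ⟨huw, hu⟩) u' (mem_erase.2 ⟨huw', hu'⟩) hcu hcu' he
      · intro u hu u' hu' hcu hcu' hadj
        have hne1 : u ≠ w := fun h => by rw [h, hcw] at hcu; exact absurd hcu (by simp)
        by_cases huw' : u' = w
        · subst huw'
          rw [Function.update_self]
          exact hyR u (mem_erase.2 ⟨hne1, hu⟩) hcu hadj
        · rw [Function.update_of_ne huw']
          exact i3 u (mem_erase.2 ⟨hne1, hu⟩) u' (mem_erase.2 ⟨huw', hu'⟩) hcu hcu' hadj
    · -- colour true
      have hx : ∃ x ∈ X, x ∉ (s.erase w).image φ ∧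
          ∀ u ∈ s.erase w, c u = false → F.Adj w u → R x (ψ u) := by
        by_cases hnb : ∃ u ∈ s.erase w, c u = false ∧ F.Adj w u
        · obtain ⟨u, hu, hcu, huw⟩ := hnb
          obtain ⟨S, hSX, hSR, hSc⟩ := h2 (ψ u) (hψ u)
          obtain ⟨x, hxS, hxn⟩ := exists_mem_notMem_of_card_lt_card
            (lt_of_le_of_lt (hcard φ) hSc)
          refine ⟨x, hSX hxS, hxn, fun u' hu' _ hu'w => ?_⟩
          have : u' = u := hleaf u' (mem_of_mem_erase hu') u (mem_of_mem_erase hu) hu'w huw
          rw [this]
          exact hSR x hxS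
        · push Not at hnb
          obtain ⟨S, hSX, -, hSc⟩ := h2 y0 hy0
          obtain ⟨x, hxS, hxn⟩ := exists_mem_notMem_of_card_lt_card
            (lt_of_le_of_lt (hcard φ) hSc)
          exact ⟨x, hSX hxS, hxn, fun u hu hcu huw => absurd huw (hnb u hu hcu)⟩
      obtain ⟨x, hxX, hxn, hxR⟩ := hx
      refine ⟨Function.update φ w x, ψ, ?_, hψ, ?_, ?_, ?_⟩
      · intro u
        by_cases huw : u = w
        · subst huw
          rw [Function.update_self]
          exact hxX
        · rw [Function.update_of_ne huw]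
          exact hφ u
      · intro u hu u' hu' hcu hcu' he
        by_cases huw : u = w
        · subst huw
          by_cases huw' : u' = u
          · exact huw'.symm
          · rw [Function.update_self, Function.update_of_ne huw'] at he
            exact absurd (mem_image.2 ⟨u', mem_erase.2 ⟨huw', hu'⟩, he.symm⟩) hxn
        · by_cases huw' : u' = w
          · subst huw'
            rw [Function.update_self, Function.update_of_ne huw] at he
            exact absurd (mem_image.2 ⟨u, mem_erase.2 ⟨huw, hu⟩, he⟩) hxn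
          · rw [Function.update_of_ne huw, Function.update_of_ne huw'] at he
            exact i1 u (mem_erase.2 ⟨huw, hu⟩) u' (mem_erase.2 ⟨huw', hu'⟩) hcu hcu' he
      · intro u hu u' hu' hcu hcu' he
        have hne1 : u ≠ w := fun h => by rw [h, hcw] at hcu; exact absurd hcu (by simp)
        have hne2 : u' ≠ w := fun h => by rw [h, hcw] at hcu'; exact absurd hcu' (by simp)
        exact i2 u (mem_erase.2 ⟨hne1, hu⟩) u' (mem_erase.2 ⟨hne2, hu'⟩) hcu hcu' he
      · intro u hu u' hu' hcu hcu' hadj
        have hne2 : u' ≠ w := fun h => by rw [h, hcw] at hcu'; exact absurd hcu' (by simp)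
        by_cases huw : u = w
        · subst huw
          rw [Function.update_self]
          exact hxR u' (mem_erase.2 ⟨hne2, hu'⟩) hcu' hadj
        · rw [Function.update_of_ne huw]
          exact i3 u (mem_erase.2 ⟨huw, hu⟩) u' (mem_erase.2 ⟨hne2, hu'⟩) hcu hcu' hadj

end Pool.Agent.X246.MRK
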