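import Pool.Agent.X246.MRK.Girth

/-!
# Graphs of girth greater than `4 k` with a small vertex cover
-/

set_option autoImplicit false

namespace Pool.Agent.X246.MRK

open Finset SimpleGraph Pool.Agent.X82.CW

section pairing

variable {V : Type} [DecidableEq V]

/-- a set can be paired off up to one element -/
theorem exists_pairing (N : ℕ) : ∀ S : Finset V, S.card ≤ N → ∃ P : Finset (Sym2 V),
    (∀ e ∈ P, ¬ e.IsDiag ∧ ∀ x ∈ e, x ∈ S) ∧
    (∀ e ∈ P, ∀ e' ∈ P, ∀ x, x ∈ e → x ∈ e' → e = e') ∧ S.card ≤ 2 * P.card + 1 := by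
  induction N with
  | zero =>
    intro S hS
    exact ⟨∅, by simp, by simp, by omega⟩
  | succ N ih =>
    intro S hS
    rcases Nat.lt_or_ge 1 S.card with h | h
    · obtain ⟨x, hx, y, hy, hxy⟩ := one_lt_card.1 h
      have hc : ((S.erase x).erase y).card + 2 = S.card := by
        rw [card_erase_of_mem (mem_erase.2 ⟨hxy.symm, hy⟩), card_erase_of_mem hx]
        omega
      obtain ⟨P, h1, h2, h3⟩ := ih ((S.erase x).erase y) (by omega)
      have hn : s(x, y) ∉ P := by
        intro hP
        have := (h1 _ hP).2 x (Sym2.mem_mk_left x y)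
        simp at this
      refine ⟨insert s(x, y) P, ?_, ?_, ?_⟩
      · intro e he
        rcases mem_insert.1 he with rfl | he
        · refine ⟨by simpa using hxy, ?_⟩
          intro z hz
          rcases Sym2.mem_iff.1 hz with rfl | rfl
          · exact hx
          · exact hy
        · exact ⟨(h1 e he).1, fun z hz => mem_of_mem_erase (mem_of_mem_erase ((h1 e he).2 z hz))⟩
      · intro e he e' he' z hz hz'
        rcases mem_insert.1 he with rfl | he
        · rcases mem_insert.1 he' with rfl | he'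
          · rfl
          · exfalso
            have h4 := (h1 _ he').2 z hz'
            rcases Sym2.mem_iff.1 hz with rfl | rfl
            · simp at h4
            · simp at h4
        · rcases mem_insert.1 he' with rfl | he'
          · exfalso
            have h4 := (h1 _ he).2 z hz
            rcases Sym2.mem_iff.1 hz' with rfl | rfl
            · simp at h4
            · simp at h4
          · exact h2 e he e' he' z hz hz'
      · rw [card_insert_of_notMem hn]
        omega
    · exact ⟨∅, by simp, by simp, by omega⟩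

end pairing

/-- replacing the edges of a trail by paths of length two -/
theorem lift_trail {V : Type} (G H : SimpleGraph V) (X : Finset V) (b : Sym2 V → V)
    (hb : ∀ e ∈ H.edgeSet, b e ∉ X ∧ ∀ x ∈ e, G.Adj (b e) x ∧ x ∈ X)
    (hu : ∀ e ∈ H.edgeSet, ∀ e' ∈ H.edgeSet, b e = b e' → ∀ x, x ∈ e → x ∈ e' → e = e')
    {u v : V} (w : H.Walk u v) (hw : w.IsTrail) :
    ∃ p : G.Walk u v, p.length = 2 * w.length ∧
      (∀ ε ∈ p.edges, ∃ e ∈ w.edges, ∃ x ∈ e, ε = s(b e, x)) ∧ p.IsTrail := by
  induction w with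
  | nil => exact ⟨Walk.nil, by simp, by simp, by simp⟩
  | @cons u a v h q ih =>
    rw [Walk.isTrail_cons] at hw
    obtain ⟨hq, he⟩ := hw
    obtain ⟨p, hp1, hp2, hp3⟩ := ih hq
    have hes : s(u, a) ∈ H.edgeSet := h
    obtain ⟨hbX, hbA⟩ := hb _ hes
    have hbu := hbA u (Sym2.mem_mk_left u a)
    have hba := hbA a (Sym2.mem_mk_right u a)
    have key : ∀ x, x ∈ s(u, a) → s(b s(u, a), x) ∉ p.edges := by
      intro x hx hmem
      obtain ⟨e', he', y, hy, heq⟩ := hp2 _ hmem
      have hes' : e' ∈ H.edgeSet := Walk.edges_subset_edgeSet q he'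
      have hxX := (hbA x hx).2
      have hyX := ((hb e' hes').2 y hy).2
      rw [Sym2.eq_iff] at heq
      rcases heq with ⟨h1, h2⟩ | ⟨h1, h2⟩
      · subst h2
        have := hu _ hes _ hes' h1 x hx hy
        rw [← this] at he'
        exact he he'
      · rw [h1] at hbX
        exact hbX hyX
    refine ⟨Walk.cons hbu.1.symm (Walk.cons hba.1 p), ?_, ?_, ?_⟩
    · rw [Walk.length_cons, Walk.length_cons, Walk.length_cons, hp1]
      ring
    · intro ε hε
      rw [Walk.edges_cons, Walk.edges_cons, List.mem_cons, List.mem_cons] at hε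
      rcases hε with rfl | rfl | hε
      · exact ⟨s(u, a), by simp, u, Sym2.mem_mk_left u a, Sym2.eq_swap⟩
      · exact ⟨s(u, a), by simp, a, Sym2.mem_mk_right u a, rfl⟩
      · obtain ⟨e', he', y, hy, heq⟩ := hp2 _ hε
        exact ⟨e', by simp [he'], y, hy, heq⟩
    · rw [Walk.isTrail_cons, Walk.isTrail_cons]
      refine ⟨⟨hp3, key a (Sym2.mem_mk_right u a)⟩, ?_⟩
      rw [Walk.edges_cons, List.mem_cons, not_or]
      refine ⟨?_, ?_⟩
      · intro heq
        rw [Sym2.eq_iff] at heq
        rcases heq with ⟨h1, -⟩ | ⟨h1, -⟩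
        · exact hbX (h1 ▸ hbu.2)
        · exact H.ne_of_adj h h1
      · rw [Sym2.eq_swap]
        exact key u (Sym2.mem_mk_left u a)

/-- the girth of the graph of the pairs -/
theorem lift_girth {V : Type} (G H : SimpleGraph V) (X : Finset V) (b : Sym2 V → V)
    (hb : ∀ e ∈ H.edgeSet, b e ∉ X ∧ ∀ x ∈ e, G.Adj (b e) x ∧ x ∈ X)
    (hu : ∀ e ∈ H.edgeSet, ∀ e' ∈ H.edgeSet, b e = b e' → ∀ x, x ∈ e → x ∈ e' → e = e')
    (k : ℕ) (hG : ((4 * k : ℕ) : ℕ∞) < G.egirth) : ((2 * k : ℕ) : ℕ∞) < H.egirth := by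
  have h1 : ((2 * k + 1 : ℕ) : ℕ∞) ≤ H.egirth := by
    rw [le_egirth]
    intro a w hw
    obtain ⟨p, hp1, -, hp3⟩ := lift_trail G H X b hb hu w hw.isTrail
    have h3 := hw.three_le_length
    have hc : p.IsCircuit := by
      refine ⟨hp3, ?_⟩
      rintro rfl
      rw [Walk.length_nil] at hp1
      omega
    have h4 := lt_of_lt_of_le hG hc.egirth_le_length
    have h5 : 4 * k < p.length := by exact_mod_cast h4
    have h6 : 2 * k + 1 ≤ w.length := by omega
    exact_mod_cast h6
  refine lt_of_lt_of_le ?_ h1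
  exact_mod_cast Nat.lt_succ_self _

theorem gam_anti (n : ℕ) {k k' : ℕ} (h : k ≤ k') : gam n k' ≤ gam n k := by
  obtain ⟨G, hG, he⟩ := exOf_attained (fun (n : ℕ) (G : SimpleGraph (Fin n)) =>
    ((k' : ℕ) : ℕ∞) < G.egirth) (n := n) ⟨⊥, by
      rw [egirth_bot]
      exact WithTop.coe_lt_top _⟩
  have h1 : gam n k' = Nat.card G.edgeSet := he.symm
  rw [h1]
  exact le_gam G (lt_of_le_of_lt (by exact_mod_cast h) hG)

theorem prs_le_prs {V : Type} [Fintype V] (H : SimpleGraph V) (X : Finset V)
    (h : ∀ x y, H.Adj x y → x ∈ X ∧ y ∈ X) : prs H univ ≤ prs H X := by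
  classical
  unfold prs
  refine card_le_card fun p hp => ?_
  rw [mem_filter] at hp ⊢
  exact ⟨mem_product.2 (h _ _ hp.2), hp.2⟩

/-- the excess of the number of edges over the number of vertices -/
theorem excess {n k : ℕ} (hk : 2 ≤ k) (G : SimpleGraph (Fin n))
    (hG : ((4 * k : ℕ) : ℕ∞) < G.egirth) (X : Finset (Fin n))
    (hX : ∀ x y, G.Adj x y → x ∈ X ∨ y ∈ X) :
    Nat.card G.edgeSet ≤ n + 3 * gam X.card (2 * k) := by
  classical
  have h4 : (4 : ℕ∞) < G.egirth := lt_of_le_of_lt (by exact_mod_cast (by omega : 4 ≤ 4 * k)) hG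
  choose P hP1 hP2 hP3 using fun b : Fin n =>
    exists_pairing (V := Fin n) _ (univ.filter fun x => G.Adj b x) le_rfl
  have hXn : X.card ≤ n := by simpa using card_le_univ X
  set E : Finset (Sym2 (Fin n)) := (univ.filter fun b => b ∉ X).biUnion P with hE
  have hPX : ∀ b, b ∉ X → ∀ e ∈ P b, ∀ x ∈ e, G.Adj b x ∧ x ∈ X := by
    intro b hb e he x hx
    have h1 := (hP1 b e he).2 x hx
    rw [mem_filter] at h1
    exact ⟨h1.2, (hX b x h1.2).resolve_left hb⟩
  have hEd : ∀ e ∈ E, ¬ e.IsDiag := by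
    intro e he
    rw [hE, mem_biUnion] at he
    obtain ⟨b, -, he⟩ := he
    exact (hP1 b e he).1
  set H : SimpleGraph (Fin n) := fromEdgeSet (E : Set (Sym2 (Fin n))) with hH
  have hHE : H.edgeSet = (E : Set (Sym2 (Fin n))) := by
    rw [hH, edgeSet_fromEdgeSet]
    ext e
    constructor
    · exact fun h => h.1
    · exact fun h => ⟨h, fun hd => hEd e h (by simpa using hd)⟩
  have hex : ∀ e : Sym2 (Fin n), ∃ b : Fin n, e ∈ H.edgeSet → b ∉ X ∧ e ∈ P b := by
    intro e
    by_cases he : e ∈ H.edgeSet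
    · have he' := he
      rw [hHE, mem_coe, hE, mem_biUnion] at he'
      obtain ⟨b, hb, hbe⟩ := he'
      rw [mem_filter] at hb
      exact ⟨b, fun _ => ⟨hb.2, hbe⟩⟩
    · rcases Nat.eq_zero_or_pos n with rfl | hn
      · exact absurd e.out.1.isLt (by omega)
      · exact ⟨⟨0, hn⟩, fun h => absurd h he⟩
  choose b hb using hex
  have hgH : ((2 * k : ℕ) : ℕ∞) < H.egirth := by
    refine lift_girth G H X b ?_ ?_ k hG
    · intro e he
      exact ⟨(hb e he).1, hPX _ (hb e he).1 e (hb e he).2⟩
    · intro e he e' he' hbb x hx hx'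
      exact hP2 (b e) e (hb e he).2 e' (by
        rw [hbb]
        exact (hb e' he').2) x hx hx'
  -- the number of edges of `H`
  have hEcard : E.card = ∑ b ∈ univ.filter fun b => b ∉ X, (P b).card := by
    rw [hE, card_biUnion]
    intro b1 hb1 b2 hb2 hne
    rw [mem_coe, mem_filter] at hb1 hb2
    change Disjoint (P b1) (P b2)
    rw [Finset.disjoint_left]
    intro e he1 he2
    induction e with
    | _ x y =>
      have hd := (hP1 b1 _ he1).1
      have hxy : x ≠ y := by simpa using hd
      have a1 := (hPX b1 hb1.2 _ he1 x (Sym2.mem_mk_left x y)).1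
      have a2 := (hPX b1 hb1.2 _ he1 y (Sym2.mem_mk_right x y)).1
      have a3 := (hPX b2 hb2.2 _ he2 x (Sym2.mem_mk_left x y)).1
      have a4 := (hPX b2 hb2.2 _ he2 y (Sym2.mem_mk_right x y)).1
      exact hxy (no_c4 h4 hne a1 a3 a2 a4)
  have hg := good_girth (k := 2 * k) (by omega)
  have hHX : 2 * E.card ≤ 2 * gam X.card (2 * k) := by
    have e1 : Nat.card H.edgeSet = E.card := by
      rw [hHE]
      simp
    have e2 := prs_univ H
    rw [e1] at e2
    rw [← e2]
    have e3 : prs H univ ≤ prs H X := by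
      refine prs_le_prs H X fun x y hxy => ?_
      have hadj : s(x, y) ∈ H.edgeSet := hxy
      have h5 := hb _ hadj
      have h6 := hPX _ h5.1 _ h5.2
      exact ⟨(h6 x (Sym2.mem_mk_left _ _)).2, (h6 y (Sym2.mem_mk_right _ _)).2⟩
    exact e3.trans (hg.prs_le hXn H hgH X le_rfl)
  -- the edges inside `X`
  have hGX : prs G X ≤ 2 * gam X.card (2 * k) :=
    hg.prs_le hXn G (lt_of_le_of_lt (by exact_mod_cast (by omega : 2 * k ≤ 4 * k)) hG) X le_rfl
  -- the edges between `X` and its complement
  have hdeg : ∑ b ∈ univ.filter (fun b => b ∉ X), (univ.filter fun x => G.Adj b x).card ≤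
      2 * E.card + n := by
    calc ∑ b ∈ univ.filter (fun b => b ∉ X), (univ.filter fun x => G.Adj b x).card
        ≤ ∑ b ∈ univ.filter (fun b => b ∉ X), (2 * (P b).card + 1) :=
          sum_le_sum fun b _ => hP3 b
      _ = 2 * E.card + (univ.filter (fun b => b ∉ X)).card := by
          rw [sum_add_distrib, ← mul_sum, hEcard]
          simp
      _ ≤ 2 * E.card + n := by
          have := card_le_univ (univ.filter (fun b : Fin n => b ∉ X))
          rw [Fintype.card_fin] at this
          omega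
  have hsplit : prs G univ ≤ prs G X +
      2 * ∑ b ∈ univ.filter (fun b => b ∉ X), (univ.filter fun x => G.Adj b x).card := by
    set Q : Finset (Fin n × Fin n) := (univ.filter (fun b => b ∉ X)).sigma
      (fun b => univ.filter fun x => G.Adj b x) |>.image (fun p => (p.1, p.2)) with hQ
    set Q' : Finset (Fin n × Fin n) := (univ.filter (fun b => b ∉ X)).sigma
      (fun b => univ.filter fun x => G.Adj b x) |>.image (fun p => (p.2, p.1)) with hQ'
    have hQc : Q.card ≤ ∑ b ∈ univ.filter (fun b => b ∉ X), (univ.filter fun x => G.Adj b x).card := by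
      rw [← card_sigma]
      exact card_image_le
    have hQc' : Q'.card ≤
        ∑ b ∈ univ.filter (fun b => b ∉ X), (univ.filter fun x => G.Adj b x).card := by
      rw [← card_sigma]
      exact card_image_le
    have hsub : ((univ : Finset (Fin n)) ×ˢ (univ : Finset (Fin n))).filter
        (fun p => G.Adj p.1 p.2) ⊆ (X ×ˢ X).filter (fun p => G.Adj p.1 p.2) ∪ (Q ∪ Q') := by
      rintro ⟨x, y⟩ hp
      rw [mem_filter] at hp
      have hadj : G.Adj x y := hp.2
      rw [mem_union, mem_union]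
      by_cases hx : x ∈ X
      · by_cases hy : y ∈ X
        · exact Or.inl (mem_filter.2 ⟨mem_product.2 ⟨hx, hy⟩, hadj⟩)
        · refine Or.inr (Or.inr ?_)
          rw [hQ', mem_image]
          exact ⟨⟨y, x⟩, by simp [hy, hadj.symm], rfl⟩
      · refine Or.inr (Or.inl ?_)
        rw [hQ, mem_image]
        exact ⟨⟨x, y⟩, by simp [hx, hadj], rfl⟩
    have e0 : prs G univ = (((univ : Finset (Fin n)) ×ˢ (univ : Finset (Fin n))).filter
      (fun p => G.Adj p.1 p.2)).card := by simp [prs]
    have e1 : prs G X = ((X ×ˢ X).filter (fun p => G.Adj p.1 p.2)).card := by simp [prs]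
    rw [e0, e1]
    have e2 := card_le_card hsub
    have e3 := card_union_le ((X ×ˢ X).filter (fun p => G.Adj p.1 p.2)) (Q ∪ Q')
    have e4 := card_union_le Q Q'
    omega
  rw [prs_univ] at hsplit
  omega

end Pool.Agent.X246.MRK
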