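import Pool.Agent.X246.MRK.Zar
import Pool.Agent.X82.CWKst
import Mathlib.Combinatorics.Hall.Basic

/-!
# Real matrices any `s` rows of which share few nonzero columns
-/

set_option autoImplicit false

namespace Pool.Agent.X246.MRK

open Finset

variable {X Y : Type} [Fintype X] [Fintype Y]

/-- any `s` rows of `M` share at most `T` nonzero columns of the set `Z` -/
def Share (M : Matrix X Y ℝ) (s T : ℕ) (Z : Finset Y) : Prop :=
  ∀ K : Finset X, K.card = s → ∀ S : Finset Y, S ⊆ Z → (∀ z ∈ S, ∀ x ∈ K, M x z ≠ 0) → S.card ≤ T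

/-- the number of nonzero entries of a column -/
noncomputable def cdeg (M : Matrix X Y ℝ) (z : Y) : ℕ := by
  classical
  exact (univ.filter fun x => M x z ≠ 0).card

/-- the numbers of the induction -/
def Tn (t r : ℕ) : ℕ → ℕ
  | 0 => t
  | j + 1 => (Tn t r j + 1) * r

theorem Tn_le (t r j : ℕ) (hr : 1 ≤ r) : Tn t r j + 1 ≤ (t + 1) * (2 * r) ^ j := by
  induction j with
  | zero => simp [Tn]
  | succ j ih =>
    have h1 : 1 ≤ (t + 1) * (2 * r) ^ j := by
      have : 0 < (t + 1) * (2 * r) ^ j := by positivity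
      omega
    have h2 : Tn t r (j + 1) = (Tn t r j + 1) * r := rfl
    rw [h2]
    have h3 : (Tn t r j + 1) * r ≤ (t + 1) * (2 * r) ^ j * r := Nat.mul_le_mul_right _ ih
    have h4 : (t + 1) * (2 * r) ^ (j + 1) =
        (t + 1) * (2 * r) ^ j * r + (t + 1) * (2 * r) ^ j * r := by ring
    have h5 : 1 ≤ (t + 1) * (2 * r) ^ j * r := Nat.mul_pos h1 hr
    omega

theorem Tn_mono (t r j : ℕ) (hr : 1 ≤ r) : Tn t r j ≤ Tn t r (j + 1) := by
  have h2 : Tn t r (j + 1) = (Tn t r j + 1) * r := rfl
  rw [h2]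
  calc Tn t r j ≤ Tn t r j + 1 := Nat.le_succ _
    _ = (Tn t r j + 1) * 1 := (Nat.mul_one _).symm
    _ ≤ _ := Nat.mul_le_mul_left _ hr

/-- one step: two rows fewer -/
theorem share_step (M : Matrix X Y ℝ) (s T r : ℕ) (hr : M.rank ≤ r) (Z : Finset Y)
    (h : Share M (s + 2) T Z) :
    Share M s ((T + 1) * r) (Z.filter fun z => (T + 1) * r + s < cdeg M z) := by
  classical
  intro K hK S hS hKS
  by_contra hcon
  push Not at hcon
  obtain ⟨S', hS', hc⟩ := exists_subset_card_eq (n := (T + 1) * r + 1) hcon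
  -- the nonzero entries of the columns outside `K`
  let t : {z // z ∈ S'} → Finset X := fun z => univ.filter fun x => x ∉ K ∧ M x z.1 ≠ 0
  have ht : ∀ z, (T + 1) * r + 1 ≤ (t z).card := by
    intro z
    have h1 := (mem_filter.1 (hS (hS' z.2))).2
    have h2 : cdeg M z.1 ≤ (t z).card + K.card := by
      unfold cdeg
      refine (card_le_card (t := t z ∪ K) fun x hx => ?_).trans (card_union_le _ _)
      rw [mem_filter] at hx
      rw [mem_union, mem_filter]
      by_cases hxK : x ∈ K
      · exact Or.inr hxK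
      · exact Or.inl ⟨mem_univ _, hxK, hx.2⟩
    omega
  have hHall : ∃ g : {z // z ∈ S'} → X, Function.Injective g ∧ ∀ z, g z ∈ t z := by
    rw [← Finset.all_card_le_biUnion_card_iff_exists_injective]
    intro A
    rcases A.eq_empty_or_nonempty with rfl | ⟨z, hz⟩
    · simp
    · calc A.card ≤ Fintype.card {z // z ∈ S'} := card_le_univ A
        _ = (T + 1) * r + 1 := by rw [Fintype.card_coe, hc]
        _ ≤ (t z).card := ht z
        _ ≤ _ := card_le_card (subset_biUnion_of_mem t hz)
  obtain ⟨g, hg, hgt⟩ := hHall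
  let M' : Matrix {x // x ∉ K} {z // z ∈ S'} ℝ := M.submatrix Subtype.val Subtype.val
  have hM' : M'.rank ≤ r := (Matrix.rank_submatrix_le _ _ _).trans hr
  have hsh : ∀ x x', x ≠ x' → (univ.filter fun y => M' x y ≠ 0 ∧ M' x' y ≠ 0).card ≤ T := by
    intro x x' hx
    have h1 := h (insert x.1 (insert x'.1 K)) (by
      rw [card_insert_of_notMem, card_insert_of_notMem x'.2, hK]
      rw [mem_insert, not_or]
      exact ⟨fun h => hx (Subtype.ext h), x.2⟩)
      ((univ.filter fun y => M' x y ≠ 0 ∧ M' x' y ≠ 0).image Subtype.val) (by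
        intro z hz
        rw [mem_image] at hz
        obtain ⟨y, -, rfl⟩ := hz
        exact (mem_filter.1 (hS (hS' y.2))).1) (by
        intro z hz w hw
        rw [mem_image] at hz
        obtain ⟨y, hy, rfl⟩ := hz
        rw [mem_filter] at hy
        rw [mem_insert, mem_insert] at hw
        rcases hw with rfl | rfl | hw
        · exact hy.2.1
        · exact hy.2.2
        · exact hKS _ (hS' y.2) w hw)
    rwa [card_image_of_injective _ Subtype.val_injective] at h1
  have hfin := term_bound (I := {z // z ∈ S'}) M' T hsh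
    (fun z => ⟨g z, (mem_filter.1 (hgt z)).2.1⟩) (fun z => z)
    (fun z z' hz => hg (congrArg Subtype.val hz)) (fun _ _ h => h)
    (fun z => (mem_filter.1 (hgt z)).2.2)
  rw [Fintype.card_coe, hc] at hfin
  have := hfin.trans (Nat.mul_le_mul_left _ hM')
  omega

/-- the structure -/
theorem share_iter (M : Matrix X Y ℝ) (t r : ℕ) (hr : M.rank ≤ r) (hr1 : 1 ≤ r) (j : ℕ) :
    ∀ s : ℕ, Share M (s + 2 * j) t univ → ∃ Z : Finset Y,
      (∀ z, z ∉ Z → cdeg M z ≤ Tn t r j + (s + 2 * j)) ∧ Share M s (Tn t r j) Z := by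
  classical
  induction j with
  | zero =>
    intro s h
    exact ⟨univ, fun z hz => absurd (mem_univ z) hz, h⟩
  | succ j ih =>
    intro s h
    obtain ⟨Z, hZ1, hZ2⟩ := ih (s + 2) (by
      rw [show s + 2 + 2 * j = s + 2 * (j + 1) by ring]
      exact h)
    refine ⟨Z.filter fun z => (Tn t r j + 1) * r + s < cdeg M z, ?_, ?_⟩
    · intro z hz
      rw [mem_filter, not_and_or] at hz
      rcases hz with hz | hz
      · have h1 := hZ1 z hz
        have h2 := Tn_mono t r j hr1
        omega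
      · have h2 : Tn t r (j + 1) = (Tn t r j + 1) * r := rfl
        rw [h2]
        omega
    · exact share_step M s (Tn t r j) r hr Z hZ2

/-- the number of nonzero entries in some columns, in terms of the pairs of rows -/
theorem cols_bound {A B : Type} [DecidableEq A] [DecidableEq B] (R : A → B → Prop)
    (P : Finset A) (Q : Finset B) (T : ℕ)
    (hT : ∀ x ∈ P, ∀ x' ∈ P, x ≠ x' → ∀ S : Finset B, S ⊆ Q → (∀ z ∈ S, R x z ∧ R x' z) →
      S.card ≤ T) :
    ∀ N : Finset (A × B), (∀ p ∈ N, p.1 ∈ P ∧ p.2 ∈ Q ∧ R p.1 p.2) →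
      (N.card : ℝ) ≤ Q.card + P.card * √(T * Q.card) := by
  classical
  intro N hN
  set d : B → ℕ := fun z => (P.filter fun x => (x, z) ∈ N).card with hd
  have h1 : N.card = ∑ z ∈ Q, d z := by
    rw [hd]
    simp_rw [card_filter]
    rw [sum_comm, ← sum_product', ← card_filter]
    congr 1
    ext p
    rw [mem_filter, mem_product]
    constructor
    · intro hp
      exact ⟨⟨(hN p hp).1, (hN p hp).2.1⟩, hp⟩
    · exact fun hp => hp.2
  have h2 : ∑ z ∈ Q, d z ^ 2 ≤ N.card + T * P.card ^ 2 := by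
    have e1 : ∑ z ∈ Q, d z ^ 2 =
        ∑ x ∈ P, ∑ x' ∈ P, (Q.filter fun z => (x, z) ∈ N ∧ (x', z) ∈ N).card := by
      have e2 : ∀ z, d z ^ 2 = ∑ x ∈ P, ∑ x' ∈ P, if (x, z) ∈ N ∧ (x', z) ∈ N then 1 else 0 := by
        intro z
        change (P.filter fun x => (x, z) ∈ N).card ^ 2 = _
        rw [sq, card_filter, sum_mul_sum]
        refine sum_congr rfl fun x _ => sum_congr rfl fun x' _ => ?_
        by_cases a1 : (x, z) ∈ N <;> by_cases a2 : (x', z) ∈ N <;> simp [a1, a2]
      simp_rw [e2]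
      rw [sum_comm]
      refine sum_congr rfl fun x _ => ?_
      rw [sum_comm]
      refine sum_congr rfl fun x' _ => ?_
      rw [card_filter]
    have e3 : N.card = ∑ x ∈ P, (Q.filter fun z => (x, z) ∈ N).card := by
      rw [h1, hd]
      simp_rw [card_filter]
      rw [sum_comm]
    rw [e1, e3]
    have e4 : ∀ x ∈ P, ∑ x' ∈ P, (Q.filter fun z => (x, z) ∈ N ∧ (x', z) ∈ N).card ≤
        (Q.filter fun z => (x, z) ∈ N).card + T * P.card := by
      intro x hx
      rw [← Finset.add_sum_erase _ _ hx]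
      refine add_le_add ?_ ?_
      · refine card_le_card fun v hv => ?_
        rw [mem_filter] at hv ⊢
        exact ⟨hv.1, hv.2.1⟩
      · calc ∑ x' ∈ P.erase x, (Q.filter fun z => (x, z) ∈ N ∧ (x', z) ∈ N).card
            ≤ ∑ x' ∈ P.erase x, T := by
              refine sum_le_sum fun x' hx' => ?_
              refine hT x hx x' (mem_of_mem_erase hx') (ne_of_mem_erase hx').symm _
                (filter_subset _ _) fun z hz => ?_
              rw [mem_filter] at hz
              exact ⟨(hN _ hz.2.1).2.2, (hN _ hz.2.2).2.2⟩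
          _ = (P.erase x).card * T := by rw [sum_const, smul_eq_mul]
          _ ≤ T * P.card := by
              rw [mul_comm]
              exact Nat.mul_le_mul_left _ (card_le_card (erase_subset _ _))
    refine (sum_le_sum e4).trans ?_
    rw [sum_add_distrib, sum_const, smul_eq_mul]
    refine Nat.add_le_add_left ?_ _
    rw [sq]
    exact le_of_eq (by ring)
  have h3 : (N.card : ℝ) ^ 2 ≤ Q.card * (N.card + T * (P.card : ℝ) ^ 2) := by
    have e1 : (∑ z ∈ Q, (d z : ℝ)) ^ 2 ≤ Q.card * ∑ z ∈ Q, (d z : ℝ) ^ 2 :=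
      sq_sum_le_card_mul_sum_sq
    have e2 : (N.card : ℝ) = ∑ z ∈ Q, (d z : ℝ) := by
      rw [h1]
      push_cast
      rfl
    have e3 : ∑ z ∈ Q, (d z : ℝ) ^ 2 ≤ N.card + T * (P.card : ℝ) ^ 2 := by exact_mod_cast h2
    rw [e2] at e3 ⊢
    exact e1.trans (mul_le_mul_of_nonneg_left e3 (Nat.cast_nonneg _))
  by_contra hcon
  push Not at hcon
  set n : ℝ := (Q.card : ℝ) with hn
  set a : ℝ := (P.card : ℝ) with ha
  set e : ℝ := (N.card : ℝ) with he
  have hn0 : 0 ≤ n := Nat.cast_nonneg _
  have ha0 : 0 ≤ a := Nat.cast_nonneg _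
  set q : ℝ := √(T * n) with hq
  have hq0 : 0 ≤ q := Real.sqrt_nonneg _
  have hqq : q ^ 2 = T * n := Real.sq_sqrt (by positivity)
  have k1 : a * q < e - n := by linarith
  have h0 : 0 ≤ a * q := mul_nonneg ha0 hq0
  have k2 : a * q < e := by linarith
  have k3 : (a * q) * (a * q) < e * (e - n) := mul_lt_mul'' k2 k1 h0 h0
  have k4 : (a * q) * (a * q) = n * (T * a ^ 2) := by
    calc (a * q) * (a * q) = a ^ 2 * q ^ 2 := by ring
      _ = a ^ 2 * (T * n) := by rw [hqq]
      _ = n * (T * a ^ 2) := by ring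
  have k5 : e * (e - n) ≤ n * (T * a ^ 2) := by
    have e1 : e * (e - n) = e ^ 2 - n * e := by ring
    have e2 : n * (e + T * a ^ 2) = n * e + n * (T * a ^ 2) := by ring
    rw [e2] at h3
    linarith
  linarith

end Pool.Agent.X246.MRK
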