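import Pool.Agent.X246.MRK.Cover
import Mathlib.NumberTheory.Bertrand

/-!
# Graphs without four-cycles and with a small vertex cover
-/

set_option autoImplicit false

namespace Pool.Agent.X246.MRK

open Finset SimpleGraph Pool.Agent.X82.CW

/-- no two vertices have two common neighbours -/
def NoC4 {V : Type} (G : SimpleGraph V) : Prop :=
  ∀ x y, x ≠ y → ∀ z w, G.Adj x z → G.Adj y z → G.Adj x w → G.Adj y w → z = w

theorem NoC4.free {V : Type} {G : SimpleGraph V} (h : NoC4 G) :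
    (completeBipartiteGraph (Fin 2) (Fin 2)).Free G := by
  rintro ⟨f⟩
  have hadj : ∀ i j : Fin 2, G.Adj (f (Sum.inl i)) (f (Sum.inr j)) := by
    intro i j
    exact f.toHom.map_adj (by simp)
  have h1 : (Sum.inl 0 : Fin 2 ⊕ Fin 2) ≠ Sum.inl 1 := by simp
  have h2 : (Sum.inr 0 : Fin 2 ⊕ Fin 2) ≠ Sum.inr 1 := by simp
  exact h2 (f.injective (h _ _ (fun he => h1 (f.injective he)) _ _ (hadj 0 0) (hadj 1 0)
    (hadj 0 1) (hadj 1 1)))

/-- transport to `Fin n` -/
theorem transport {V : Type} [Fintype V] [DecidableEq V] (G0 : SimpleGraph V) (hG0 : NoC4 G0)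
    (X0 : Finset V) (hX0 : ∀ x y, G0.Adj x y → x ∈ X0 ∨ y ∈ X0) {n : ℕ}
    (hn : Fintype.card V = n) : ∃ (G : SimpleGraph (Fin n)) (X : Finset (Fin n)), NoC4 G ∧
      X.card = X0.card ∧ (∀ x y, G.Adj x y → x ∈ X ∨ y ∈ X) ∧
      Nat.card G.edgeSet = Nat.card G0.edgeSet := by
  classical
  let φ : V ≃ Fin n := Fintype.equivFinOfCardEq hn
  let G : SimpleGraph (Fin n) := G0.comap φ.symm
  have iso : G ≃g G0 := SimpleGraph.Iso.comap φ.symm G0
  refine ⟨G, X0.image φ, ?_, card_image_of_injective _ φ.injective, ?_,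
    Nat.card_congr iso.mapEdgeSet⟩
  · intro x y hxy z w h1 h2 h3 h4
    exact φ.symm.injective (hG0 _ _ (fun h => hxy (φ.symm.injective h)) _ _ h1 h2 h3 h4)
  · intro x y hxy
    rw [mem_image, mem_image]
    rcases hX0 _ _ (show G0.Adj (φ.symm x) (φ.symm y) from hxy) with h | h
    · exact Or.inl ⟨_, h, φ.apply_symm_apply x⟩
    · exact Or.inr ⟨_, h, φ.apply_symm_apply y⟩

/-- incidences of points and of some lines of the affine plane -/
def Inc {p L t : ℕ} (ℓ : Fin L → ZMod p × ZMod p) : ZMod p × ZMod p → Fin L ⊕ Fin t → Prop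
  | P, Sum.inl i => P.2 = (ℓ i).1 * P.1 + (ℓ i).2
  | _, Sum.inr _ => False

/-- the incidence graph with isolated vertices -/
def incG {p L t : ℕ} (ℓ : Fin L → ZMod p × ZMod p) :
    SimpleGraph ((ZMod p × ZMod p) ⊕ (Fin L ⊕ Fin t)) where
  Adj a b := match a, b with
    | Sum.inl P, Sum.inr q => Inc ℓ P q
    | Sum.inr q, Sum.inl P => Inc ℓ P q
    | _, _ => False
  symm := ⟨by
    rintro (u | p) (u' | p') h
    · exact h
    · exact h
    · exact h
    · exact h⟩
  loopless := ⟨by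
    rintro (u | p) h
    · exact h
    · exact h⟩

theorem incG_noC4 {p L t : ℕ} [Fact p.Prime] (ℓ : Fin L → ZMod p × ZMod p)
    (hℓ : Function.Injective ℓ) : NoC4 (incG (t := t) ℓ) := by
  rintro (P | (i | i)) (Q | (j | j)) hxy (z | (z | z)) (w | (w | w)) h1 h2 h3 h4
  all_goals first | exact absurd h1 (fun h => h) | exact absurd h2 (fun h => h) |
    exact absurd h3 (fun h => h) | exact absurd h4 (fun h => h) | skip
  · -- two points
    have e1 : P.2 = (ℓ z).1 * P.1 + (ℓ z).2 := h1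
    have e2 : Q.2 = (ℓ z).1 * Q.1 + (ℓ z).2 := h2
    have e3 : P.2 = (ℓ w).1 * P.1 + (ℓ w).2 := h3
    have e4 : Q.2 = (ℓ w).1 * Q.1 + (ℓ w).2 := h4
    have hne : P.1 - Q.1 ≠ 0 := by
      intro h
      have h5 : P.1 = Q.1 := sub_eq_zero.1 h
      apply hxy
      rw [show P = Q from Prod.ext h5 (by rw [e1, e2, h5])]
    have h6 : (ℓ z).1 = (ℓ w).1 := by
      have : ((ℓ z).1 - (ℓ w).1) * (P.1 - Q.1) = 0 := by linear_combination -e1 + e2 + e3 - e4
      rcases mul_eq_zero.1 this with h | h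
      · exact sub_eq_zero.1 h
      · exact absurd h hne
    have h7 : (ℓ z).2 = (ℓ w).2 := by
      rw [h6] at e1
      exact add_left_cancel (e1.symm.trans e3)
    rw [hℓ (Prod.ext h6 h7)]
  · -- two lines
    have e1 : z.2 = (ℓ i).1 * z.1 + (ℓ i).2 := h1
    have e2 : z.2 = (ℓ j).1 * z.1 + (ℓ j).2 := h2
    have e3 : w.2 = (ℓ i).1 * w.1 + (ℓ i).2 := h3
    have e4 : w.2 = (ℓ j).1 * w.1 + (ℓ j).2 := h4
    have hne : (ℓ i).1 - (ℓ j).1 ≠ 0 := by
      intro h
      have h5 : (ℓ i).1 = (ℓ j).1 := sub_eq_zero.1 h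
      apply hxy
      have h6 : (ℓ i).2 = (ℓ j).2 := by
        rw [h5] at e1
        exact add_left_cancel (e1.symm.trans e2)
      rw [hℓ (Prod.ext h5 h6)]
    have h6 : z.1 = w.1 := by
      have : ((ℓ i).1 - (ℓ j).1) * (z.1 - w.1) = 0 := by linear_combination -e1 + e2 + e3 - e4
      rcases mul_eq_zero.1 this with h | h
      · exact absurd h hne
      · exact sub_eq_zero.1 h
    rw [show z = w from Prod.ext h6 (by rw [e1, e3, h6])]

theorem incG_edges {p L t : ℕ} [Fact p.Prime] (ℓ : Fin L → ZMod p × ZMod p) :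
    L * p ≤ Nat.card (incG (t := t) ℓ).edgeSet := by
  classical
  let f : Fin L × ZMod p → (incG (t := t) ℓ).edgeSet := fun q =>
    ⟨s(Sum.inl (q.2, (ℓ q.1).1 * q.2 + (ℓ q.1).2), Sum.inr (Sum.inl q.1)), by
      change (ℓ q.1).1 * q.2 + (ℓ q.1).2 = (ℓ q.1).1 * q.2 + (ℓ q.1).2
      rfl⟩
  have hf : Function.Injective f := by
    rintro ⟨i, x⟩ ⟨j, y⟩ h
    have h1 := congrArg Subtype.val h
    simp only [f, Sym2.eq_iff, Sum.inl.injEq, Sum.inr.injEq, reduceCtorEq, false_and, or_false,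
      Prod.mk.injEq] at h1
    rw [Prod.mk.injEq]
    exact ⟨h1.2, h1.1.1⟩
  have hc := Nat.card_le_card_of_injective f hf
  rw [Nat.card_prod, Nat.card_eq_fintype_card, Nat.card_eq_fintype_card (α := ZMod p),
    Fintype.card_fin, ZMod.card] at hc
  exact hc

/-- a part of the affine plane -/
theorem plane_exists {n p L : ℕ} (hp : p.Prime) (hL : L ≤ p ^ 2) (hn : p ^ 2 + L ≤ n) :
    ∃ (G : SimpleGraph (Fin n)) (X : Finset (Fin n)), NoC4 G ∧ X.card ≤ L ∧
      (∀ x y, G.Adj x y → x ∈ X ∨ y ∈ X) ∧ L * p ≤ Nat.card G.edgeSet := by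
  classical
  haveI : Fact p.Prime := ⟨hp⟩
  obtain ⟨t, rfl⟩ := Nat.exists_eq_add_of_le hn
  have hcard : Fintype.card (ZMod p × ZMod p) = p ^ 2 := by
    rw [Fintype.card_prod, ZMod.card, sq]
  obtain ⟨ℓ⟩ : Nonempty (Fin L ↪ ZMod p × ZMod p) := by
    apply Function.Embedding.nonempty_of_card_le
    rw [Fintype.card_fin, hcard]
    exact hL
  have hc : Fintype.card ((ZMod p × ZMod p) ⊕ (Fin L ⊕ Fin t)) = p ^ 2 + L + t := by
    rw [Fintype.card_sum, Fintype.card_sum, hcard, Fintype.card_fin, Fintype.card_fin]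
    ring
  obtain ⟨G, X, h1, h2, h3, h4⟩ := transport (incG (t := t) ℓ) (incG_noC4 ℓ ℓ.injective)
    ((univ : Finset (Fin L)).image fun i => Sum.inr (Sum.inl i)) (by
      rintro (P | (i | i)) (Q | (j | j)) h
      · exact absurd h (fun h => h)
      · exact Or.inr (mem_image.2 ⟨j, mem_univ _, rfl⟩)
      · exact absurd h (fun h => h)
      · exact Or.inl (mem_image.2 ⟨i, mem_univ _, rfl⟩)
      · exact absurd h (fun h => h)
      · exact absurd h (fun h => h)
      · exact absurd h (fun h => h)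
      · exact absurd h (fun h => h)
      · exact absurd h (fun h => h)) hc
  refine ⟨G, X, h1, ?_, h3, ?_⟩
  · rw [h2]
    refine card_image_le.trans ?_
    simp
  · rw [h4]
    exact incG_edges ℓ

/-- the star -/
theorem star_exists {n : ℕ} (hn : 1 ≤ n) :
    ∃ (G : SimpleGraph (Fin n)) (X : Finset (Fin n)), NoC4 G ∧ X.card ≤ 1 ∧
      (∀ x y, G.Adj x y → x ∈ X ∨ y ∈ X) ∧ n ≤ Nat.card G.edgeSet + 1 := by
  classical
  let o : Fin n := ⟨0, hn⟩
  let G : SimpleGraph (Fin n) :=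
    { Adj := fun x y => x ≠ y ∧ (x = o ∨ y = o)
      symm := ⟨fun x y h => ⟨h.1.symm, h.2.symm⟩⟩
      loopless := ⟨fun x h => h.1 rfl⟩ }
  refine ⟨G, {o}, ?_, by simp, ?_, ?_⟩
  · rintro x y hxy z w ⟨h1, h1'⟩ ⟨h2, h2'⟩ ⟨h3, h3'⟩ ⟨h4, h4'⟩
    have hz : z = o := by
      rcases h1' with h | h
      · rcases h2' with h' | h'
        · exact absurd (h.trans h'.symm) hxy
        · exact h'
      · exact h
    have hw : w = o := by
      rcases h3' with h | h
      · rcases h4' with h' | h'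
        · exact absurd (h.trans h'.symm) hxy
        · exact h'
      · exact h
    rw [hz, hw]
  · rintro x y ⟨-, h⟩
    simpa using h
  · let f : {x : Fin n // x ≠ o} → G.edgeSet := fun x => ⟨s(x.1, o), x.2, Or.inr rfl⟩
    have hf : Function.Injective f := by
      rintro ⟨x, hx⟩ ⟨y, hy⟩ h
      have h1 := congrArg Subtype.val h
      simp only [f, Sym2.eq_iff] at h1
      rcases h1 with h1 | h1
      · exact Subtype.ext h1.1
      · exact absurd h1.1 hx
    have hc := Nat.card_le_card_of_injective f hf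
    rw [Nat.card_eq_fintype_card, Fintype.card_subtype_compl, Fintype.card_fin] at hc
    simp only [Fintype.card_unique] at hc
    omega

/-- the lower bound for all ranks -/
theorem lower_exists {n r : ℕ} (hr : 2 ≤ r) (hrn : r ≤ n) :
    ∃ (G : SimpleGraph (Fin n)) (X : Finset (Fin n)), NoC4 G ∧ 2 * X.card ≤ r ∧
      (∀ x y, G.Adj x y → x ∈ X ∨ y ∈ X) ∧ ((n : ℝ) + r * √n) / 46 ≤ Nat.card G.edgeSet := by
  have hn2 : (2 : ℝ) ≤ n := by exact_mod_cast hr.trans hrn
  have hn0 : (0 : ℝ) ≤ n := by linarith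
  set q : ℝ := √n with hq
  have hq0 : 0 ≤ q := Real.sqrt_nonneg _
  have hqq : q ^ 2 = n := Real.sq_sqrt hn0
  have hrn' : (r : ℝ) ≤ n := by exact_mod_cast hrn
  have hr' : (2 : ℝ) ≤ r := by exact_mod_cast hr
  by_cases hsmall : n < 8 ∨ (r : ℝ) ≤ q
  · obtain ⟨G, X, h1, h2, h3, h4⟩ := star_exists (n := n) (by omega)
    refine ⟨G, X, h1, by omega, h3, ?_⟩
    have h5 : (n : ℝ) ≤ Nat.card G.edgeSet + 1 := by exact_mod_cast h4
    have h6 : (r : ℝ) * q ≤ 3 * n := by
      rcases hsmall with h | h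
      · have h7 : (n : ℝ) < 8 := by exact_mod_cast h
        have h8 : q ≤ 3 := by nlinarith
        nlinarith
      · nlinarith
    rw [div_le_iff₀ (by norm_num)]
    nlinarith
  · push Not at hsmall
    obtain ⟨hn8, hrq⟩ := hsmall
    -- the prime
    set m : ℕ := Nat.sqrt (n / 2) with hm
    have hm2 : 2 ≤ m := by
      rw [hm, Nat.le_sqrt]
      omega
    have hmm : m * m ≤ n / 2 := Nat.sqrt_le _
    have hmm' : n / 2 < (m + 1) * (m + 1) := Nat.sqrt_lt.1 (by
      rw [← hm]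
      exact Nat.lt_succ_self _)
    obtain ⟨p, hp, hp1, hp2⟩ := Nat.exists_prime_lt_and_le_two_mul (m / 2) (by omega)
    have hpm : p ≤ m := by omega
    have hpm' : m + 1 ≤ 2 * p := by omega
    have hpn : p ^ 2 ≤ n / 2 := by
      calc p ^ 2 = p * p := sq p
        _ ≤ m * m := Nat.mul_le_mul hpm hpm
        _ ≤ n / 2 := hmm
    have hpn' : n ≤ 8 * p ^ 2 := by
      have : (m + 1) * (m + 1) ≤ (2 * p) * (2 * p) := Nat.mul_le_mul hpm' hpm'
      have e : (2 * p) * (2 * p) = 4 * p ^ 2 := by ring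
      omega
    set L : ℕ := min (r / 2) (p ^ 2) with hL
    obtain ⟨G, X, h1, h2, h3, h4⟩ := plane_exists (n := n) (p := p) (L := L) hp
      (min_le_right _ _) (by
        have : L ≤ p ^ 2 := min_le_right _ _
        omega)
    refine ⟨G, X, h1, ?_, h3, ?_⟩
    · have : L ≤ r / 2 := min_le_left _ _
      omega
    · have hL8 : r ≤ 8 * L := by
        rcases le_total (r / 2) (p ^ 2) with h | h
        · rw [hL, min_eq_left h]
          omega
        · rw [hL, min_eq_right h]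
          omega
      have hL8' : (r : ℝ) ≤ 8 * L := by exact_mod_cast hL8
      have hp8 : (n : ℝ) ≤ 8 * (p : ℝ) ^ 2 := by exact_mod_cast hpn'
      have hqp : q ≤ 2.83 * p := by
        have hp0 : (0 : ℝ) ≤ p := Nat.cast_nonneg _
        by_contra hcon
        push Not at hcon
        have : (2.83 * (p : ℝ)) ^ 2 < q ^ 2 := pow_lt_pow_left₀ hcon (by positivity) two_ne_zero
        rw [hqq] at this
        nlinarith
      have h5 : (L : ℝ) * p ≤ Nat.card G.edgeSet := by exact_mod_cast h4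
      have hp0 : (0 : ℝ) ≤ p := Nat.cast_nonneg _
      have h6 : (r : ℝ) * q ≤ 8 * L * (2.83 * p) := mul_le_mul hL8' hqp hq0 (by positivity)
      have h7 : (n : ℝ) ≤ r * q := by nlinarith
      rw [div_le_iff₀ (by norm_num)]
      nlinarith

end Pool.Agent.X246.MRK
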