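import Pool.Agent.X246.LRS.Trace

/-!
# The rank of a real matrix any two rows of which share few nonzero columns

Scaling the rows and the columns of a square matrix with nonzero diagonal so that all row sums and
all column sums of the squares of the entries are almost equal to `1`.
-/

set_option autoImplicit false

namespace Pool.Agent.X246.MRK

open Finset

variable {I : Type} [Fintype I]

/-- the potential -/
noncomputable def Phi (P : I → I → ℝ) (u v : I → ℝ) : ℝ :=
  (∑ i, (Real.exp (u i) * (∑ j, P i j * Real.exp (v j)) - u i)) - ∑ j, v j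

theorem Phi_swap (P : I → I → ℝ) (u v : I → ℝ) :
    Phi P u v = Phi (fun i j => P j i) v u := by
  have h : ∀ (Q : I → I → ℝ) (a b : I → ℝ), Phi Q a b =
      (∑ i, ∑ j, Q i j * Real.exp (a i) * Real.exp (b j)) - ∑ i, a i - ∑ j, b j := by
    intro Q a b
    unfold Phi
    rw [sum_sub_distrib]
    congr 2
    refine sum_congr rfl fun i _ => ?_
    rw [mul_sum]
    refine sum_congr rfl fun j _ => ?_
    ring
  rw [h, h, sum_comm]
  have h1 : (∑ j, ∑ i, P i j * Real.exp (u i) * Real.exp (v j)) =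
      ∑ i, ∑ j, P j i * Real.exp (v i) * Real.exp (u j) := by
    refine sum_congr rfl fun i _ => sum_congr rfl fun j _ => ?_
    ring
  rw [h1]
  ring

theorem exp_ge (c x : ℝ) (hc : 0 < c) : 1 + Real.log c ≤ c * Real.exp x - x := by
  have h1 : c * Real.exp x = Real.exp (x + Real.log c) := by
    rw [Real.exp_add, Real.exp_log hc, mul_comm]
  have h2 := Real.add_one_le_exp (x + Real.log c)
  rw [h1]
  linarith

theorem Phi_bdd (P : I → I → ℝ) (hP : ∀ i j, 0 ≤ P i j) (hd : ∀ i, 0 < P i i) (u v : I → ℝ) :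
    (∑ i, (1 + Real.log (P i i))) ≤ Phi P u v := by
  unfold Phi
  rw [← sum_sub_distrib]
  refine sum_le_sum fun i _ => ?_
  have h1 : P i i * Real.exp (v i) ≤ ∑ j, P i j * Real.exp (v j) :=
    single_le_sum (f := fun j => P i j * Real.exp (v j))
      (fun j _ => mul_nonneg (hP i j) (Real.exp_pos _).le) (mem_univ i)
  have h2 := exp_ge (P i i) (u i + v i) (hd i)
  rw [Real.exp_add] at h2
  have h3 := mul_le_mul_of_nonneg_left h1 (Real.exp_pos (u i)).le
  nlinarith

/-- almost minimal potentials -/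
theorem exists_near (P : I → I → ℝ) (hP : ∀ i j, 0 ≤ P i j) (hd : ∀ i, 0 < P i i) (η : ℝ)
    (hη : 0 < η) : ∃ u v : I → ℝ, ∀ u' v' : I → ℝ, Phi P u v ≤ Phi P u' v' + η := by
  let f : (I → ℝ) × (I → ℝ) → ℝ := fun p => Phi P p.1 p.2
  have hb : BddBelow (Set.range f) := by
    refine ⟨∑ i, (1 + Real.log (P i i)), ?_⟩
    rintro _ ⟨p, rfl⟩
    exact Phi_bdd P hP hd p.1 p.2
  have h1 : ⨅ p, f p < (⨅ p, f p) + η := by linarith
  obtain ⟨p, hp⟩ := exists_lt_of_ciInf_lt h1
  refine ⟨p.1, p.2, fun u' v' => ?_⟩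
  have h2 : ⨅ p, f p ≤ f (u', v') := ciInf_le hb _
  have h3 : f p = Phi P p.1 p.2 := rfl
  have h4 : f (u', v') = Phi P u' v' := rfl
  linarith

/-- the weight of a row -/
noncomputable def rowSum (P : I → I → ℝ) (u v : I → ℝ) (i : I) : ℝ :=
  Real.exp (u i) * ∑ j, P i j * Real.exp (v j)

theorem Phi_update [DecidableEq I] (P : I → I → ℝ) (u v : I → ℝ) (i : I) (δ : ℝ) :
    Phi P (Function.update u i (u i + δ)) v =
      Phi P u v + (Real.exp δ - 1) * rowSum P u v i - δ := by
  unfold Phi rowSum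
  let h : I → ℝ → ℝ := fun k x => Real.exp x * (∑ j, P k j * Real.exp (v j)) - x
  have h1 : (fun k => Real.exp (Function.update u i (u i + δ) k) *
      (∑ j, P k j * Real.exp (v j)) - Function.update u i (u i + δ) k) =
      Function.update (fun k => h k (u k)) i (h i (u i + δ)) := by
    funext k
    by_cases hk : k = i
    · subst hk
      simp [h]
    · simp [h, Function.update_of_ne hk]
  rw [h1, sum_update_of_mem (mem_univ i)]
  have h2 : (∑ k, h k (u k)) = h i (u i) + ∑ k ∈ univ \ {i}, h k (u k) :=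
    (sum_eq_add_sum_sdiff_singleton_of_mem (mem_univ i) _)
  have h3 : (∑ k, (Real.exp (u k) * (∑ j, P k j * Real.exp (v j)) - u k)) =
      ∑ k, h k (u k) := rfl
  rw [h3, h2]
  simp only [h]
  rw [Real.exp_add]
  ring

/-- the weight of a row for an almost minimal potential -/
theorem rowSum_near (P : I → I → ℝ) (hP : ∀ i j, 0 ≤ P i j) (u v : I → ℝ) (ε : ℝ) (h0 : 0 < ε)
    (h1 : ε < 1) (hmin : ∀ u' : I → ℝ, Phi P u v ≤ Phi P u' v + ε ^ 2) (i : I) :
    1 - ε ≤ (1 + ε) * rowSum P u v i ∧ (1 - ε) * rowSum P u v i ≤ 1 + ε := by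
  classical
  have hR : 0 ≤ rowSum P u v i :=
    mul_nonneg (Real.exp_pos _).le (sum_nonneg fun j _ => mul_nonneg (hP i j) (Real.exp_pos _).le)
  have key : ∀ δ : ℝ, -ε ^ 2 ≤ (Real.exp δ - 1) * rowSum P u v i - δ := by
    intro δ
    have h := hmin (Function.update u i (u i + δ))
    rw [Phi_update] at h
    linarith
  have k1 := key ε
  have k2 := key (-ε)
  have e1 : Real.exp ε - 1 ≤ ε + ε ^ 2 := by
    have h := Real.abs_exp_sub_one_sub_id_le (x := ε) (by rw [abs_of_pos h0]; exact h1.le)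
    have h' := (abs_le.1 h).2
    linarith
  have e2 : Real.exp (-ε) - 1 ≤ -ε + ε ^ 2 := by
    have h := Real.abs_exp_sub_one_sub_id_le (x := -ε)
      (by rw [abs_neg, abs_of_pos h0]; exact h1.le)
    have h' := (abs_le.1 h).2
    nlinarith
  have f1 := mul_le_mul_of_nonneg_right e1 hR
  have f2 := mul_le_mul_of_nonneg_right e2 hR
  constructor
  · have : ε * (1 - ε) ≤ ε * ((1 + ε) * rowSum P u v i) := by nlinarith
    exact le_of_mul_le_mul_left this h0
  · have : ε * ((1 - ε) * rowSum P u v i) ≤ ε * (1 + ε) := by nlinarith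
    exact le_of_mul_le_mul_left this h0

/-- A square matrix with nonzero diagonal, any two rows of which share at most `s` nonzero columns. -/
theorem near_bound (N : Matrix I I ℝ) (s : ℕ) (hd : ∀ i, N i i ≠ 0)
    (hs : ∀ x x', x ≠ x' → (univ.filter fun y => N x y ≠ 0 ∧ N x' y ≠ 0).card ≤ s)
    (ε : ℝ) (h0 : 0 < ε) (h1 : ε < 1) :
    (Fintype.card I : ℝ) * (1 - ε) ^ 4 ≤ ((s : ℝ) + 1) * N.rank * (1 + ε) ^ 4 := by
  classical
  set P : I → I → ℝ := fun i j => N i j ^ 2 with hPdef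
  have hP : ∀ i j, 0 ≤ P i j := fun i j => sq_nonneg _
  have hPd : ∀ i, 0 < P i i := fun i => by
    have := hd i
    simp only [hPdef]
    positivity
  obtain ⟨u, v, huv⟩ := exists_near P hP hPd (ε ^ 2) (by positivity)
  have hrow := rowSum_near P hP u v ε h0 h1 (fun u' => huv u' v)
  have hcol := rowSum_near (fun i j => P j i) (fun i j => hP j i) v u ε h0 h1 (fun v' => by
    have h := huv u v'
    rw [Phi_swap P u v, Phi_swap P u v'] at h
    exact h)
  set R : I → ℝ := rowSum P u v with hRdef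
  set C : I → ℝ := rowSum (fun i j => P j i) v u with hCdef
  set a : I → ℝ := fun i => Real.exp (u i / 2) with hadef
  set b : I → ℝ := fun j => Real.exp (v j / 2) with hbdef
  have ha : ∀ i, a i ^ 2 = Real.exp (u i) := fun i => by
    simp only [hadef]
    rw [← Real.exp_nat_mul]
    congr 1
    push_cast
    ring
  have hb : ∀ i, b i ^ 2 = Real.exp (v i) := fun i => by
    simp only [hbdef]
    rw [← Real.exp_nat_mul]
    congr 1
    push_cast
    ring
  let B : Matrix I I ℝ := Matrix.of fun i j => a i * N i j * b j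
  have hBsq : ∀ i j, B i j ^ 2 = Real.exp (u i) * (P i j * Real.exp (v j)) := by
    intro i j
    have : B i j ^ 2 = a i ^ 2 * (N i j ^ 2 * b j ^ 2) := by
      simp only [B, Matrix.of_apply]
      ring
    rw [this, ha, hb]
  have hBrow : ∀ i, ∑ j, B i j ^ 2 = R i := by
    intro i
    simp only [hBsq, hRdef, rowSum, mul_sum]
  have hBcol : ∀ j, ∑ i, B i j ^ 2 = C j := by
    intro j
    simp only [hBsq, hCdef, rowSum, mul_sum]
    refine sum_congr rfl fun i _ => ?_
    ring
  have hBrank : B.rank ≤ N.rank := by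
    have : B = Matrix.diagonal a * N * Matrix.diagonal b := by
      ext i j
      simp [B, Matrix.mul_diagonal, Matrix.diagonal_mul]
    rw [this]
    exact (Matrix.rank_mul_le_left _ _).trans (Matrix.rank_mul_le_right _ _)
  have hT := Pool.Agent.X246.LRS.trace_sq_le (B * B.transpose)
  have hTr : (B * B.transpose).rank ≤ N.rank := (Matrix.rank_mul_le_left _ _).trans hBrank
  have hTe : ∀ i l, (B * B.transpose) i l = ∑ j, B i j * B l j := by
    intro i l
    rw [Matrix.mul_apply]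
    rfl
  -- the trace
  have htr : ∑ i, (B * B.transpose) i i = ∑ i, R i := by
    refine sum_congr rfl fun i _ => ?_
    rw [hTe, ← hBrow]
    refine sum_congr rfl fun j _ => ?_
    ring
  -- the entries
  have hent : ∀ i l, (B * B.transpose) i l ^ 2 ≤
      (if i = l then R i ^ 2 else 0) + s * ∑ j, B i j ^ 2 * B l j ^ 2 := by
    intro i l
    by_cases hil : i = l
    · subst hil
      rw [if_pos rfl, hTe]
      have e1 : (∑ j, B i j * B i j) = R i := by
        rw [← hBrow]
        refine sum_congr rfl fun j _ => ?_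
        ring
      rw [e1]
      have : 0 ≤ (s : ℝ) * ∑ j, B i j ^ 2 * B i j ^ 2 :=
        mul_nonneg (Nat.cast_nonneg _) (sum_nonneg fun j _ => by positivity)
      linarith
    · rw [if_neg hil, zero_add, hTe]
      set F := univ.filter fun y => N i y ≠ 0 ∧ N l y ≠ 0 with hF
      have e1 : (∑ j, B i j * B l j) = ∑ j ∈ F, B i j * B l j := by
        refine (sum_subset (subset_univ F) fun j _ hj => ?_).symm
        rw [hF, mem_filter] at hj
        push Not at hj
        by_cases hN : N i j = 0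
        · simp [B, hN]
        · have := hj (mem_univ _) hN
          simp [B, this]
      have e2 : (∑ j ∈ F, B i j * B l j) ^ 2 ≤ F.card * ∑ j ∈ F, (B i j * B l j) ^ 2 :=
        sq_sum_le_card_mul_sum_sq
      have e3 : (∑ j ∈ F, (B i j * B l j) ^ 2) ≤ ∑ j, B i j ^ 2 * B l j ^ 2 := by
        refine (sum_le_sum_of_subset_of_nonneg (subset_univ F)
          (fun j _ _ => sq_nonneg _)).trans (le_of_eq ?_)
        refine sum_congr rfl fun j _ => ?_
        ring
      have e4 : (F.card : ℝ) ≤ s := by exact_mod_cast hs i l hil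
      rw [e1]
      refine e2.trans ?_
      exact mul_le_mul e4 e3 (sum_nonneg fun j _ => sq_nonneg _) (Nat.cast_nonneg _)
  have hsum : ∑ i, ∑ l, (B * B.transpose) i l ^ 2 ≤ (∑ i, R i ^ 2) + s * ∑ j, C j ^ 2 := by
    refine (sum_le_sum fun i _ => sum_le_sum fun l _ => hent i l).trans (le_of_eq ?_)
    simp only [sum_add_distrib]
    congr 1
    · refine sum_congr rfl fun i _ => ?_
      simp
    · simp only [← mul_sum]
      congr 1
      have : ∀ i, (∑ l, ∑ j, B i j ^ 2 * B l j ^ 2) = ∑ j, B i j ^ 2 * C j := by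
        intro i
        rw [sum_comm]
        refine sum_congr rfl fun j _ => ?_
        rw [← mul_sum, hBcol]
      simp only [this]
      rw [sum_comm]
      refine sum_congr rfl fun j _ => ?_
      rw [← sum_mul, hBcol]
      ring
  -- put together
  have hε1 : 0 < 1 - ε := by linarith
  have hR0 : ∀ i, 0 ≤ R i := fun i => by
    rw [← hBrow]
    exact sum_nonneg fun j _ => sq_nonneg _
  have hC0 : ∀ i, 0 ≤ C i := fun i => by
    rw [← hBcol]
    exact sum_nonneg fun j _ => sq_nonneg _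
  have hRu : ∀ i, (1 - ε) ^ 2 * R i ^ 2 ≤ (1 + ε) ^ 2 := fun i => by
    have h := (hrow i).2
    have h' : 0 ≤ (1 - ε) * R i := mul_nonneg hε1.le (hR0 i)
    nlinarith
  have hCu : ∀ i, (1 - ε) ^ 2 * C i ^ 2 ≤ (1 + ε) ^ 2 := fun i => by
    have h := (hcol i).2
    have h' : 0 ≤ (1 - ε) * C i := mul_nonneg hε1.le (hC0 i)
    nlinarith
  set n : ℝ := (Fintype.card I : ℝ) with hn
  have hn0 : 0 ≤ n := Nat.cast_nonneg _
  have s1 : n * (1 - ε) ≤ (1 + ε) * ∑ i, R i := by
    rw [mul_sum]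
    have : n * (1 - ε) = ∑ _i : I, (1 - ε) := by
      rw [sum_const, card_univ, nsmul_eq_mul]
    rw [this]
    exact sum_le_sum fun i _ => (hrow i).1
  have s2 : (1 - ε) ^ 2 * ∑ i, R i ^ 2 ≤ n * (1 + ε) ^ 2 := by
    rw [mul_sum]
    have : n * (1 + ε) ^ 2 = ∑ _i : I, (1 + ε) ^ 2 := by
      rw [sum_const, card_univ, nsmul_eq_mul]
    rw [this]
    exact sum_le_sum fun i _ => hRu i
  have s3 : (1 - ε) ^ 2 * ∑ i, C i ^ 2 ≤ n * (1 + ε) ^ 2 := by
    rw [mul_sum]
    have : n * (1 + ε) ^ 2 = ∑ _i : I, (1 + ε) ^ 2 := by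
      rw [sum_const, card_univ, nsmul_eq_mul]
    rw [this]
    exact sum_le_sum fun i _ => hCu i
  rw [htr] at hT
  have hrk : ((B * B.transpose).rank : ℝ) ≤ N.rank := by exact_mod_cast hTr
  have hrk0 : (0 : ℝ) ≤ N.rank := Nat.cast_nonneg _
  have hsum0 : 0 ≤ ∑ i, ∑ l, (B * B.transpose) i l ^ 2 :=
    sum_nonneg fun i _ => sum_nonneg fun l _ => sq_nonneg _
  have t1 : (∑ i, R i) ^ 2 ≤ N.rank * ((∑ i, R i ^ 2) + s * ∑ j, C j ^ 2) :=
    hT.trans ((mul_le_mul_of_nonneg_right hrk hsum0).trans (mul_le_mul_of_nonneg_left hsum hrk0))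
  have t2 : (1 - ε) ^ 2 * ((∑ i, R i ^ 2) + s * ∑ j, C j ^ 2) ≤ ((s : ℝ) + 1) * (n * (1 + ε) ^ 2) := by
    have : (0 : ℝ) ≤ s := Nat.cast_nonneg _
    nlinarith
  have t3 : (n * (1 - ε)) ^ 2 ≤ (1 + ε) ^ 2 * (∑ i, R i) ^ 2 := by
    have h' : 0 ≤ n * (1 - ε) := mul_nonneg hn0 hε1.le
    have h'' := pow_le_pow_left₀ h' s1 2
    calc (n * (1 - ε)) ^ 2 ≤ ((1 + ε) * ∑ i, R i) ^ 2 := h''
      _ = (1 + ε) ^ 2 * (∑ i, R i) ^ 2 := by ring
  have t4 : (1 - ε) ^ 2 * (n * (1 - ε)) ^ 2 ≤
      (1 + ε) ^ 2 * (N.rank * (((s : ℝ) + 1) * (n * (1 + ε) ^ 2))) := by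
    calc (1 - ε) ^ 2 * (n * (1 - ε)) ^ 2 ≤ (1 - ε) ^ 2 * ((1 + ε) ^ 2 * (∑ i, R i) ^ 2) :=
          mul_le_mul_of_nonneg_left t3 (sq_nonneg _)
      _ ≤ (1 - ε) ^ 2 * ((1 + ε) ^ 2 * (N.rank * ((∑ i, R i ^ 2) + s * ∑ j, C j ^ 2))) := by
          refine mul_le_mul_of_nonneg_left ?_ (sq_nonneg _)
          exact mul_le_mul_of_nonneg_left t1 (sq_nonneg _)
      _ = (1 + ε) ^ 2 * (N.rank * ((1 - ε) ^ 2 * ((∑ i, R i ^ 2) + s * ∑ j, C j ^ 2))) := by ring
      _ ≤ _ := by
          refine mul_le_mul_of_nonneg_left ?_ (sq_nonneg _)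
          exact mul_le_mul_of_nonneg_left t2 hrk0
  rcases hn0.lt_or_eq with hpos | hz
  · have : n * (n * (1 - ε) ^ 4) ≤ n * (((s : ℝ) + 1) * N.rank * (1 + ε) ^ 4) := by
      calc n * (n * (1 - ε) ^ 4) = (1 - ε) ^ 2 * (n * (1 - ε)) ^ 2 := by ring
        _ ≤ _ := t4
        _ = _ := by ring
    exact le_of_mul_le_mul_left this hpos
  · rw [← hz, zero_mul]
    positivity

/-- A square matrix with nonzero diagonal, any two rows of which share at most `s` nonzero columns,
has rank at least `n / (s + 1)`. -/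
theorem diag_bound (N : Matrix I I ℝ) (s : ℕ) (hd : ∀ i, N i i ≠ 0)
    (hs : ∀ x x', x ≠ x' → (univ.filter fun y => N x y ≠ 0 ∧ N x' y ≠ 0).card ≤ s) :
    Fintype.card I ≤ (s + 1) * N.rank := by
  by_contra hcon
  push Not at hcon
  set n := Fintype.card I with hn
  have hn1 : 1 ≤ n := by omega
  have hn0 : (0 : ℝ) < n := by exact_mod_cast hn1
  have hc : ((s : ℝ) + 1) * N.rank ≤ n - 1 := by
    have : ((s + 1) * N.rank : ℕ) + 1 ≤ n := hcon
    have h' : (((s + 1) * N.rank : ℕ) : ℝ) + 1 ≤ n := by exact_mod_cast this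
    push_cast at h'
    linarith
  set ε : ℝ := 1 / (32 * n) with hε
  have h0 : 0 < ε := by positivity
  have hne : n * ε = 1 / 32 := by
    rw [hε]
    field_simp
  have h1 : ε < 1 := by
    have h1n : (1 : ℝ) ≤ n := by exact_mod_cast hn1
    nlinarith
  have h := near_bound N s hd hs ε h0 h1
  have a1 : 1 - 4 * ε ≤ (1 - ε) ^ 4 := by
    have := one_add_mul_le_pow (show (-2 : ℝ) ≤ -ε by linarith) 4
    push_cast at this
    calc 1 - 4 * ε = 1 + 4 * -ε := by ring
      _ ≤ (1 + -ε) ^ 4 := this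
      _ = (1 - ε) ^ 4 := by ring
  have a2 : (1 + ε) ^ 4 ≤ 1 + 15 * ε := by
    have e2 : ε ^ 2 ≤ ε := by nlinarith
    have e3 : ε ^ 3 ≤ ε := by nlinarith [sq_nonneg ε]
    have e4 : ε ^ 4 ≤ ε := by nlinarith [sq_nonneg ε, pow_pos h0 3]
    nlinarith
  have b1 : (n : ℝ) * (1 - 4 * ε) ≤ (n - 1) * (1 + 15 * ε) := by
    calc (n : ℝ) * (1 - 4 * ε) ≤ n * (1 - ε) ^ 4 := mul_le_mul_of_nonneg_left a1 hn0.le
      _ ≤ ((s : ℝ) + 1) * N.rank * (1 + ε) ^ 4 := h
      _ ≤ (n - 1) * (1 + ε) ^ 4 := mul_le_mul_of_nonneg_right hc (by positivity)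
      _ ≤ (n - 1) * (1 + 15 * ε) := by
          refine mul_le_mul_of_nonneg_left a2 ?_
          have h1n : (1 : ℝ) ≤ n := by exact_mod_cast hn1
          linarith
  nlinarith

/-- **Term rank.** Let `M` be a real matrix any two rows of which share at most `s` nonzero columns.
If there are `m` nonzero entries in different rows and columns then `m ≤ (s + 1) rank M`. -/
theorem term_bound {X Y : Type} [Fintype X] [Fintype Y] (M : Matrix X Y ℝ) (s : ℕ)
    (hs : ∀ x x', x ≠ x' → (univ.filter fun y => M x y ≠ 0 ∧ M x' y ≠ 0).card ≤ s)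
    (f : I → X) (g : I → Y) (hf : Function.Injective f) (hg : Function.Injective g)
    (h : ∀ i, M (f i) (g i) ≠ 0) : Fintype.card I ≤ (s + 1) * M.rank := by
  classical
  have h1 := diag_bound (M.submatrix f g) s (fun i => h i) (by
    intro x x' hx
    refine le_trans ?_ (hs (f x) (f x') (fun hxx => hx (hf hxx)))
    refine card_le_card_of_injOn g ?_ (hg.injOn)
    intro y hy
    simpa using hy)
  exact h1.trans (Nat.mul_le_mul_left _ (Matrix.rank_submatrix_le _ _ _))

end Pool.Agent.X246.MRK
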