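import Pool.Agent.X246.MRK.Pair

/-!
# Subdivided graphs
-/

set_option autoImplicit false

namespace Pool.Agent.X246.MRK

open Finset SimpleGraph Pool.Agent.X82.CW

/-- a trail of a subdivided graph gives a trail of the graph -/
theorem down_trail {V U : Type} (G : SimpleGraph V) (H : SimpleGraph U) (ι : U → V)
    (h1 : ∀ u v, G.Adj (ι u) v → v ∉ Set.range ι)
    (h2 : ∀ v w, v ∉ Set.range ι → G.Adj v w → w ∈ Set.range ι)
    (h3 : ∀ b u u', b ∉ Set.range ι → u ≠ u' → G.Adj b (ι u) → G.Adj b (ι u') → H.Adj u u')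
    (h4 : ∀ b b' u u', b ∉ Set.range ι → b' ∉ Set.range ι → u ≠ u' → G.Adj b (ι u) →
      G.Adj b (ι u') → G.Adj b' (ι u) → G.Adj b' (ι u') → b = b') (hι : Function.Injective ι)
    (N : ℕ) : ∀ (x y : V) (w : G.Walk x y) (u u' : U), x = ι u → y = ι u' → w.length ≤ N →
      w.IsTrail → ∃ q : H.Walk u u', w.length = 2 * q.length ∧ q.IsTrail ∧
        ∀ e ∈ q.edges, ∃ b, b ∉ Set.range ι ∧ ∀ z ∈ e, s(b, ι z) ∈ w.edges := by
  induction N using Nat.strong_induction_on with
  | _ N ih =>
    intro x y w u u' hx hy hN hw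
    cases w with
    | nil =>
      have : u = u' := hι (hx.symm.trans hy)
      subst this
      exact ⟨Walk.nil, by simp, by simp, by simp⟩
    | @cons _ b _ g1 w1 =>
      subst hx
      have hb := h1 _ _ g1
      cases w1 with
      | nil => exact absurd ⟨u', hy.symm⟩ hb
      | @cons _ c _ g2 w2 =>
        obtain ⟨u'', hu''⟩ := h2 _ _ hb g2
        rw [Walk.isTrail_cons, Walk.isTrail_cons] at hw
        obtain ⟨⟨hw2, he2⟩, he1⟩ := hw
        rw [Walk.edges_cons, List.mem_cons, not_or] at he1
        rw [Walk.length_cons, Walk.length_cons] at hN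
        obtain ⟨q, hq1, hq2, hq3⟩ := ih w2.length (by omega) c y w2 u'' u' hu''.symm hy le_rfl hw2
        subst hu''
        have hne : u ≠ u'' := by
          rintro rfl
          exact he1.1 Sym2.eq_swap
        have hadj : H.Adj u u'' := h3 b u u'' hb hne g1.symm g2
        refine ⟨Walk.cons hadj q, ?_, ?_, ?_⟩
        · rw [Walk.length_cons, Walk.length_cons, Walk.length_cons, hq1]
          ring
        · rw [Walk.isTrail_cons]
          refine ⟨hq2, fun hmem => ?_⟩
          obtain ⟨b', hb', hz⟩ := hq3 _ hmem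
          have z1 := hz u (Sym2.mem_mk_left _ _)
          have z2 := hz u'' (Sym2.mem_mk_right _ _)
          have a1 : G.Adj b' (ι u) := Walk.edges_subset_edgeSet w2 z1
          have a2 : G.Adj b' (ι u'') := Walk.edges_subset_edgeSet w2 z2
          have := h4 b b' u u'' hb hb' hne g1.symm g2 a1 a2
          subst this
          exact he2 z2
        · intro e he
          rw [Walk.edges_cons, List.mem_cons] at he
          rcases he with rfl | he
          · refine ⟨b, hb, fun z hz => ?_⟩
            rw [Walk.edges_cons, Walk.edges_cons, List.mem_cons, List.mem_cons]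
            rcases Sym2.mem_iff.1 hz with rfl | rfl
            · exact Or.inl Sym2.eq_swap
            · exact Or.inr (Or.inl rfl)
          · obtain ⟨b', hb', hz⟩ := hq3 _ he
            refine ⟨b', hb', fun z hz' => ?_⟩
            rw [Walk.edges_cons, Walk.edges_cons, List.mem_cons, List.mem_cons]
            exact Or.inr (Or.inr (hz z hz'))

theorem down_girth {V U : Type} (G : SimpleGraph V) (H : SimpleGraph U) (ι : U → V)
    (h1 : ∀ u v, G.Adj (ι u) v → v ∉ Set.range ι)
    (h2 : ∀ v w, v ∉ Set.range ι → G.Adj v w → w ∈ Set.range ι)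
    (h3 : ∀ b u u', b ∉ Set.range ι → u ≠ u' → G.Adj b (ι u) → G.Adj b (ι u') → H.Adj u u')
    (h4 : ∀ b b' u u', b ∉ Set.range ι → b' ∉ Set.range ι → u ≠ u' → G.Adj b (ι u) →
      G.Adj b (ι u') → G.Adj b' (ι u) → G.Adj b' (ι u') → b = b') (hι : Function.Injective ι)
    (k : ℕ) (hH : ((2 * k : ℕ) : ℕ∞) < H.egirth) : ((4 * k : ℕ) : ℕ∞) < G.egirth := by
  classical
  have hmain : ((4 * k + 1 : ℕ) : ℕ∞) ≤ G.egirth := by
    rw [le_egirth]
    intro a w hw
    have hpos : ∃ (u : U) (w' : G.Walk (ι u) (ι u)), w'.IsCycle ∧ w'.length = w.length := by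
      by_cases ha : a ∈ Set.range ι
      · obtain ⟨u, rfl⟩ := ha
        exact ⟨u, w, hw, rfl⟩
      · cases w with
        | nil => exact absurd hw (by simp)
        | @cons _ c _ g p =>
          obtain ⟨u, rfl⟩ := h2 _ _ ha g
          have hmem : ι u ∈ (Walk.cons g p).support := by simp
          refine ⟨u, (Walk.cons g p).rotate (ι u) hmem, ?_, Walk.length_rotate _ _ _⟩
          exact (Walk.isCycle_rotate hmem).2 hw
    obtain ⟨u, w', hw', hl⟩ := hpos
    obtain ⟨q, hq1, hq2, -⟩ := down_trail G H ι h1 h2 h3 h4 hι w'.length _ _ w' u u rfl rfl le_rfl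
      hw'.isTrail
    have h3' := hw'.three_le_length
    have hc : q.IsCircuit := by
      refine ⟨hq2, ?_⟩
      rintro rfl
      rw [Walk.length_nil] at hq1
      omega
    have h4 := lt_of_lt_of_le hH hc.egirth_le_length
    have h5 : 2 * k < q.length := by exact_mod_cast h4
    have h6 : 4 * k + 1 ≤ w.length := by omega
    exact_mod_cast h6
  exact lt_of_lt_of_le (by exact_mod_cast Nat.lt_succ_self _) hmain

/-- the incidence relation of the subdivided graph with pendant vertices at `x₀` -/
def SubR {U T : Type} (H : SimpleGraph U) (x₀ : U) : U → H.edgeSet ⊕ T → Prop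
  | u, Sum.inl e => u ∈ e.1
  | u, Sum.inr _ => u = x₀

/-- the subdivided graph with pendant vertices -/
def subG {U T : Type} (H : SimpleGraph U) (x₀ : U) : SimpleGraph (U ⊕ (H.edgeSet ⊕ T)) where
  Adj a b := match a, b with
    | Sum.inl u, Sum.inr p => SubR H x₀ u p
    | Sum.inr p, Sum.inl u => SubR H x₀ u p
    | _, _ => False
  symm := ⟨by
    rintro (u | p) (u' | p') h
    · exact h
    · exact h
    · exact h
    · exact h⟩
  loopless := ⟨by
    rintro (u | p) h
    · exact h
    · exact h⟩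

theorem subG_girth {U T : Type} (H : SimpleGraph U) (x₀ : U) (k : ℕ)
    (hH : ((2 * k : ℕ) : ℕ∞) < H.egirth) :
    ((4 * k : ℕ) : ℕ∞) < (subG (T := T) H x₀).egirth := by
  refine down_girth (subG (T := T) H x₀) H Sum.inl ?_ ?_ ?_ ?_ Sum.inl_injective k hH
  · rintro u (v | v) h
    · exact absurd h (by intro h; exact h)
    · simp
  · rintro (v | v) (w | w) hv h
    · exact absurd ⟨v, rfl⟩ hv
    · exact absurd ⟨v, rfl⟩ hv
    · exact ⟨w, rfl⟩
    · exact absurd h (by intro h; exact h)
  · rintro (b | (e | t)) u u' hb hne g1 g2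
    · exact absurd ⟨b, rfl⟩ hb
    · have g1' : u ∈ e.1 := g1
      have g2' : u' ∈ e.1 := g2
      have := (Sym2.mem_and_mem_iff hne).1 ⟨g1', g2'⟩
      have he : e.1 ∈ H.edgeSet := e.2
      rw [this] at he
      exact he
    · have g1' : u = x₀ := g1
      have g2' : u' = x₀ := g2
      exact absurd (g1'.trans g2'.symm) hne
  · rintro (b | (e | t)) (b' | (e' | t')) u u' hb hb' hne g1 g2 g3 g4
    · exact absurd ⟨b, rfl⟩ hb
    · exact absurd ⟨b, rfl⟩ hb
    · exact absurd ⟨b, rfl⟩ hb
    · exact absurd ⟨b', rfl⟩ hb'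
    · have g1' : u ∈ e.1 := g1
      have g2' : u' ∈ e.1 := g2
      have g3' : u ∈ e'.1 := g3
      have g4' : u' ∈ e'.1 := g4
      have r1 := (Sym2.mem_and_mem_iff hne).1 ⟨g1', g2'⟩
      have r2 := (Sym2.mem_and_mem_iff hne).1 ⟨g3', g4'⟩
      congr 2
      exact Subtype.ext (r1.trans r2.symm)
    · have g3' : u = x₀ := g3
      have g4' : u' = x₀ := g4
      exact absurd (g3'.trans g4'.symm) hne
    · exact absurd ⟨b', rfl⟩ hb'
    · have g1' : u = x₀ := g1
      have g2' : u' = x₀ := g2
      exact absurd (g1'.trans g2'.symm) hne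
    · have g1' : u = x₀ := g1
      have g2' : u' = x₀ := g2
      exact absurd (g1'.trans g2'.symm) hne

/-- the number of edges of the subdivided graph -/
theorem subG_edges {U T : Type} [Fintype U] [Fintype T] (H : SimpleGraph U) (x₀ : U) :
    2 * Nat.card H.edgeSet + Fintype.card T ≤ Nat.card (subG (T := T) H x₀).edgeSet := by
  classical
  let G := subG (T := T) H x₀
  let f : (H.edgeSet ⊕ H.edgeSet) ⊕ T → G.edgeSet := fun p => match p with
    | Sum.inl (Sum.inl e) => ⟨s(Sum.inl e.1.out.1, Sum.inr (Sum.inl e)), by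
        change e.1.out.1 ∈ e.1
        exact Sym2.out_fst_mem e.1⟩
    | Sum.inl (Sum.inr e) => ⟨s(Sum.inl e.1.out.2, Sum.inr (Sum.inl e)), by
        change e.1.out.2 ∈ e.1
        exact Sym2.out_snd_mem e.1⟩
    | Sum.inr t => ⟨s(Sum.inl x₀, Sum.inr (Sum.inr t)), by
        change x₀ = x₀
        rfl⟩
  have hne : ∀ e : H.edgeSet, e.1.out.1 ≠ e.1.out.2 := by
    intro e h
    have h1 : s(e.1.out.1, e.1.out.2) = e.1 := by
      rw [Sym2.mk, Quot.out_eq]
    have h2 : s(e.1.out.1, e.1.out.2) ∈ H.edgeSet := by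
      rw [h1]
      exact e.2
    exact H.ne_of_adj h2 h
  have hf : Function.Injective f := by
    rintro ((e | e) | t) ((e' | e') | t') h
    · have h1 := congrArg Subtype.val h
      simp only [f, Sym2.eq_iff, Sum.inl.injEq, Sum.inr.injEq, reduceCtorEq, false_and,
        or_false] at h1
      rw [h1.2]
    · have h1 := congrArg Subtype.val h
      simp only [f, Sym2.eq_iff, Sum.inl.injEq, Sum.inr.injEq, reduceCtorEq, false_and,
        or_false] at h1
      obtain ⟨h2, h3⟩ := h1
      subst h3
      exact absurd h2 (hne e)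
    · have h1 := congrArg Subtype.val h
      simp [f] at h1
    · have h1 := congrArg Subtype.val h
      simp only [f, Sym2.eq_iff, Sum.inl.injEq, Sum.inr.injEq, reduceCtorEq, false_and,
        or_false] at h1
      obtain ⟨h2, h3⟩ := h1
      subst h3
      exact absurd h2.symm (hne e)
    · have h1 := congrArg Subtype.val h
      simp only [f, Sym2.eq_iff, Sum.inl.injEq, Sum.inr.injEq, reduceCtorEq, false_and,
        or_false] at h1
      rw [h1.2]
    · have h1 := congrArg Subtype.val h
      simp [f] at h1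
    · have h1 := congrArg Subtype.val h
      simp [f] at h1
    · have h1 := congrArg Subtype.val h
      simp [f] at h1
    · have h1 := congrArg Subtype.val h
      simp only [f, Sym2.eq_iff, Sum.inl.injEq, Sum.inr.injEq, reduceCtorEq, false_and,
        or_false] at h1
      rw [h1.2]
  have hc := Nat.card_le_card_of_injective f hf
  rw [Nat.card_sum, Nat.card_sum, Nat.card_eq_fintype_card (α := T)] at hc
  change _ ≤ Nat.card G.edgeSet
  omega

/-- a graph of girth greater than `4 k` with a vertex cover with `a` vertices -/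
theorem sub_exists {a n k : ℕ} (ha : 1 ≤ a) (H : SimpleGraph (Fin a))
    (hH : ((2 * k : ℕ) : ℕ∞) < H.egirth) (hn : a + Nat.card H.edgeSet ≤ n) :
    ∃ G : SimpleGraph (Fin n), ((4 * k : ℕ) : ℕ∞) < G.egirth ∧
      (∃ X : Finset (Fin n), X.card = a ∧ ∀ x y, G.Adj x y → x ∈ X ∨ y ∈ X) ∧
      n + Nat.card H.edgeSet ≤ Nat.card G.edgeSet + a := by
  classical
  obtain ⟨t, rfl⟩ := Nat.exists_eq_add_of_le hn
  let x₀ : Fin a := ⟨0, ha⟩
  let G0 : SimpleGraph (Fin a ⊕ (H.edgeSet ⊕ Fin t)) := subG (T := Fin t) H x₀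
  have hcard : Fintype.card (Fin a ⊕ (H.edgeSet ⊕ Fin t)) = a + Nat.card H.edgeSet + t := by
    rw [Fintype.card_sum, Fintype.card_sum, Fintype.card_fin, Fintype.card_fin,
      Nat.card_eq_fintype_card]
    ring
  let φ : (Fin a ⊕ (H.edgeSet ⊕ Fin t)) ≃ Fin (a + Nat.card H.edgeSet + t) :=
    Fintype.equivFinOfCardEq hcard
  let G : SimpleGraph (Fin (a + Nat.card H.edgeSet + t)) := G0.comap φ.symm
  have iso : G ≃g G0 := SimpleGraph.Iso.comap φ.symm G0
  refine ⟨G, ?_, ⟨(univ : Finset (Fin a)).image fun u => φ (Sum.inl u), ?_, ?_⟩, ?_⟩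
  · rw [iso.egirth_eq]
    exact subG_girth H x₀ k hH
  · rw [card_image_of_injective]
    · simp
    · intro u u' h
      exact Sum.inl_injective (φ.injective h)
  · intro x y hxy
    have h1 : G0.Adj (φ.symm x) (φ.symm y) := hxy
    rw [mem_image, mem_image]
    rcases hx : φ.symm x with u | p
    · exact Or.inl ⟨u, mem_univ _, by rw [← hx]; exact φ.apply_symm_apply x⟩
    · rcases hy : φ.symm y with v | q
      · exact Or.inr ⟨v, mem_univ _, by rw [← hy]; exact φ.apply_symm_apply y⟩
      · rw [hx, hy] at h1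
        exact absurd h1 (by intro h; exact h)
  · have h1 : Nat.card G.edgeSet = Nat.card G0.edgeSet := Nat.card_congr iso.mapEdgeSet
    have h2 := subG_edges (T := Fin t) H x₀
    rw [Fintype.card_fin] at h2
    rw [h1]
    change _ ≤ Nat.card (subG (T := Fin t) H x₀).edgeSet + a
    omega

end Pool.Agent.X246.MRK
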